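import Mathlib

set_option autoImplicit false

/-!
# MP_88348f_ag: the torus `T_{L/k}` of a cyclic extension becomes rational after few extra variables.
Definitions.
-/

open Polynomial
open scoped TensorProduct

namespace Pool.Agent.TorR

/-! ### definitions of the theorem -/

/-- the field of rational functions `F(t_1, ..., t_N)` -/
abbrev RF (F : Type) [Field F] (N : ℕ) : Type := FractionRing (MvPolynomial (Fin N) F)

section

variable {k L K : Type} [Field k] [Field L] [Field K] [Algebra k L] [Algebra k K]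

/-- the action of an endomorphism of `L` over `k` on `L ⊗ K` -/
noncomputable def bc (g : L →ₐ[k] L) : L ⊗[k] K →ₐ[k] L ⊗[k] K :=
  Algebra.TensorProduct.map g (AlgHom.id k K)

/-- the points of the torus `T_{L/k}` with coordinates in `K` (`L/k` finite Galois): the units `x` of
`L ⊗ K` whose norms to `M ⊗ K` are `1` for all intermediate fields `M ≠ L` -/
def IsPoint [FiniteDimensional k L] (x : L ⊗[k] K) : Prop :=
  IsUnit x ∧ ∀ M : IntermediateField k L, M ≠ ⊤ →
    ∏ g : (L ≃ₐ[M] L), bc ((g : L →ₐ[M] L).restrictScalars k) x = 1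

end

/-- `T_{L/k} × A^m` is rational over `k`: its dimension is `N = φ(n) + m` with `n = [L : k]`, and it has a
point `(x, y)` with coordinates in `K = k(t_1, ..., t_N)` whose coordinates generate the field `K`
over `k` -/
def RationalTimes (k L : Type) [Field k] [Field L] [Algebra k L] [FiniteDimensional k L]
    (m : ℕ) : Prop :=
  ∃ (x : L ⊗[k] RF k (Nat.totient (Module.finrank k L) + m))
    (y : Fin m → RF k (Nat.totient (Module.finrank k L) + m)), IsPoint x ∧
    ∀ K₀ : IntermediateField k (RF k (Nat.totient (Module.finrank k L) + m)),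
      x ∈ (Algebra.TensorProduct.map (AlgHom.id k L) K₀.val).range → (∀ i, y i ∈ K₀) → K₀ = ⊤

/-- number of extra variables for a product of distinct primes, given in decreasing order -/
def extra : List ℕ → ℕ
  | [] => 0
  | [_] => 0
  | [_, _] => 0
  | r :: l => Nat.totient l.prod + r * extra l

/-- number of extra variables for the degree `n`; it is `0` if `n` has at most two prime factors,
`(p - 1)(q - 1) n/(pqr)` if `n` has exactly three prime factors `p < q < r` -/
def extraDim (n : ℕ) : ℕ :=
  n / n.primeFactorsList.dedup.prod * extra n.primeFactorsList.dedup.reverse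

/-! ### auxiliary definitions of the proof -/

/-- the automorphism has order `n` -/
def Ord {L : Type} [Field L] (σ : L ≃+* L) (n : ℕ) : Prop :=
  0 < n ∧ (∀ a, σ^[n] a = a) ∧ ∀ j, 0 < j → j < n → ∃ a, σ^[j] a ≠ a

/-- the automorphism `s` on the group of units, written additively -/
noncomputable def su {Ω : Type} [Field Ω] (s : Ω ≃+* Ω) : Module.End ℤ (Additive Ωˣ) :=
  (MonoidHom.toAdditive (Units.map (s : Ω →* Ω))).toIntLinearMap

/-- the units, written additively, are a module over `ℤ[X]`, with `X` acting as `s` -/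
noncomputable def pw {Ω : Type} [Field Ω] (s : Ω ≃+* Ω) (f : ℤ[X]) :
    Module.End ℤ (Additive Ωˣ) := Polynomial.aeval (su s) f

/-- the element of the field -/
def el {Ω : Type} [Field Ω] (x : Additive Ωˣ) : Ω := ((Additive.toMul x : Ωˣ) : Ω)

/-- the conjugates of an element -/
def Cj {Ω : Type} [Field Ω] (s : Ω ≃+* Ω) (x : Ω) : Set Ω := Set.range fun j : ℕ => s^[j] x

/-- `s` extends `σ` -/
def Semi {L Ω : Type} [Field L] [Field Ω] [Algebra L Ω] (σ : L ≃+* L) (s : Ω ≃+* Ω) : Prop :=
  ∀ a, s (algebraMap L Ω a) = algebraMap L Ω (σ a)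

/-- the elements `t` are invariant, algebraically independent over `L`, and generate `Ω` over `L` -/
structure Free {L Ω : Type} [Field L] [Field Ω] [Algebra L Ω] (s : Ω ≃+* Ω) {ι : Type}
    (t : ι → Ω) : Prop where
  fix : ∀ i, s (t i) = t i
  ind : AlgebraicIndependent L t
  gen : IntermediateField.adjoin L (Set.range t) = ⊤

/-- internal form of the rationality of `T × A^m`, where `L` is cyclic of degree `n` over the fixed
field of `σ`: the point `(x, y)` of `T × A^m` generates the field `Ω = L(t)` -/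
def RatI (L : Type) [Field L] (σ : L ≃+* L) (n m : ℕ) : Prop :=
  ∃ (Ω : Type) (_ : Field Ω) (_ : Algebra L Ω) (s : Ω ≃+* Ω) (t : Fin (Nat.totient n + m) → Ω)
    (x : Additive Ωˣ) (y : Fin m → Ω), Semi σ s ∧ Free (L := L) s t ∧
    pw s (cyclotomic n ℤ) x = 0 ∧ (∀ i, s (y i) = y i) ∧
    IntermediateField.adjoin L (Cj s (el x) ∪ Set.range y) = ⊤

/-- the internal form for all fields -/
def AllRat (n m : ℕ) : Prop := ∀ (L : Type) [Field L] (σ : L ≃+* L), Ord σ n → RatI L σ n m

/-- `v = (u_{a,i}, w_{b,j})` is a solution of the linear system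
`∑_i u_{a,i} β_b^i = z_{a,b} ∑_j w_{b,j} α_a^j` -/
def Sol {Ω : Type} [Field Ω] {p q x₀ y₀ : ℕ} (α : Fin p → Ω) (β : Fin q → Ω)
    (z : Fin p → Fin q → Ω) (v : (Fin p × Fin x₀) ⊕ (Fin q × Fin y₀) → Ω) : Prop :=
  ∀ a b, ∑ i : Fin x₀, v (Sum.inl (a, i)) * β b ^ (i : ℕ) =
    z a b * ∑ j : Fin y₀, v (Sum.inr (b, j)) * α a ^ (j : ℕ)

end Pool.Agent.TorR
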