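import Pool.Agent.Work.MP_88348f_ag.TA.Stmts

set_option autoImplicit false

/-!
# MP_88348f_ag TA: item All (all degrees from the degrees without square factors)
-/

open Polynomial

namespace Pool.Agent.TorR

namespace ITAll

/-- multiplication by the prime factors of `c` -/
theorem step (h2 : StR) (R e : ℕ) (hR : 0 < R) (h : AllRat R e) (c : ℕ) :
    0 < c → (∀ p : ℕ, p.Prime → p ∣ c → p ∣ R) → AllRat (R * c) (c * e) := by
  induction c using induction_on_primes with
  | zero => intro h0; exact absurd h0 (lt_irrefl 0)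
  | one => intro _ _; simpa using h
  | prime_mul p a hp ih =>
    intro h0 hd
    have ha : 0 < a := Nat.pos_of_mul_pos_left h0
    have h3 := ih ha (fun q hq hqa => hd q hq (dvd_mul_of_dvd_right hqa p))
    have h4 := h2 (R * a) (a * e) p (Nat.mul_pos hR ha) h3 hp
      (dvd_mul_of_dvd_left (hd p hp (dvd_mul_right p a)) a)
    have e1 : R * (p * a) = R * a * p := by ring
    have e2 : p * a * e = p * (a * e) := by ring
    rw [e1, e2]
    exact h4

/-- the radical of `n` divides `n` -/
theorem rad_dvd (n : ℕ) (hn : 0 < n) : n.primeFactorsList.dedup.prod ∣ n := by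
  have h := (List.dedup_sublist n.primeFactorsList).prod_dvd_prod
  rwa [Nat.prod_primeFactorsList hn.ne'] at h

end ITAll

theorem pr_All (h1 : StSqf) (h2 : StR) : StAll := by
  intro n hn
  have hpr : ∀ p ∈ n.primeFactorsList.dedup, p.Prime := fun p hp =>
    Nat.prime_of_mem_primeFactorsList (List.mem_dedup.1 hp)
  have h3 := h1 n.primeFactorsList.dedup.reverse
    (fun p hp => hpr p (List.mem_reverse.1 hp))
    (List.nodup_reverse.2 (List.nodup_dedup _))
  rw [List.prod_reverse] at h3
  have hR := ITAll.rad_dvd n hn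
  have hR0 : 0 < n.primeFactorsList.dedup.prod := Nat.pos_of_dvd_of_pos hR hn
  have hc : 0 < n / n.primeFactorsList.dedup.prod := Nat.div_pos (Nat.le_of_dvd hn hR) hR0
  have h4 := ITAll.step h2 _ _ hR0 h3 (n / n.primeFactorsList.dedup.prod) hc (by
    intro p hp hpc
    have hpn : p ∣ n := hpc.trans (Nat.div_dvd_of_dvd hR)
    exact List.dvd_prod (List.mem_dedup.2 ((Nat.mem_primeFactorsList hn.ne').2 ⟨hp, hpn⟩)))
  rw [Nat.mul_div_cancel' hR] at h4
  exact h4

end Pool.Agent.TorR
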