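import Pool.Agent.Work.MP_88348f_ag.TA.Stmts

set_option autoImplicit false

/-!
# MP_88348f_ag, block TA, item Bs: a basis of the fixed field
-/

namespace Pool.Agent.TorR

theorem pr_Bs (h1 : StPrim) : StBs := by
  intro L _ σ m r hσ
  obtain ⟨α, hα, hinj⟩ := h1 L σ m r hσ
  refine ⟨fun j => α ^ (j : ℕ), ?_, ?_⟩
  · intro j
    change (⇑σ)^[r] (α ^ (j : ℕ)) = α ^ (j : ℕ)
    rw [iterate_map_pow, hα]
  · have e : (Matrix.of fun c j : Fin r => (⇑σ)^[(c : ℕ)] (α ^ (j : ℕ))) =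
        Matrix.vandermonde fun c : Fin r => (⇑σ)^[(c : ℕ)] α := by
      ext c j
      rw [Matrix.of_apply, Matrix.vandermonde_apply, iterate_map_pow]
    rw [e, Matrix.det_vandermonde_ne_zero_iff]
    intro a b hab
    exact Fin.ext (hinj a b a.2 b.2 hab)

end Pool.Agent.TorR
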