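import Pool.Agent.Work.MP_88348f_ag.TA.Stmts

set_option autoImplicit false

/-!
# Cnt: counting generators
-/

namespace Pool.Agent.TorR

namespace ITCnt

theorem alg {L Ω : Type} [Field L] [Field Ω] [Algebra L Ω] (S : Set Ω)
    (h : IntermediateField.adjoin L S = ⊤) : Algebra.IsAlgebraic (Algebra.adjoin L S) Ω := by
  refine ⟨fun a => ?_⟩
  have ha : a ∈ IntermediateField.adjoin L S := by rw [h]; trivial
  rw [IntermediateField.mem_adjoin_iff_div] at ha
  obtain ⟨r, hr, s, hs, rfl⟩ := ha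
  have h2 : IsAlgebraic (Algebra.adjoin L S) r :=
    isAlgebraic_algebraMap (⟨r, hr⟩ : Algebra.adjoin L S)
  have h3 : IsAlgebraic (Algebra.adjoin L S) s :=
    isAlgebraic_algebraMap (⟨s, hs⟩ : Algebra.adjoin L S)
  rw [div_eq_mul_inv]
  exact h2.mul h3.inv

end ITCnt

theorem pr_Cnt : StCnt := by
  intro L Ω _ _ _ ι κ _ _ t g hc ht hg
  have h1 : Algebra.IsAlgebraic (Algebra.adjoin L (Set.range g)) Ω := ITCnt.alg _ hg
  have h2 : Cardinal.mk κ ≤ Algebra.trdeg L Ω := by
    have h3 : Cardinal.mk κ = Cardinal.mk ι := by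
      rw [Cardinal.mk_fintype, Cardinal.mk_fintype, hc]
    rw [h3]
    exact ht.cardinalMk_le_trdeg
  exact (Algebra.IsAlgebraic.isTranscendenceBasis_of_le_trdeg_of_finite L g h2).1

end Pool.Agent.TorR
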