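import Pool.Agent.Work.MP_88348f_ag.TA.Stmts

set_option autoImplicit false

/-! # MP_88348f_ag, block TA, item Co: invariant coordinates -/

open Polynomial
open scoped TensorProduct

namespace Pool.Agent.TorR

namespace ITCo

lemma semi_iter {L Ω : Type} [Field L] [Field Ω] [Algebra L Ω] {σ : L ≃+* L} {s : Ω ≃+* Ω}
    (h : Semi σ s) (c : ℕ) (a : L) : s^[c] (algebraMap L Ω a) = algebraMap L Ω (σ^[c] a) := by
  induction c generalizing a with
  | zero => rfl
  | succ c ih => rw [Function.iterate_succ_apply, Function.iterate_succ_apply, h a, ih]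

end ITCo

open ITCo in
theorem pr_Co : StCo := by
  intro L Ω _ _ _ σ s r e hs hr he hdet Z hZ
  set A : Matrix (Fin r) (Fin r) L := Matrix.of fun c j : Fin r => σ^[(c : ℕ)] (e j) with hA
  set B : Matrix (Fin r) (Fin r) Ω := A.map (algebraMap L Ω) with hB
  have hAu : IsUnit A.det := isUnit_iff_ne_zero.mpr hdet
  have hBdet : B.det = algebraMap L Ω A.det := by
    rw [hB, RingHom.map_det]; rfl
  have hBu : IsUnit B.det := by rw [hBdet]; exact hAu.map _
  set v : Fin r → Ω := fun c => s^[(c : ℕ)] Z with hv
  have hinj : ∀ x y : Fin r → Ω, B.mulVec x = B.mulVec y → x = y := by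
    intro x y hxy
    exact (Matrix.mulVec_injective_iff_isUnit.mpr ((Matrix.isUnit_iff_isUnit_det B).mpr hBu)) hxy
  set z : Fin r → Ω := B⁻¹.mulVec v with hz
  have hBz : B.mulVec z = v := by
    rw [hz, Matrix.mulVec_mulVec, Matrix.mul_nonsing_inv B hBu, Matrix.one_mulVec]
  have hrow : ∀ c : Fin r, ∑ j, algebraMap L Ω (σ^[(c : ℕ)] (e j)) * z j = s^[(c : ℕ)] Z := by
    intro c
    have := congrFun hBz c
    simpa [Matrix.mulVec, dotProduct, hB, hA, hv] using this
  have hsz : (fun j => s (z j)) = z := by
    apply hinj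
    rw [hBz]
    funext c
    show ∑ j, B c j * s (z j) = s^[(c : ℕ)] Z
    have hBe : ∀ j, B c j = algebraMap L Ω (σ^[(c : ℕ)] (e j)) := fun j => rfl
    simp only [hBe]
    obtain ⟨c, hc⟩ := c
    rcases c with _ | c
    · -- row 0 comes from row r-1
      have h1 := hrow ⟨r - 1, by omega⟩
      have h2 := congrArg s h1
      rw [map_sum] at h2
      simp only [map_mul] at h2
      have e1 : s (s^[r - 1] Z) = Z := by
        rw [← Function.iterate_succ_apply' s (r - 1) Z]
        have : (r - 1).succ = r := by omega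
        rw [this, hZ]
      have e2 : ∀ j, s (algebraMap L Ω (σ^[r - 1] (e j))) = algebraMap L Ω (e j) := by
        intro j
        rw [hs, ← Function.iterate_succ_apply' σ (r - 1) (e j)]
        have : (r - 1).succ = r := by omega
        rw [this, he]
      simp only [e1, e2] at h2
      simpa using h2
    · have h1 := hrow ⟨c, by omega⟩
      have h2 := congrArg s h1
      rw [map_sum] at h2
      simp only [map_mul] at h2
      have e1 : s (s^[c] Z) = s^[c + 1] Z := (Function.iterate_succ_apply' s c Z).symm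
      have e2 : ∀ j, s (algebraMap L Ω (σ^[c] (e j))) = algebraMap L Ω (σ^[c + 1] (e j)) := by
        intro j
        rw [hs, ← Function.iterate_succ_apply' σ c (e j)]
      simp only [e1, e2] at h2
      exact h2
  refine ⟨z, fun j => congrFun hsz j, ?_, ?_⟩
  · have := hrow ⟨0, hr⟩
    simpa using this.symm
  · intro E hE j
    have hBi : B⁻¹ = (A⁻¹).map (algebraMap L Ω) := by
      apply Matrix.inv_eq_right_inv
      rw [hB, ← Matrix.map_mul, Matrix.mul_nonsing_inv A hAu]
      simp
    rw [hz, hBi]
    show ∑ c, (A⁻¹.map (algebraMap L Ω)) j c * v c ∈ E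
    refine E.sum_mem fun c _ => ?_
    exact E.mul_mem (E.algebraMap_mem _) (hE c)

end Pool.Agent.TorR
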