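import Pool.Agent.Work.MP_88348f_ag.TA.Stmts

set_option autoImplicit false

/-! # MP_88348f_ag, block TA, item Co2: coordinates in a basis -/

open Polynomial
open scoped TensorProduct

namespace Pool.Agent.TorR

namespace ITCo2

lemma semi_iter {L Ω : Type} [Field L] [Field Ω] [Algebra L Ω] {σ : L ≃+* L} {s : Ω ≃+* Ω}
    (h : Semi σ s) (c : ℕ) (a : L) : s^[c] (algebraMap L Ω a) = algebraMap L Ω (σ^[c] a) := by
  induction c generalizing a with
  | zero => rfl
  | succ c ih => rw [Function.iterate_succ_apply, Function.iterate_succ_apply, h a, ih]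

lemma iter_sum {L Ω : Type} [Field L] [Field Ω] [Algebra L Ω] {σ : L ≃+* L} {s : Ω ≃+* Ω}
    (h : Semi σ s) {r : ℕ} (e : Fin r → L) (z : Fin r → Ω) (hz : ∀ j, s (z j) = z j) (c : ℕ) :
    s^[c] (∑ j, algebraMap L Ω (e j) * z j) = ∑ j, algebraMap L Ω (σ^[c] (e j)) * z j := by
  induction c with
  | zero => rfl
  | succ c ih =>
    rw [Function.iterate_succ_apply', ih, map_sum]
    refine Finset.sum_congr rfl fun j _ => ?_
    rw [map_mul, h, hz, Function.iterate_succ_apply']

end ITCo2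

open ITCo2 in
theorem pr_Co2 : StCo2 := by
  intro L Ω _ _ _ σ s r e hs hdet z hz E hE
  set A : Matrix (Fin r) (Fin r) L := Matrix.of fun c j : Fin r => σ^[(c : ℕ)] (e j) with hA
  set B : Matrix (Fin r) (Fin r) Ω := A.map (algebraMap L Ω) with hB
  have hAu : IsUnit A.det := isUnit_iff_ne_zero.mpr hdet
  have hBdet : B.det = algebraMap L Ω A.det := by
    rw [hB, RingHom.map_det]; rfl
  have hBu : IsUnit B.det := by rw [hBdet]; exact hAu.map _
  set v : Fin r → Ω := fun c => s^[(c : ℕ)] (∑ j, algebraMap L Ω (e j) * z j) with hv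
  have hBz : B.mulVec z = v := by
    funext c
    show ∑ j, algebraMap L Ω (σ^[(c : ℕ)] (e j)) * z j =
      s^[(c : ℕ)] (∑ j, algebraMap L Ω (e j) * z j)
    exact (iter_sum hs e z hz c).symm
  have hzv : z = B⁻¹.mulVec v := by
    rw [← hBz, Matrix.mulVec_mulVec, Matrix.nonsing_inv_mul B hBu, Matrix.one_mulVec]
  intro j
  have hBi : B⁻¹ = (A⁻¹).map (algebraMap L Ω) := by
    apply Matrix.inv_eq_right_inv
    rw [hB, ← Matrix.map_mul, Matrix.mul_nonsing_inv A hAu]
    simp
  rw [hzv, hBi]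
  show ∑ c, (A⁻¹.map (algebraMap L Ω)) j c * v c ∈ E
  refine E.sum_mem fun c _ => ?_
  exact E.mul_mem (E.algebraMap_mem _) (hE c)

end Pool.Agent.TorR
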