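import Pool.Agent.Work.MP_88348f_ag.TA.Stmts

set_option autoImplicit false

/-!
# MP_88348f_ag, block TA, item Coin: the coin problem
-/

namespace Pool.Agent.TorR

theorem pr_Coin : StCoin := by
  intro p q hp hq hne
  have hco : Nat.Coprime p q := (Nat.coprime_primes hp hq).2 hne
  obtain ⟨x, hx, hmod⟩ := Nat.exists_mul_mod_eq_one_of_coprime hco hq.one_lt
  have hx0 : 0 < x := by
    rcases Nat.eq_zero_or_pos x with h | h
    · subst h
      rw [Nat.mul_zero, Nat.zero_mod] at hmod
      exact absurd hmod (by norm_num)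
    · exact h
  have hdiv := Nat.div_add_mod (p * x) q
  rw [hmod] at hdiv
  have hk : p * x / q < p := by
    rw [Nat.div_lt_iff_lt_mul hq.pos]
    exact Nat.mul_lt_mul_of_pos_left hx hp.pos
  refine ⟨x, p - p * x / q, hx0, Nat.sub_pos_of_lt hk, hx.le, Nat.sub_le _ _, ?_⟩
  have h1 : q * (p - p * x / q) = q * p - q * (p * x / q) := Nat.mul_sub _ _ _
  have h2 : q * (p * x / q) < q * p := Nat.mul_lt_mul_of_pos_left hk hq.pos
  have h3 : q * p = p * q := Nat.mul_comm q p
  omega

end Pool.Agent.TorR
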