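import Pool.Agent.Work.MP_88348f_ag.TA.Stmts

set_option autoImplicit false

/-!
# MP_88348f_ag, block TA, item Ct2: counting for two primes
-/

open Polynomial
open scoped TensorProduct

namespace Pool.Agent.TorR

namespace ITCt2

variable {Ω : Type} [Field Ω]

/-- the iterates are ring homomorphisms -/
theorem it_eq (s : Ω ≃+* Ω) (j : ℕ) (a : Ω) : s^[j] a = ((s : Ω →+* Ω) ^ j) a := by
  rw [RingHom.coe_pow]
  rfl

theorem it_mul (s : Ω ≃+* Ω) (j : ℕ) (a b : Ω) : s^[j] (a * b) = s^[j] a * s^[j] b := by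
  rw [it_eq, it_eq, it_eq, map_mul]

theorem it_inv (s : Ω ≃+* Ω) (j : ℕ) (a : Ω) : s^[j] a⁻¹ = (s^[j] a)⁻¹ := by
  rw [it_eq, it_eq, map_inv₀]

/-- the conjugates of `(X ^ p - 1) (X ^ q - 1) · z` -/
theorem conj_eq (h1 : StPw) (s : Ω ≃+* Ω) (p q : ℕ) (z : Additive Ωˣ) (j : ℕ) :
    s^[j] (el (pw s ((X ^ p - 1) * (X ^ q - 1)) z)) =
      s^[j + p + q] (el z) * (s^[j + p] (el z))⁻¹ * (s^[j + q] (el z) * (s^[j] (el z))⁻¹)⁻¹ := by
  have e : ((X ^ p - 1) * (X ^ q - 1) : ℤ[X]) = X ^ (p + q) - X ^ p - (X ^ q - 1) := by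
    rw [pow_add]
    ring
  have k1 : ∀ j, el (pw s (X ^ j) z) = s^[j] (el z) := (h1 Ω s z z).1
  have k2 : ∀ f g, pw s (f - g) z = pw s f z - pw s g z := (h1 Ω s z z).2.2.2.1
  have k3 : pw s 1 z = z := (h1 Ω s z z).2.2.2.2.2.1
  have k4 : ∀ x y : Additive Ωˣ, el (x - y) = el x * (el y)⁻¹ := by
    intro x y
    obtain ⟨-, -, -, -, -, -, -, a1, -⟩ := h1 Ω s x (-y)
    obtain ⟨-, -, -, -, -, -, -, -, a2, -⟩ := h1 Ω s y y
    rw [sub_eq_add_neg, a1, a2]
  rw [e, k2, k2, k2, k3, k4, k4, k4, k1, k1, k1]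
  rw [it_mul, it_mul, it_inv, it_inv, it_mul, it_inv, ← Function.iterate_add_apply,
    ← Function.iterate_add_apply, ← Function.iterate_add_apply, ← add_assoc]

theorem per (s : Ω ≃+* Ω) (n : ℕ) (hs : ∀ a : Ω, s^[n] a = a) (c : Ω) (j k : ℕ) :
    s^[j + k * n] c = s^[j] c := by
  induction k with
  | zero => rw [zero_mul, add_zero]
  | succ k ih =>
    rw [show j + (k + 1) * n = (j + k * n) + n by ring, Function.iterate_add_apply, hs, ih]

end ITCt2

open ITCt2 in
theorem pr_Ct2 (h1 : StPw) (h2 : StCnt) : StCt2 := by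
  intro L Ω _ _ _ σ s p q z _ hp hq hpq hper hind hgen t ht
  have hp0 : 0 < p := hp.pos
  have hq0 : 0 < q := hq.pos
  let g : Fin ((p - 1) * (q - 1)) ⊕ (Fin p ⊕ Fin (q - 1)) → Ω := Sum.elim t
    (Sum.elim (fun a => s^[q * (a : ℕ)] (el z)) (fun b => s^[p * ((b : ℕ) + 1)] (el z)))
  have hle : IntermediateField.adjoin L (Set.range t) ≤
      IntermediateField.adjoin L (Set.range g) := by
    refine IntermediateField.adjoin.mono L _ _ ?_
    rintro _ ⟨i, rfl⟩
    exact ⟨Sum.inl i, rfl⟩
  have hz0 : ∀ j, s^[j] (el z) ≠ 0 := by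
    intro j h
    rw [it_eq, map_eq_zero] at h
    obtain ⟨-, -, -, -, -, -, -, -, -, -, -, a3, -⟩ := h1 Ω s z z
    exact a3 h
  have hA : ∀ a : ℕ, s^[q * a] (el z) ∈ IntermediateField.adjoin L (Set.range g) := by
    intro a
    have e : q * a = q * (a % p) + (a / p) * (p * q) := by
      conv_lhs => rw [← Nat.mod_add_div a p]
      ring
    rw [e, per s (p * q) hper]
    exact IntermediateField.subset_adjoin L _ ⟨Sum.inr (Sum.inl ⟨a % p, Nat.mod_lt a hp0⟩), rfl⟩
  have hB : ∀ b : ℕ, s^[p * b] (el z) ∈ IntermediateField.adjoin L (Set.range g) := by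
    intro b
    have e : p * b = p * (b % q) + (b / q) * (p * q) := by
      conv_lhs => rw [← Nat.mod_add_div b q]
      ring
    rw [e, per s (p * q) hper]
    have hlt := Nat.mod_lt b hq0
    by_cases h0 : b % q = 0
    · rw [h0, mul_zero]
      have := hA 0
      rwa [mul_zero] at this
    · refine IntermediateField.subset_adjoin L _
        ⟨Sum.inr (Sum.inr ⟨b % q - 1, by omega⟩), ?_⟩
      change s^[p * ((b % q - 1) + 1)] (el z) = _
      rw [Nat.sub_add_cancel (Nat.pos_of_ne_zero h0)]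
  have hAB : ∀ a b : ℕ, s^[q * a + p * b] (el z) ∈ IntermediateField.adjoin L (Set.range g) := by
    intro a
    induction a with
    | zero =>
      intro b
      rw [mul_zero, zero_add]
      exact hB b
    | succ a iha =>
      intro b
      induction b with
      | zero =>
        rw [mul_zero, add_zero]
        exact hA (a + 1)
      | succ b ihb =>
        have hx := hle (ht (q * a + p * b))
        rw [conj_eq h1] at hx
        have m1 := iha b
        have m2 := iha (b + 1)
        have e1 : q * a + p * (b + 1) = q * a + p * b + p := by ring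
        have e2 : q * (a + 1) + p * b = q * a + p * b + q := by ring
        have e3 : q * (a + 1) + p * (b + 1) = q * a + p * b + p + q := by ring
        rw [e1] at m2
        rw [e2] at ihb
        rw [e3]
        have n0 := hz0 (q * a + p * b)
        have n1 := hz0 (q * a + p * b + p)
        have n2 := hz0 (q * a + p * b + q)
        have key := mul_mem (mul_mem hx (mul_mem ihb (inv_mem m1))) m2
        have e4 : s^[q * a + p * b + p + q] (el z) * (s^[q * a + p * b + p] (el z))⁻¹ *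
            (s^[q * a + p * b + q] (el z) * (s^[q * a + p * b] (el z))⁻¹)⁻¹ *
            (s^[q * a + p * b + q] (el z) * (s^[q * a + p * b] (el z))⁻¹) *
            s^[q * a + p * b + p] (el z) = s^[q * a + p * b + p + q] (el z) := by
          field_simp
        rw [e4] at key
        exact key
  have hcop : Nat.Coprime p q := (Nat.coprime_primes hp hq).2 hpq
  have hall : ∀ n : ℕ, s^[n] (el z) ∈ IntermediateField.adjoin L (Set.range g) := by
    intro n
    obtain ⟨a, ha⟩ : ∃ a : ℕ, (q * a) ≡ n [MOD p] := by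
      obtain ⟨c, hc⟩ := Nat.chineseRemainder hcop n 0
      obtain ⟨a, ha⟩ := (Nat.modEq_zero_iff_dvd).1 hc.2
      exact ⟨a, by rw [← ha]; exact hc.1⟩
    have hle2 : q * a ≤ n + a * (p * q) := by
      calc q * a ≤ a * (p * q) := by
            rw [mul_comm q a]
            exact Nat.mul_le_mul_left a (Nat.le_mul_of_pos_left q hp0)
        _ ≤ n + a * (p * q) := Nat.le_add_left _ _
    have hmod : (q * a) ≡ n + a * (p * q) [MOD p] := by
      refine ha.trans ?_
      have : n + 0 ≡ n + a * (p * q) [MOD p] := by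
        refine Nat.ModEq.add_left n ?_
        exact ((Nat.modEq_zero_iff_dvd).2 (Dvd.dvd.mul_left (Dvd.intro q rfl) a)).symm
      rwa [add_zero] at this
    obtain ⟨b, hb⟩ := (Nat.modEq_iff_dvd' hle2).1 hmod
    have e : n + a * (p * q) = q * a + p * b := by omega
    rw [← per s (p * q) hper (el z) n a, e]
    exact hAB a b
  have htop : IntermediateField.adjoin L (Set.range g) = ⊤ := by
    rw [eq_top_iff, ← hgen]
    refine IntermediateField.adjoin_le_iff.2 ?_
    rintro _ ⟨j, rfl⟩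
    exact hall j
  have hcard : Fintype.card (Fin (p * q)) =
      Fintype.card (Fin ((p - 1) * (q - 1)) ⊕ (Fin p ⊕ Fin (q - 1))) := by
    simp only [Fintype.card_sum, Fintype.card_fin]
    obtain ⟨p', rfl⟩ : ∃ p', p = p' + 1 := ⟨p - 1, by omega⟩
    obtain ⟨q', rfl⟩ : ∃ q', q = q' + 1 := ⟨q - 1, by omega⟩
    simp only [Nat.add_sub_cancel]
    ring
  have hg := h2 L Ω (Fin (p * q)) (Fin ((p - 1) * (q - 1)) ⊕ (Fin p ⊕ Fin (q - 1)))
    (fun j => s^[(j : ℕ)] (el z)) g hcard hind htop
  exact hg.comp Sum.inl Sum.inl_injective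

end Pool.Agent.TorR
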