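import Pool.Agent.Work.MP_88348f_ag.TA.Stmts

set_option autoImplicit false

/-!
# Item Cyc: polynomial identities
-/

open Polynomial

namespace Pool.Agent.TorR

namespace ITCyc

/-- substitution of congruent powers -/
theorem dvd_expand_sub (m N : ℕ) (f : ℤ[X]) (h : (X ^ m - 1 : ℤ[X]) ∣ X ^ N - X) :
    (X ^ m - 1 : ℤ[X]) ∣ expand ℤ N f - f := by
  have h1 := Polynomial.sub_dvd_eval_sub (X ^ N : ℤ[X]) X (f.map C)
  have h2 : (f.map C).eval (X ^ N : ℤ[X]) = expand ℤ N f := by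
    rw [eval_map, expand_eq_comp_X_pow]
    rfl
  have h3 : (f.map C).eval (X : ℤ[X]) = f := by
    rw [eval_map]
    exact eval₂_C_X
  rw [h2, h3] at h1
  exact h.trans h1

theorem dvd_pow_sub (m t : ℕ) : (X ^ m - 1 : ℤ[X]) ∣ X ^ (m * t) - 1 := by
  have h := sub_dvd_pow_sub_pow (X ^ m : ℤ[X]) 1 t
  rwa [← pow_mul, one_pow] at h

theorem dvd_X_pow (m N : ℕ) (hN : 1 ≤ N) (h : N ≡ 1 [MOD m]) :
    (X ^ m - 1 : ℤ[X]) ∣ X ^ N - X := by
  obtain ⟨t, ht⟩ := (Nat.modEq_iff_dvd' hN).1 h.symm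
  have h1 : N = m * t + 1 := by omega
  have h2 : (X ^ N - X : ℤ[X]) = (X ^ (m * t) - 1) * X := by
    rw [h1, pow_succ]
    ring
  rw [h2]
  exact (dvd_pow_sub m t).mul_right X

/-- the cyclotomic polynomial divides its expansions by coprime numbers -/
theorem cyc_dvd (m j : ℕ) (hm : 0 < m) (hj : j.Coprime m) :
    cyclotomic m ℤ ∣ expand ℤ j (cyclotomic m ℤ) := by
  have h1 := Complex.isPrimitiveRoot_exp m hm.ne'
  set ζ : ℂ := Complex.exp (2 * Real.pi * Complex.I / m) with hζ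
  have h2 : IsPrimitiveRoot (ζ ^ j) m := h1.pow_of_coprime j hj
  have h3 : aeval ζ (expand ℤ j (cyclotomic m ℤ)) = 0 := by
    rw [expand_aeval, cyclotomic_eq_minpoly h2 hm]
    exact minpoly.aeval _ _
  have h4 := minpoly.isIntegrallyClosed_dvd (h1.isIntegral hm) h3
  rwa [← cyclotomic_eq_minpoly h1 hm] at h4

end ITCyc

open ITCyc

theorem pr_Cyc : StCyc := by
  intro m r hm hr
  refine ⟨fun hrm => ?_, fun hrm => (cyclotomic_expand_eq_cyclotomic hr hrm ℤ).symm⟩
  obtain ⟨Ψ, hΨ⟩ := cyclotomic.dvd_X_pow_sub_one m ℤ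
  have hexp : expand ℤ r (cyclotomic m ℤ) = cyclotomic (m * r) ℤ * cyclotomic m ℤ :=
    cyclotomic_expand_eq_cyclotomic_mul hr hrm ℤ
  refine ⟨⟨Ψ, ?_⟩, ?_, ?_⟩
  · rw [hexp, hΨ]
    ring
  · have hco : r.Coprime m := (Nat.Prime.coprime_iff_not_dvd hr).2 hrm
    have hφ : 0 < Nat.totient m := Nat.totient_pos.2 hm
    set j : ℕ := r ^ (Nat.totient m - 1) with hj
    have hj1 : j.Coprime m := hco.pow_left _
    have hj2 : r * j = r ^ Nat.totient m := by
      rw [hj, ← pow_succ']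
      congr 1
      omega
    have hj3 : r * j ≡ 1 [MOD m] := by
      rw [hj2]
      exact Nat.ModEq.pow_totient hco
    have hj4 : 1 ≤ r * j := by
      rw [hj2]
      exact Nat.one_le_pow _ _ hr.pos
    obtain ⟨q, hq⟩ := cyc_dvd m j hm hj1
    obtain ⟨h, hh⟩ := dvd_expand_sub m (r * j) (cyclotomic m ℤ) (dvd_X_pow m (r * j) hj4 hj3)
    refine ⟨-h, expand ℤ r q, ?_⟩
    have h1 : expand ℤ (r * j) (cyclotomic m ℤ) =
        expand ℤ r (cyclotomic m ℤ) * expand ℤ r q := by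
      rw [expand_mul, hq, map_mul]
    have h2 : cyclotomic m ℤ = expand ℤ (r * j) (cyclotomic m ℤ) - (X ^ m - 1) * h := by
      rw [← hh]
      ring
    conv_lhs => rw [h2, h1]
    ring
  · have hder : (C (m : ℤ)) * X ^ (m - 1) =
        derivative (cyclotomic m ℤ) * Ψ + cyclotomic m ℤ * derivative Ψ := by
      have h1 := congrArg derivative hΨ
      rw [derivative_mul, derivative_sub, derivative_X_pow, derivative_one, sub_zero] at h1
      rw [← h1]
    have hX : (X : ℤ[X]) * X ^ (m - 1) = X ^ m := by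
      rw [← pow_succ']
      congr 1
      omega
    refine ⟨expand ℤ r (X * derivative (cyclotomic m ℤ) * Ψ), ?_, ?_⟩
    · refine ⟨expand ℤ r (X * derivative (cyclotomic m ℤ)), ?_⟩
      have h1 : (X ^ (m * r) - 1 : ℤ[X]) = expand ℤ r (X ^ m - 1) := by
        rw [map_sub, map_pow, expand_X, map_one, ← pow_mul, mul_comm]
      rw [h1, hΨ, ← map_mul, ← map_mul]
      congr 1
      ring
    · refine ⟨expand ℤ r (C (m : ℤ) * Ψ - X * derivative Ψ), ?_⟩
      rw [← map_mul]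
      have h1 : (C (m : ℤ) : ℤ[X]) = expand ℤ r (C (m : ℤ)) := by rw [expand_C]
      rw [h1, ← map_sub]
      congr 1
      rw [expand_C]
      have h2 : C (m : ℤ) * X ^ m = X * (derivative (cyclotomic m ℤ) * Ψ +
          cyclotomic m ℤ * derivative Ψ) := by
        rw [← hder, ← hX]
        ring
      have h3 : cyclotomic m ℤ * Ψ = X ^ m - 1 := hΨ.symm
      linear_combination (-1 : ℤ[X]) * h2 - C (m : ℤ) * h3

end Pool.Agent.TorR
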