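import Pool.Agent.Work.MP_88348f_ag.TA.Stmts

set_option autoImplicit false

/-!
# MP_88348f_ag, block TA, item Def: the field of definition
-/

open Polynomial
open scoped TensorProduct

namespace Pool.Agent.TorR

namespace ITDef

variable {k L K : Type} [Field k] [Field L] [Field K] [Algebra k L] [Algebra k K]

/-- a functional which separates the coordinate of `1` -/
theorem mem_of (K₀ : IntermediateField k K) (z : K)
    (h : (1 : L) ⊗ₜ[k] z ∈ (Algebra.TensorProduct.map (AlgHom.id k L) K₀.val).range) :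
    z ∈ K₀ := by
  obtain ⟨lam, hlam⟩ := LinearMap.exists_leftInverse_of_injective (Algebra.linearMap k L)
    (LinearMap.ker_eq_bot.mpr (algebraMap k L).injective)
  have h1 : lam 1 = 1 := by
    have := LinearMap.congr_fun hlam 1
    simpa using this
  let Lam : L ⊗[k] K →ₗ[k] K := TensorProduct.lift ((LinearMap.lsmul k K).comp lam)
  have hL : ∀ (a : L) (c : K), Lam (a ⊗ₜ c) = lam a • c := fun a c => by
    simp [Lam]
  obtain ⟨w, hw⟩ := h
  have key : ∀ w : L ⊗[k] K₀, Lam ((Algebra.TensorProduct.map (AlgHom.id k L) K₀.val) w) ∈ K₀ := by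
    intro w
    induction w using TensorProduct.induction_on with
    | zero => simp
    | tmul a c =>
      rw [Algebra.TensorProduct.map_tmul, hL]
      exact K₀.smul_mem c.2
    | add u v hu hv =>
      rw [map_add, map_add]
      exact K₀.add_mem hu hv
  have h2 := key w
  have h3 : (Algebra.TensorProduct.map (AlgHom.id k L) K₀.val) w = (1 : L) ⊗ₜ[k] z := hw
  rw [h3, hL, h1, one_smul] at h2
  exact h2

end ITDef

theorem pr_Def : StDef := by
  intro k L _ _ _ _ _ g Ω _ _ s K _ _ Θ hΘ hs m x y htop K₀ hx hy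
  -- the algebra structure of `Ω` over `K₀`
  let r : K₀ →+* Ω := (Θ : L ⊗[k] K →+* Ω).comp
    ((Algebra.TensorProduct.includeRight : K →ₐ[k] L ⊗[k] K).toRingHom.comp
      (algebraMap K₀ K))
  let _ : Algebra K₀ Ω := r.toAlgebra
  have hr : ∀ c : K₀, algebraMap K₀ Ω c = Θ (1 ⊗ₜ (c : K)) := fun c => rfl
  set ph := Algebra.TensorProduct.map (AlgHom.id k L) K₀.val with hph
  -- compatibility over `k`
  have hk : ∀ c : k, algebraMap K₀ Ω (algebraMap k K₀ c) = algebraMap L Ω (algebraMap k L c) := by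
    intro c
    rw [hr, ← hΘ]
    congr 1
    have h1 : ((algebraMap k K₀ c : K₀) : K) = c • (1 : K) := by
      rw [Algebra.smul_def, mul_one]
      rfl
    rw [h1, Algebra.algebraMap_eq_smul_one, TensorProduct.tmul_smul, TensorProduct.smul_tmul']
  -- the elements of `L` are algebraic over `K₀`
  have halg : ∀ w ∈ Set.range (algebraMap L Ω), IsAlgebraic K₀ w := by
    rintro _ ⟨a, rfl⟩
    have ha : IsIntegral k a := Algebra.IsIntegral.isIntegral a
    refine ⟨(minpoly k a).map (algebraMap k K₀), ?_, ?_⟩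
    · exact ((minpoly.monic ha).map _).ne_zero
    · rw [aeval_def, eval₂_map]
      have h1 : (algebraMap K₀ Ω).comp (algebraMap k K₀) = (algebraMap L Ω).comp (algebraMap k L) :=
        RingHom.ext hk
      rw [h1, ← Polynomial.hom_eval₂]
      have h2 : eval₂ (algebraMap k L) a (minpoly k a) = 0 := minpoly.aeval k a
      rw [h2, map_zero]
  -- the image of `L ⊗ K₀`
  let R : Subalgebra K₀ Ω :=
    { carrier := {ω | ∃ w, Θ (ph w) = ω}
      mul_mem' := by
        rintro _ _ ⟨u, rfl⟩ ⟨v, rfl⟩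
        exact ⟨u * v, by rw [map_mul, map_mul]⟩
      add_mem' := by
        rintro _ _ ⟨u, rfl⟩ ⟨v, rfl⟩
        exact ⟨u + v, by rw [map_add, map_add]⟩
      algebraMap_mem' := fun c => ⟨1 ⊗ₜ c, by
        rw [hr, hph, Algebra.TensorProduct.map_tmul]
        simp⟩ }
  have hR : ∀ ω, ω ∈ R ↔ ∃ w, Θ (ph w) = ω := fun ω => Iff.rfl
  set E0 : IntermediateField K₀ Ω := IntermediateField.adjoin K₀ (Set.range (algebraMap L Ω))
    with hE0
  have h1 : E0.toSubalgebra = Algebra.adjoin K₀ (Set.range (algebraMap L Ω)) :=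
    IntermediateField.adjoin_toSubalgebra_of_isAlgebraic halg
  have h2 : Algebra.adjoin K₀ (Set.range (algebraMap L Ω)) ≤ R := by
    refine Algebra.adjoin_le ?_
    rintro _ ⟨a, rfl⟩
    refine ⟨a ⊗ₜ 1, ?_⟩
    rw [hph, Algebra.TensorProduct.map_tmul]
    simp [hΘ]
  have hE0R : ∀ ω, ω ∈ E0 → ω ∈ R := by
    intro ω hω
    refine h2 ?_
    rw [← h1]
    exact hω
  have hLE : ∀ a : L, algebraMap L Ω a ∈ E0 := fun a =>
    IntermediateField.subset_adjoin K₀ _ ⟨a, rfl⟩
  have hRE0 : ∀ ω, ω ∈ R → ω ∈ E0 := by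
    rintro _ ⟨w, rfl⟩
    induction w using TensorProduct.induction_on with
    | zero =>
      rw [map_zero, map_zero]
      exact E0.zero_mem
    | tmul a c =>
      have h3 : Θ (ph (a ⊗ₜ c)) = algebraMap L Ω a * algebraMap K₀ Ω c := by
        rw [hr, ← hΘ, ← map_mul, hph, Algebra.TensorProduct.map_tmul,
          Algebra.TensorProduct.tmul_mul_tmul]
        simp
      rw [h3]
      exact E0.mul_mem (hLE a) (E0.algebraMap_mem c)
    | add u v hu hv =>
      rw [map_add, map_add]
      exact E0.add_mem hu hv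
  -- stability under `s`
  have hst : ∀ ω, ω ∈ R → s ω ∈ R := by
    rintro _ ⟨w, rfl⟩
    rw [← hs]
    refine ⟨Algebra.TensorProduct.map (g : L →ₐ[k] L) (AlgHom.id k K₀) w, ?_⟩
    congr 1
    induction w using TensorProduct.induction_on with
    | zero => simp
    | tmul a c => simp [hph, bc]
    | add u v hu hv => rw [map_add, map_add, hu, hv, map_add, map_add]
  have hxR : x ∈ R := by
    obtain ⟨w, hw⟩ := hx
    refine ⟨w, ?_⟩
    have h3 : ph w = Θ.symm x := hw
    rw [h3, RingEquiv.apply_symm_apply]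
  have hcj : ∀ j : ℕ, s^[j] x ∈ R := by
    intro j
    induction j with
    | zero => exact hxR
    | succ j ih =>
      rw [Function.iterate_succ_apply']
      exact hst _ ih
  -- everything is in `E0`
  let E1 : IntermediateField L Ω := E0.toSubfield.toIntermediateField hLE
  have hE1 : ∀ ω, ω ∈ E1 ↔ ω ∈ E0 := fun ω => Iff.rfl
  have h4 : IntermediateField.adjoin L (Cj s x ∪ Set.range fun i => Θ (1 ⊗ₜ y i)) ≤ E1 := by
    rw [IntermediateField.adjoin_le_iff]
    rintro ω (⟨j, rfl⟩ | ⟨i, rfl⟩)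
    · exact (hE1 _).mpr (hRE0 _ (hcj j))
    · refine (hE1 _).mpr ?_
      have h5 : Θ (1 ⊗ₜ y i) = algebraMap K₀ Ω ⟨y i, hy i⟩ := (hr ⟨y i, hy i⟩).symm
      show Θ (1 ⊗ₜ y i) ∈ E0
      rw [h5]
      exact E0.algebraMap_mem _
  rw [htop] at h4
  rw [eq_top_iff]
  intro z _
  have h6 : Θ (1 ⊗ₜ z) ∈ R := hE0R _ ((hE1 _).mp (h4 IntermediateField.mem_top))
  obtain ⟨w, hw⟩ := h6
  have h7 : ph w = (1 : L) ⊗ₜ[k] z := Θ.injective hw
  exact ITDef.mem_of K₀ z ⟨w, h7⟩

end Pool.Agent.TorR
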