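import Pool.Agent.Work.MP_88348f_ag.TA.Defs

set_option autoImplicit false

/-!
# MP_88348f_ag, block TA: statements of the items, each with its complete proof

THEOREM.  For `L/k` cyclic of degree `n` the variety `T_{L/k} × A^m` is rational, `m = extraDim n`.

Notation of the comments: `M = Additive Ωˣ` is a module over `ℤ[X]`, `X` acting as `s`, and `f · x` is
`pw s f x`.  `E` is stable for `x` means: all conjugates `s^[j] x` are in `E`.
-/

open Polynomial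
open scoped TensorProduct

namespace Pool.Agent.TorR

/-! ### A. the module of units -/

/-- Trivial formulas: `aeval` is a ring homomorphism, `su s` is `s`. -/
def StPw : Prop := ∀ (Ω : Type) [Field Ω] (s : Ω ≃+* Ω) (x y : Additive Ωˣ),
  (∀ j, el (pw s (X ^ j) x) = s^[j] (el x)) ∧
  (∀ f g, pw s (f * g) x = pw s f (pw s g x)) ∧
  (∀ f g, pw s (f + g) x = pw s f x + pw s g x) ∧
  (∀ f g, pw s (f - g) x = pw s f x - pw s g x) ∧
  (∀ a : ℤ, pw s (C a) x = a • x) ∧ pw s 1 x = x ∧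
  (∀ (ι : Type) (S : Finset ι) (f : ι → ℤ[X]), pw s (∑ i ∈ S, f i) x = ∑ i ∈ S, pw s (f i) x) ∧
  el (x + y) = el x * el y ∧ el (-x) = (el x)⁻¹ ∧ el (0 : Additive Ωˣ) = 1 ∧
  (∀ a : ℤ, el (a • x) = el x ^ a) ∧ el x ≠ 0 ∧ (el x = el y → x = y)

/-- Membership: `s^[j] (f · x)` is a product of powers of conjugates of `x`. -/
def StPwE : Prop := ∀ (L Ω : Type) [Field L] [Field Ω] [Algebra L Ω] (s : Ω ≃+* Ω)
  (E : IntermediateField L Ω) (x : Additive Ωˣ), (∀ j, s^[j] (el x) ∈ E) →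
  ∀ (f : ℤ[X]) (j : ℕ), s^[j] (el (pw s f x)) ∈ E

/-- A monic relation `f · x = 0` of degree `d`: `X^(d + i) · x = - ∑_{l < d} f_l X^(l + i) · x`, so all
conjugates are in `E` if the first `d` ones are (strong induction). -/
def StPwM : Prop := ∀ (L Ω : Type) [Field L] [Field Ω] [Algebra L Ω] (s : Ω ≃+* Ω)
  (E : IntermediateField L Ω) (x : Additive Ωˣ) (f : ℤ[X]), f.Monic → pw s f x = 0 →
  (∀ j < f.natDegree, s^[j] (el x) ∈ E) → ∀ j, s^[j] (el x) ∈ E

/-- Naturality.  `pw s (expand r f) = aeval (su s ^ r) f`, and the image of `su s' x` under `ψ` is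
`su s ^ r` of the image of `x`. -/
def StPwN : Prop := ∀ (Ω' Ω : Type) [Field Ω'] [Field Ω] (s' : Ω' ≃+* Ω') (s : Ω ≃+* Ω)
  (ψ : Ω' →+* Ω) (r : ℕ), (∀ a, s^[r] (ψ a) = ψ (s' a)) → ∀ (x' : Additive Ω'ˣ)
  (x : Additive Ωˣ), el x = ψ (el x') → ∀ f : ℤ[X],
  el (pw s (expand ℤ r f) x) = ψ (el (pw s' f x'))

/-- `f` is a multiple of `X^n - 1`, which kills `x`. -/
def StPwZ : Prop := ∀ (Ω : Type) [Field Ω] (s : Ω ≃+* Ω) (n : ℕ) (x : Additive Ωˣ) (f : ℤ[X]),
  s^[n] (el x) = el x → (X ^ n - 1 : ℤ[X]) ∣ f → pw s f x = 0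

/-- Polynomials; `Φ = cyclotomic m ℤ`.
(a) `expand r Φ_m = Φ_{mr} Φ_m` (`cyclotomic_expand_eq_cyclotomic_mul`) and `Φ_m ∣ X^m - 1`.
(b) Let `r r' = 1 mod m`.  `Φ_m` divides `expand r' Φ_m` (roots: `ζ^{r'}` is primitive; or iterate
`expand_mul` over the prime factors of `r'`), `expand r' Φ_m = Φ_m q`; apply `expand r`:
`expand (r r') Φ_m = (expand r Φ_m) (expand r q)`, and `expand (r r') Φ_m - Φ_m` is divisible by `X^m - 1`
because `X^{r r'} - X` is.
(c) With `Ψ = (X^m - 1)/Φ` put `P = expand r (X Φ' Ψ)`.  Then `Φ X Φ' Ψ = X Φ' (X^m - 1)`, and from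
`m X^(m-1) = Φ' Ψ + Φ Ψ'` we get `X Φ' Ψ - m = m (X^m - 1) - X Φ Ψ' = Φ (m Ψ - X Ψ')`.
(d) `cyclotomic_expand_eq_cyclotomic`. -/
def StCyc : Prop := ∀ (m r : ℕ), 0 < m → r.Prime →
  (¬ r ∣ m →
    (∃ g : ℤ[X], cyclotomic (m * r) ℤ * (X ^ m - 1) = g * expand ℤ r (cyclotomic m ℤ)) ∧
    (∃ a b : ℤ[X], cyclotomic m ℤ = a * (X ^ m - 1) + b * expand ℤ r (cyclotomic m ℤ)) ∧
    ∃ P : ℤ[X], (X ^ (m * r) - 1 : ℤ[X]) ∣ expand ℤ r (cyclotomic m ℤ) * P ∧
      expand ℤ r (cyclotomic m ℤ) ∣ P - C (m : ℤ)) ∧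
  (r ∣ m → cyclotomic (m * r) ℤ = expand ℤ r (cyclotomic m ℤ))

/-- `s^[n] = id` because this holds on `L` and on the generators `t`. -/
def StPer : Prop := ∀ (L Ω : Type) [Field L] [Field Ω] [Algebra L Ω] (σ : L ≃+* L)
  (s : Ω ≃+* Ω) (n : ℕ) (ι : Type) (t : ι → Ω), Semi σ s → Free (L := L) s t →
  (∀ a, σ^[n] a = a) → ∀ a : Ω, s^[n] a = a

/-- Hilbert 90 with a resolvent from the subfield `F`.  The characters `τ^[i]` of `F`, `i < r`, are
distinct, so linearly independent (`linearIndependent_monoidHom`); the coefficient of `τ^[0]` in the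
sum is `1`, so it is not `0` for some `c`.  `x * τ S = S` by reindexing, with `∏_{j < r} τ^[j] x = 1` and
`τ^[r] c = c`. -/
def StH90 : Prop := ∀ (Ω : Type) [Field Ω] (τ : Ω ≃+* Ω) (r : ℕ) (F : Subfield Ω), 0 < r →
  (∀ a, τ^[r] a = a) → (∀ j, 0 < j → j < r → ∃ c ∈ F, τ^[j] c ≠ c) → ∀ x : Ω, x ≠ 0 →
  ∏ j ∈ Finset.range r, τ^[j] x = 1 → ∃ c ∈ F,
    ∑ i ∈ Finset.range r, (∏ j ∈ Finset.range i, τ^[j] x) * τ^[i] c ≠ 0 ∧
    x * τ (∑ i ∈ Finset.range r, (∏ j ∈ Finset.range i, τ^[j] x) * τ^[i] c) =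
      ∑ i ∈ Finset.range r, (∏ j ∈ Finset.range i, τ^[j] x) * τ^[i] c

/-! ### B. fields with a cyclic group of automorphisms -/

/-- Primitive element of the fixed field `C` of `σ^[r]`.  With `k` the fixed field of `σ`: `L/k` is
Galois with group generated by `σ`, of order `m r` (Artin), `C/k` has degree `r`
(`[L : C] = m`, the order of `σ^[r]`), it is separable, so `C = k(α)`.  If `σ^[a] α = σ^[b] α`,
`a < b < r`, then `σ^[b - a]` is the identity on `C`, so it is in the group generated by `σ^[r]`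
(Galois correspondence), contradiction. -/
def StPrim : Prop := ∀ (L : Type) [Field L] (σ : L ≃+* L) (m r : ℕ), Ord σ (m * r) →
  ∃ α : L, σ^[r] α = α ∧ ∀ a b, a < r → b < r → σ^[a] α = σ^[b] α → a = b

/-- Basis (uses `StPrim`): `e_j = α^j` and the Vandermonde determinant. -/
def StBs : Prop := ∀ (L : Type) [Field L] (σ : L ≃+* L) (m r : ℕ), Ord σ (m * r) →
  ∃ e : Fin r → L, (∀ j, σ^[r] (e j) = e j) ∧
    (Matrix.of fun c j : Fin r => σ^[(c : ℕ)] (e j)).det ≠ 0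

/-- The fixed field `L'` of `σ^[m]` with the restriction of `σ` (uses `StPrim`, with the roles of `m`, `r`
exchanged: for `0 < j < m` the element `α` of `L'` has `σ^[j] α ≠ α`). -/
def StFix : Prop := ∀ (L : Type) [Field L] (σ : L ≃+* L) (m r : ℕ), Ord σ (m * r) →
  ∃ (L' : Type) (_ : Field L') (_ : Algebra L' L) (σ' : L' ≃+* L'), Semi σ' σ ∧ Ord σ' m

/-- Invariant coordinates.  Solve the system `s^[c] Z = ∑_j σ^[c](e_j) z_j`, `c < r`, whose matrix is
invertible over `L`.  Applying `s` permutes the equations cyclically (`s^[r] Z = Z`, `σ^[r] e_j = e_j`),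
so `s z_j` is a solution as well and `s z_j = z_j`. -/
def StCo : Prop := ∀ (L Ω : Type) [Field L] [Field Ω] [Algebra L Ω] (σ : L ≃+* L)
  (s : Ω ≃+* Ω) (r : ℕ) (e : Fin r → L), Semi σ s → 0 < r → (∀ j, σ^[r] (e j) = e j) →
  (Matrix.of fun c j : Fin r => σ^[(c : ℕ)] (e j)).det ≠ 0 → ∀ Z : Ω, s^[r] Z = Z →
  ∃ z : Fin r → Ω, (∀ j, s (z j) = z j) ∧ Z = ∑ j, algebraMap L Ω (e j) * z j ∧
    ∀ E : IntermediateField L Ω, (∀ c, s^[c] Z ∈ E) → ∀ j, z j ∈ E

/-- The same for elements already written in the basis (same proof, `s z_j = z_j` is given). -/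
def StCo2 : Prop := ∀ (L Ω : Type) [Field L] [Field Ω] [Algebra L Ω] (σ : L ≃+* L)
  (s : Ω ≃+* Ω) (r : ℕ) (e : Fin r → L), Semi σ s →
  (Matrix.of fun c j : Fin r => σ^[(c : ℕ)] (e j)).det ≠ 0 → ∀ z : Fin r → Ω,
  (∀ j, s (z j) = z j) → ∀ E : IntermediateField L Ω,
  (∀ c, s^[c] (∑ j, algebraMap L Ω (e j) * z j) ∈ E) → ∀ j, z j ∈ E

/-- Counting: the transcendence degree of `Ω` over `L` is at least `card ι`, the range of `g`
contains a transcendence basis, so it has exactly `card κ` elements and all of `g` is one. -/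
def StCnt : Prop := ∀ (L Ω : Type) [Field L] [Field Ω] [Algebra L Ω] (ι κ : Type)
  [Fintype ι] [Fintype κ] (t : ι → Ω) (g : κ → Ω), Fintype.card ι = Fintype.card κ →
  AlgebraicIndependent L t → IntermediateField.adjoin L (Set.range g) = ⊤ →
  AlgebraicIndependent L g

/-- Enlarging the group (uses `StCnt`).  `Ω = FractionRing (MvPolynomial (Fin d × Fin r) L)` with `s`
acting on the coefficients; `S_i = ∑_j e_j T_ij`.  The elements `∑_j σ^[c](e_j) T_ij` (all `c`, `i`)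
generate `Ω` (invertible matrix), so they are algebraically independent (`StCnt`), in particular
the `S_i` are; `ψ` is the map `L(t') = Ω' → Ω` with `t'_i ↦ S_i`
(`AlgebraicIndependent.aevalEquivField`; `Ω'` is the fraction field of the polynomial ring).
`s^[r] ψ = ψ s'` on `L` and on `t'`, so everywhere. -/
def StNN : Prop := ∀ (L : Type) [Field L] (σ : L ≃+* L) (r : ℕ) (e : Fin r → L)
  (Ω' : Type) [Field Ω'] [Algebra L Ω'] (s' : Ω' ≃+* Ω') (d : ℕ) (t' : Fin d → Ω'), 0 < r →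
  (∀ j, σ^[r] (e j) = e j) → (Matrix.of fun c j : Fin r => σ^[(c : ℕ)] (e j)).det ≠ 0 →
  (∀ a, s' (algebraMap L Ω' a) = algebraMap L Ω' (σ^[r] a)) → Free (L := L) s' t' →
  ∃ (Ω : Type) (_ : Field Ω) (_ : Algebra L Ω) (s : Ω ≃+* Ω) (T : Fin d × Fin r → Ω)
    (ψ : Ω' →ₐ[L] Ω), Semi σ s ∧ Free (L := L) s T ∧ (∀ a, s^[r] (ψ a) = ψ (s' a)) ∧
    ∀ i, ψ (t' i) = ∑ j, algebraMap L Ω (e j) * T (i, j)

/-- From `σ^[r]` to `σ` (uses `StBs`, `StNN`, `StCo`, `StCo2`, `StPwN`).  `W` is the image of `x'`, and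
`Z_ij` are the coordinates of the images of `y'_i`.  Let `E` be the field generated by the
conjugates of `W` and by `Z`: it is stable under `s`, contains the images of `x'`, `s'^[j] x'`, `y'`,
so it contains `ψ(Ω')` and all `s^[c] (ψ t'_i)`, so all `T` by `StCo2`. -/
def StUp : Prop := ∀ (L : Type) [Field L] (σ σr : L ≃+* L) (m r m' : ℕ), Ord σ (m * r) →
  (∀ a, σr a = σ^[r] a) → RatI L σr m m' →
  ∃ (Ω : Type) (_ : Field Ω) (_ : Algebra L Ω) (s : Ω ≃+* Ω)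
    (T : Fin (Nat.totient m + m') × Fin r → Ω) (W : Additive Ωˣ) (Z : Fin m' × Fin r → Ω),
    Semi σ s ∧ Free (L := L) s T ∧ pw s (expand ℤ r (cyclotomic m ℤ)) W = 0 ∧
    (∀ p, s (Z p) = Z p) ∧ IntermediateField.adjoin L (Cj s (el W) ∪ Set.range Z) = ⊤

/-- The order of `σ^[r]` is `m` (to apply `AllRat m m'` to it). -/
def StOrd : Prop := ∀ (L : Type) [Field L] (σ : L ≃+* L) (m r : ℕ), Ord σ (m * r) →
  ∃ σr : L ≃+* L, (∀ a, σr a = σ^[r] a) ∧ Ord σr m

/-- Restriction of scalars (uses `StUp`, `StOrd`, `StCyc`): `x = W`, `y = Z`, reindexed;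
`φ(m r) = r φ(m)`. -/
def StR : Prop := ∀ m m' r : ℕ, 0 < m → AllRat m m' → r.Prime → r ∣ m →
  AllRat (m * r) (r * m')

/-! ### C. the inductive step -/

/-- The section (uses `StPw`, `StPwE`, `StPwZ`, `StCyc`, `StH90`).  `w = (X^m - 1) · W`,
`N = ∑_{i<r} X^(mi)`, `N · w = 0`.  `StH90` for `τ = s^[m]`, `x = el w`, `F` the image of `L` gives `S` with
`(X^m - 1) · S = -w`, built from conjugates of `w` and elements of `L`.  For
`z = (∑_{i<r} i X^(mi)) · w` we have `(X^m - 1) · z = r X^(mr) · w - X^m N · w = r w`.  For `y' = P · (-S)`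
(`StCyc` (c)): `(X^m - 1) · y' = P · w = m w` since `expand r Φ · w = 0`, and `expand r Φ · y' = 0`
(`StPwZ`).  With `a r + b m = 1` put `y = a z + b y'`. -/
def StSec : Prop := ∀ (L Ω : Type) [Field L] [Field Ω] [Algebra L Ω] (σ : L ≃+* L)
  (s : Ω ≃+* Ω) (m r : ℕ), Semi σ s → Ord σ (m * r) → r.Prime → ¬ r ∣ m →
  (∀ a : Ω, s^[m * r] a = a) → ∀ W : Additive Ωˣ,
  pw s (expand ℤ r (cyclotomic m ℤ)) W = 0 → ∃ y : Additive Ωˣ,
    pw s (X ^ m - 1) y = pw s (X ^ m - 1) W ∧ pw s (expand ℤ r (cyclotomic m ℤ)) y = 0 ∧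
    ∀ E : IntermediateField L Ω, (∀ j, s^[j] (el (pw s (X ^ m - 1) W)) ∈ E) →
      ∀ j, s^[j] (el y) ∈ E

/-- The two relations (uses `StPw`, `StCyc`): `t₀ = W - y` is killed by `X^m - 1` and by
`expand r Φ_m`, so by `Φ_m` (`StCyc` (b)); `Φ_{mr} (X^m - 1) = g expand r Φ_m`. -/
def StRel : Prop := ∀ (Ω : Type) [Field Ω] (s : Ω ≃+* Ω) (m r : ℕ), 0 < m → r.Prime →
  ¬ r ∣ m → ∀ W y : Additive Ωˣ, pw s (expand ℤ r (cyclotomic m ℤ)) W = 0 →
  pw s (expand ℤ r (cyclotomic m ℤ)) y = 0 → pw s (X ^ m - 1) y = pw s (X ^ m - 1) W →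
  pw s (cyclotomic m ℤ) (W - y) = 0 ∧ pw s (cyclotomic (m * r) ℤ) (pw s (X ^ m - 1) W) = 0

/-- Equivariant embedding (uses `StPw`, `StPwM`, `StCnt`).  The `φ(m) + m'` elements `s'^[j] x'`
(`j < φ(m)`), `y'_i` generate `Ω'` over `L'` (`StPwM`, `Φ_m` is monic), so they are algebraically
independent (`StCnt`) and there is an embedding `ι : Ω' → Ω` extending `L' → L → Ω` with
`s'^[j] x' ↦ s^[j] t₀`, `y'_i ↦ z₀_i` (the images are algebraically independent over `L`, so over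
`L'`).  `ι s' = s ι` on `L'`, on `y'_i`, on `s'^[j] x'` for `j + 1 < φ(m)`, and for `j + 1 = φ(m)` because
`X^φ · x' = - ∑_{l < φ} Φ_l X^l · x'` and the same for `t₀`; so everywhere.  `u_i = ι(t_i)`.  If all `u_i`
are in `E` then `ι(Ω') ⊆ E`, which contains `s^[j] t₀ = ι(s'^[j] x')` and `z₀_i`. -/
def StEmb : Prop := ∀ (L' L : Type) [Field L'] [Field L] [Algebra L' L] (σ' : L' ≃+* L')
  (σ : L ≃+* L) (m m' : ℕ), Semi σ' σ → 0 < m → RatI L' σ' m m' →
  ∀ (Ω : Type) [Field Ω] [Algebra L Ω] (s : Ω ≃+* Ω) (t₀ : Additive Ωˣ) (z₀ : Fin m' → Ω),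
  Semi σ s → pw s (cyclotomic m ℤ) t₀ = 0 → (∀ i, s (z₀ i) = z₀ i) →
  AlgebraicIndependent L (Sum.elim (fun j : Fin (Nat.totient m) => s^[(j : ℕ)] (el t₀)) z₀) →
  ∃ u : Fin (Nat.totient m + m') → Ω, (∀ i, s (u i) = u i) ∧
    ∀ E : IntermediateField L Ω, (∀ i, u i ∈ E) → (∀ j, s^[j] (el t₀) ∈ E) ∧ ∀ i, z₀ i ∈ E

/-- The inductive step (uses `StUp`, `StOrd`, `StFix`, `StPer`, `StSec`, `StRel`, `StPw`, `StPwE`,
`StPwM`, `StCnt`, `StEmb`).  Take `Ω`, `s`, `T`, `W`, `Z` from `StUp`, `y` from `StSec`, `w = (X^m - 1) · W`,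
`t₀ = W - y`.  The conjugates of `w` and `t₀` and the `Z_ij` generate `Ω` (as `W = t₀ + y` and the
conjugates of `y` are in the field of those of `w`); by `StPwM` the `φ(mr)` first conjugates of `w`
and the `φ(m)` first ones of `t₀` suffice, in total
`φ(m)(r - 1) + φ(m) + m' r = r (φ(m) + m')` elements, so they are algebraically independent.
`StEmb` for `L'` from `StFix`, `t₀` and `z₀_i = Z_{i0}` gives `u`.  The point is `x = w`,
`y = (u, Z_ij for j > 0)`, which has `φ(m) + m' + m'(r - 1) = φ(m) + r m'` coordinates. -/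
def StInd : Prop := ∀ m m' r : ℕ, 0 < m → AllRat m m' → r.Prime → ¬ r ∣ m →
  AllRat (m * r) (Nat.totient m + r * m')

/-! ### D. one and two primes (Klyachko) -/

/-- `n = 1`: `Ω = L(t)`, `s` acts on the coefficients (it is the identity as `Ord σ 1`),
`x = t`, `Φ_1 = X - 1`. -/
def StOne : Prop := AllRat 1 0

/-- `n = p` prime (uses `StBs`, `StPw`): `Ω = L(t_1, ..., t_{p-1})`, `s` acts on the coefficients,
`z = e_0 + ∑_{j ≥ 1} e_j t_j` with the basis `e` of `StBs` (`m = 1`, `r = p`), `x = (X - 1) · z`;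
`Φ_p (X - 1) = X^p - 1`.  The field of the conjugates of `x` contains the vector
`(s^[c] z / z)_c = (∑_j σ^[c](e_j) (t_j / z))_c` with `t_0 = 1`, so all `t_j / z` and their quotients. -/
def StPri : Prop := ∀ p : ℕ, p.Prime → AllRat p 0

/-- The coin problem: `p q + 1 = p x + q y` with `x, y ≥ 1` (take `x` with `p x = 1 mod q`,
`1 ≤ x ≤ q`). -/
def StCoin : Prop := ∀ p q : ℕ, p.Prime → q.Prime → p ≠ q → ∃ x₀ y₀ : ℕ, 0 < x₀ ∧ 0 < y₀ ∧
  x₀ ≤ q ∧ y₀ ≤ p ∧ p * x₀ + q * y₀ = p * q + 1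

/-- A `0/1` matrix: `Z a b` iff `a = b y₀ + i mod p` for some `i < y₀` (fill the columns cyclically; the
numbers `0, ..., q y₀ - 1 = p (q - x₀)` modulo `p`: every row gets `q - x₀` of them and the row `0` one
more). -/
def StMat : Prop := ∀ p q x₀ y₀ : ℕ, 0 < p → 0 < q → 0 < x₀ → 0 < y₀ → x₀ ≤ q → y₀ ≤ p →
  p * x₀ + q * y₀ = p * q + 1 → ∃ (Z : Fin p → Fin q → Bool) (a₀ : Fin p),
    (∀ b, (Finset.univ.filter fun a => Z a b = true).card = y₀) ∧
    ∀ a, (Finset.univ.filter fun b => Z a b = false).card + (if a = a₀ then 1 else 0) = x₀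

/-- Uniqueness of the solution for generic `z` (uses `StMat`).  If there were two independent
solutions, some nonzero one would have `v (inl (a₀, x₀ - 1)) = 0`.  Divide the equations with
`Z a b = true` by `z_ab`; the square matrix of the system without the unknown `(a₀, x₀ - 1)` is the
image of a matrix `D(Y)` with polynomial entries under `Y_ab ↦ z_ab^(±1)` (algebraically
independent as well), and `det D(0) ≠ 0`: at `Y = 0` the equations are `U_a(β_b) = 0` for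
`Z a b = false` and `V_b(α_a) = 0` for `Z a b = true`, and a polynomial of degree `< d` with `d` distinct
roots is `0`.  So `det D ≠ 0` and the determinant of the system is not `0`. -/
def StGen : Prop := ∀ (L Ω : Type) [Field L] [Field Ω] [Algebra L Ω] (p q x₀ y₀ : ℕ)
  (α : Fin p → L) (β : Fin q → L) (z : Fin p → Fin q → Ω), 0 < p → 0 < q → 0 < x₀ → 0 < y₀ →
  x₀ ≤ q → y₀ ≤ p → p * x₀ + q * y₀ = p * q + 1 → Function.Injective α →
  Function.Injective β → AlgebraicIndependent L (fun c : Fin p × Fin q => z c.1 c.2) →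
  ∀ v v' : (Fin p × Fin x₀) ⊕ (Fin q × Fin y₀) → Ω,
  Sol (fun a => algebraMap L Ω (α a)) (fun b => algebraMap L Ω (β b)) z v →
  Sol (fun a => algebraMap L Ω (α a)) (fun b => algebraMap L Ω (β b)) z v' → v ≠ 0 →
  ∃ c : Ω, v' = c • v

/-- Existence of a solution with coordinates in a subfield: more unknowns than equations.  Both
parts of a nonzero solution are nonzero (a polynomial of degree `< x₀ ≤ q` with `q` distinct roots is
`0`). -/
def StEx : Prop := ∀ (Ω : Type) [Field Ω] (E : Subfield Ω) (p q x₀ y₀ : ℕ)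
  (α : Fin p → Ω) (β : Fin q → Ω) (z : Fin p → Fin q → Ω), 0 < p → 0 < q → x₀ ≤ q → y₀ ≤ p →
  p * x₀ + q * y₀ = p * q + 1 → Function.Injective α → Function.Injective β →
  (∀ a, α a ∈ E) → (∀ b, β b ∈ E) → (∀ a b, z a b ∈ E) → (∀ a b, z a b ≠ 0) →
  ∃ v : (Fin p × Fin x₀) ⊕ (Fin q × Fin y₀) → Ω, (∀ i, v i ∈ E) ∧ Sol α β z v ∧
    (∃ c, v (Sum.inl c) ≠ 0) ∧ ∃ c, v (Sum.inr c) ≠ 0

/-- The regular field: `Ω = FractionRing (MvPolynomial (Fin n) L)`, `s` acts as `σ` on the coefficients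
and permutes the variables cyclically. -/
def StReg : Prop := ∀ (L : Type) [Field L] (σ : L ≃+* L) (n : ℕ), Ord σ n →
  ∃ (Ω : Type) (_ : Field Ω) (_ : Algebra L Ω) (s : Ω ≃+* Ω) (z : Additive Ωˣ), Semi σ s ∧
    (∀ a : Ω, s^[n] a = a) ∧ AlgebraicIndependent L (fun j : Fin n => s^[(j : ℕ)] (el z)) ∧
    IntermediateField.adjoin L (Cj s (el z)) = ⊤

/-- Hilbert 90 twice (uses `StPw`, `StPwE`, `StPwZ`, `StH90`).  `N_q = ∑_{j<q} X^(pj)`,
`N_p = ∑_{j<p} X^(qj)`; `Φ_{pq}` divides both (`(X^{pq} - 1)/(X^p - 1)`), so `N_q · x = N_p · x = 0`.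
`StH90` for `s^[p]`, constants from `L`: `x = (X^p - 1) · x₁`.  `f = N_p · x₁` is killed by `X^p - 1`
(`N_p · x = 0`) and by `X^q - 1`.  `p f = N_p · f`, `q f = N_q · f = N_p · (N_q · x₁)`; with `a p + b q = 1`:
`f = N_p · g`, `g = a f + b N_q · x₁`, `(X^p - 1) · g = 0`.  `x₂ = x₁ - g`: `(X^p - 1) · x₂ = x`,
`N_p · x₂ = 0`, and `StH90` for `s^[q]` gives `x₂ = (X^q - 1) · z'`.  Everything is built from
conjugates of `x` and elements of `L`. -/
def StHH : Prop := ∀ (L Ω : Type) [Field L] [Field Ω] [Algebra L Ω] (σ : L ≃+* L)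
  (s : Ω ≃+* Ω) (p q : ℕ), Semi σ s → p.Prime → q.Prime → p ≠ q → Ord σ (p * q) →
  (∀ a : Ω, s^[p * q] a = a) → ∀ x : Additive Ωˣ, pw s (cyclotomic (p * q) ℤ) x = 0 →
  ∃ z' : Additive Ωˣ, pw s ((X ^ p - 1) * (X ^ q - 1)) z' = x ∧
    ∀ E : IntermediateField L Ω, (∀ j, s^[j] (el x) ∈ E) → ∀ j, s^[j] (el z') ∈ E

/-- The kernel (uses `StPw`, `StPwZ`, `StH90`, `StPrim`).  `ρ' = (X^q - 1) · ρ` is fixed by `s^[p]` and
killed by `N_p = ∑_{j<p} X^(qj)` (as `s^[pq] = id`); `StH90` for `τ = s^[q]` (order `p`) with `F` the image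
of the fixed field of `σ^[p]` (it contains an element `α` with `σ^[qj] α ≠ α` for `0 < j < p`, by
`StPrim`; `qj` is not a multiple of `p`) gives `S` with `(X^q - 1) · S = -ρ'`, fixed by `s^[p]` because
`x = el ρ'` and `c` are.  `h = -S`, `h' = ρ - h`. -/
def StKer : Prop := ∀ (L Ω : Type) [Field L] [Field Ω] [Algebra L Ω] (σ : L ≃+* L)
  (s : Ω ≃+* Ω) (p q : ℕ), Semi σ s → p.Prime → q.Prime → p ≠ q → Ord σ (p * q) →
  (∀ a : Ω, s^[p * q] a = a) → ∀ ρ : Additive Ωˣ, pw s ((X ^ p - 1) * (X ^ q - 1)) ρ = 0 →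
  ∃ h h' : Additive Ωˣ, ρ = h + h' ∧ s^[p] (el h) = el h ∧ s^[q] (el h') = el h'

/-- The normal form (uses `StPw`, `StGen`, `StEx`, `StHH`, `StKer`).  `E` is the field generated by the
conjugates of `x = θ · z`, `θ = (X^p - 1)(X^q - 1)`; `z'` from `StHH` (`Φ_{pq} θ` is a multiple of
`X^{pq} - 1`), `z = z' + h + h'` from `StKer`.  For `(a, b)` let `j` be a number with `j = a mod p`,
`j = b mod q`; `z_ab = s^[j] z = z'_ab h_a h'_b`, `α_a = σ^[a] α`, `β_b = σ^[b] β`.  `StEx` gives a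
nonzero solution `v'` for `z'` with coordinates in `E`; `(v'_ai h_a, v'_bj / h'_b)` is a solution for `z`,
so by `StGen` all solutions for `z'` are multiples of `v'`.  The vector with entries `s(v'_{a-1,i})`,
`s(v'_{b-1,j})` (indices modulo `p`, `q`) is again a solution for `z'`, so
`s(v'_{a,i}) = κ v'_{a+1,i}`, `s(v'_{b,j}) = κ v'_{b+1,j}`.  Choose `i₀`, `j₀` with `v'_{a,i₀} ≠ 0`,
`v'_{b,j₀} ≠ 0` (for all `a`, `b`).  `u_i = v'_{0,i}/v'_{0,i₀}` is fixed by `s^[p]`, and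
`w_j = v'_{0,j}/v'_{0,j₀}` by `s^[q]`.  `∑ v'_{0,j} α^j ≠ 0`: otherwise (apply `s^[j]`) all
`∑_j v'_{b,j} α_a^j` are `0`, and `v'_{b,j} = 0` (`p` distinct roots, degree `< y₀ ≤ p`).  `z'_00 = (v'_{0,i₀}/v'_{0,j₀}) (∑ u_i β^i)/(∑ w_j α^j)`, and `θ` kills the
first factor: `(X^p - 1) · v'_{0,i₀} = (∑_{l<p} X^l) · κ` and `(X^q - 1) · v'_{0,j₀} = (∑_{l<q} X^l) · κ`. -/
def StNF : Prop := ∀ (L Ω : Type) [Field L] [Field Ω] [Algebra L Ω] (σ : L ≃+* L)
  (s : Ω ≃+* Ω) (p q x₀ y₀ : ℕ) (α β : L) (z : Additive Ωˣ), Semi σ s → p.Prime → q.Prime →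
  p ≠ q → Ord σ (p * q) → (∀ a : Ω, s^[p * q] a = a) → 0 < x₀ → 0 < y₀ → x₀ ≤ q → y₀ ≤ p →
  p * x₀ + q * y₀ = p * q + 1 →
  AlgebraicIndependent L (fun j : Fin (p * q) => s^[(j : ℕ)] (el z)) →
  σ^[p] α = α → (∀ a b, a < p → b < p → σ^[a] α = σ^[b] α → a = b) →
  σ^[q] β = β → (∀ a b, a < q → b < q → σ^[a] β = σ^[b] β → a = b) →
  ∃ (u : Fin x₀ → Ω) (w : Fin y₀ → Ω) (i₀ : Fin x₀) (j₀ : Fin y₀) (U V : Additive Ωˣ),
    u i₀ = 1 ∧ w j₀ = 1 ∧ (∀ i, s^[p] (u i) = u i) ∧ (∀ j, s^[q] (w j) = w j) ∧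
    (∀ E : IntermediateField L Ω,
      (∀ j, s^[j] (el (pw s ((X ^ p - 1) * (X ^ q - 1)) z)) ∈ E) →
      (∀ i c, s^[c] (u i) ∈ E) ∧ ∀ j c, s^[c] (w j) ∈ E) ∧
    el U = ∑ i, u i * algebraMap L Ω β ^ (i : ℕ) ∧
    el V = ∑ j, w j * algebraMap L Ω α ^ (j : ℕ) ∧
    pw s ((X ^ p - 1) * (X ^ q - 1)) z = pw s ((X ^ p - 1) * (X ^ q - 1)) (U - V)

/-- Restriction to the subfield generated by the conjugates of `x`: it is stable under `s` and its
inverse (`s^[n] = id`). -/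
def StRes : Prop := ∀ (L Ω : Type) [Field L] [Field Ω] [Algebra L Ω] (σ : L ≃+* L)
  (s : Ω ≃+* Ω) (n : ℕ) (t : Fin (Nat.totient n) → Ω) (x : Additive Ωˣ), Semi σ s → 0 < n →
  (∀ a : Ω, s^[n] a = a) → (∀ i, s (t i) = t i) → AlgebraicIndependent L t →
  IntermediateField.adjoin L (Set.range t) = IntermediateField.adjoin L (Cj s (el x)) →
  pw s (cyclotomic n ℤ) x = 0 → RatI L σ n 0

/-- Counting for two primes (uses `StPw`, `StCnt`).  Any `(p-1)(q-1)` elements `t` such that the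
field generated by them contains the conjugates of `x = (X^p - 1)(X^q - 1) · z` are
algebraically independent: together with `s^[q a] z` (`a < p`) and `s^[p b] z` (`0 < b < q`), in total `p q`
elements, they generate `Ω`, because
`s^[j] x = (s^[j+p+q] z) (s^[j] z) / ((s^[j+p] z) (s^[j+q] z))` and, writing `j = q a + p b`
modulo `p q`, all `s^[j] z` are obtained from those with `a = 0` or `b = 0`. -/
def StCt2 : Prop := ∀ (L Ω : Type) [Field L] [Field Ω] [Algebra L Ω] (σ : L ≃+* L)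
  (s : Ω ≃+* Ω) (p q : ℕ) (z : Additive Ωˣ), Semi σ s → p.Prime → q.Prime → p ≠ q →
  (∀ a : Ω, s^[p * q] a = a) →
  AlgebraicIndependent L (fun j : Fin (p * q) => s^[(j : ℕ)] (el z)) →
  IntermediateField.adjoin L (Cj s (el z)) = ⊤ → ∀ t : Fin ((p - 1) * (q - 1)) → Ω,
  (∀ j, s^[j] (el (pw s ((X ^ p - 1) * (X ^ q - 1)) z)) ∈
    IntermediateField.adjoin L (Set.range t)) → AlgebraicIndependent L t

/-- Klyachko (uses `StReg`, `StCoin`, `StPrim`, `StNF`, `StBs`, `StCo`, `StCt2`, `StRes`, `StPw`,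
`StPwE`, `StPwZ`).  `α` from `StPrim` with `r = p`, `β` with `r = q`.  The elements `t` are the invariant
coordinates (`StCo`) of `u_i`, `i ≠ i₀`, in a basis of the fixed field of `σ^[p]`, and of `w_j`, `j ≠ j₀`,
in one of the fixed field of `σ^[q]`: in total `p (x₀ - 1) + q (y₀ - 1) = (p-1)(q-1) = φ(pq)`.  They are
in the field `E` of the conjugates of `x`, and `U`, `V`, their conjugates, and those of `x`, are in
the field of `t`.  `Φ_{pq} · x = 0` since `X^{pq} - 1` divides `Φ_{pq} (X^p - 1)(X^q - 1)`. -/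
def StKly : Prop := ∀ p q : ℕ, p.Prime → q.Prime → p ≠ q → AllRat (p * q) 0

/-! ### E. all degrees -/

/-- Products of distinct primes (uses `StOne`, `StPri`, `StKly`, `StInd`): induction on the list. -/
def StSqf : Prop := ∀ l : List ℕ, (∀ p ∈ l, p.Prime) → l.Nodup → AllRat l.prod (extra l)

/-- All degrees (uses `StSqf`, `StR`): `n = rad(n) c` and every prime factor of `c` divides `rad(n)`;
multiply `rad(n)` by the prime factors of `c` one by one. -/
def StAll : Prop := ∀ n : ℕ, 0 < n → AllRat n (extraDim n)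

/-! ### F. back to the torus -/

/-- The order of a generator. -/
def StGor : Prop := ∀ (k L : Type) [Field k] [Field L] [Algebra k L] [FiniteDimensional k L]
  [IsGalois k L] (g : L ≃ₐ[k] L), (∀ h : L ≃ₐ[k] L, h ∈ Subgroup.zpowers g) →
  Ord (g : L ≃+* L) (Module.finrank k L)

/-- `L ⊗ k(t) = Ω`.  The map is `a ⊗ f ↦ a f(t)` (`t` is algebraically independent over `k`).  Its image
is a subring which is finite dimensional over the image `k(t)` of `RF k N`, so a field (a domain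
algebraic over a field); it contains `L` and `t`, so it is `Ω`.  Injectivity: a basis `b` of `L/k` is
linearly independent over the field `k(t)`, on which `s` is trivial: apply `s^[j]`, `j < n`, to
`∑ b_i f_i = 0`, the matrix `(σ^[j] b_i)` is invertible (Dedekind).  The fixed elements of `s` are the
`1 ⊗ f`: write `z = ∑ b_i f_i` with `b_0 = 1`, apply the same matrix to `s^[j] z = z`. -/
def StTen : Prop := ∀ (k L : Type) [Field k] [Field L] [Algebra k L] [FiniteDimensional k L]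
  [IsGalois k L] (g : L ≃ₐ[k] L), (∀ h : L ≃ₐ[k] L, h ∈ Subgroup.zpowers g) →
  ∀ (Ω : Type) [Field Ω] [Algebra L Ω] (s : Ω ≃+* Ω) (N : ℕ) (t : Fin N → Ω),
  Semi (g : L ≃+* L) s → Free (L := L) s t → ∃ Θ : L ⊗[k] RF k N ≃+* Ω,
    (∀ a : L, Θ (a ⊗ₜ 1) = algebraMap L Ω a) ∧
    (∀ x, Θ (bc (g : L →ₐ[k] L) x) = s (Θ x)) ∧
    ∀ z : Ω, s z = z → ∃ f : RF k N, Θ (1 ⊗ₜ f) = z

/-- Norm relations (uses `StPw`).  `Gal(L/M)` is a nontrivial subgroup of the cyclic group, of order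
`d > 1`, generated by `g^(n/d)`; the product is `el ((∑_{j<d} X^(j n/d)) · x)`, and `Φ_n` divides
`(X^n - 1)/(X^(n/d) - 1)`. -/
def StNrm : Prop := ∀ (k L : Type) [Field k] [Field L] [Algebra k L] [FiniteDimensional k L]
  [IsGalois k L] (g : L ≃ₐ[k] L), (∀ h : L ≃ₐ[k] L, h ∈ Subgroup.zpowers g) →
  ∀ (Ω : Type) [Field Ω] (s : Ω ≃+* Ω) (K : Type) [Field K] [Algebra k K]
  (Θ : L ⊗[k] K ≃+* Ω), (∀ x, Θ (bc (g : L →ₐ[k] L) x) = s (Θ x)) → ∀ x : Additive Ωˣ,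
  pw s (cyclotomic (Module.finrank k L) ℤ) x = 0 → IsPoint (k := k) (Θ.symm (el x))

/-- Field of definition.  Let `x` be in the image of `L ⊗ K₀` and `y_i` in `K₀`.  The image of
`L ⊗ K₀` is a field `E₀` (a domain which is finite dimensional over the field `K₀`) stable under `s`; it
contains `L`, the conjugates of `x` and `y`, so it is everything.  So `L ⊗ K₀ → L ⊗ K` is surjective and
`K₀ = K` (compare coordinates in a basis of `L/k` containing `1`). -/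
def StDef : Prop := ∀ (k L : Type) [Field k] [Field L] [Algebra k L] [FiniteDimensional k L]
  [IsGalois k L] (g : L ≃ₐ[k] L) (Ω : Type) [Field Ω] [Algebra L Ω] (s : Ω ≃+* Ω) (K : Type)
  [Field K] [Algebra k K] (Θ : L ⊗[k] K ≃+* Ω), (∀ a : L, Θ (a ⊗ₜ 1) = algebraMap L Ω a) →
  (∀ x, Θ (bc (g : L →ₐ[k] L) x) = s (Θ x)) → ∀ (m : ℕ) (x : Ω) (y : Fin m → K),
  IntermediateField.adjoin L (Cj s x ∪ Set.range fun i => Θ (1 ⊗ₜ y i)) = ⊤ →
  ∀ K₀ : IntermediateField k K,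
    Θ.symm x ∈ (Algebra.TensorProduct.map (AlgHom.id k L) K₀.val).range →
    (∀ i, y i ∈ K₀) → K₀ = ⊤

/-- The final conversion (uses `StGor`, `StTen`, `StNrm`, `StDef`). -/
def StFin : Prop := ∀ (k L : Type) [Field k] [Field L] [Algebra k L] [FiniteDimensional k L]
  [IsGalois k L] [IsCyclic (L ≃ₐ[k] L)] (m : ℕ), AllRat (Module.finrank k L) m →
  RationalTimes k L m

/-- THE THEOREM (uses `StAll`, `StFin`). -/
def StThm : Prop := ∀ (k L : Type) [Field k] [Field L] [Algebra k L] [FiniteDimensional k L]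
  [IsGalois k L] [IsCyclic (L ≃ₐ[k] L)],
  RationalTimes k L (extraDim (Module.finrank k L))

end Pool.Agent.TorR
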