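import Mathlib
import Pool.Agent.Work.MP_88348f_ag.TA.Stmts

set_option autoImplicit false

/-!
# MP_88348f_ag, block TA, item Emb: equivariant embedding
-/

open Polynomial
open scoped TensorProduct

namespace Pool.Agent.TorR

namespace ITEmb

/-- a field generated by algebraically independent elements is embedded by their values -/
theorem exists_hom {F A B : Type} [Field F] [Field A] [Field B] [Algebra F A] [Algebra F B]
    {κ : Type} (g : κ → A) (f : κ → B) (hg : AlgebraicIndependent F g)
    (hf : AlgebraicIndependent F f)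
    (htop : IntermediateField.adjoin F (Set.range g) = ⊤) :
    ∃ i : A →ₐ[F] B, ∀ k, i (g k) = f k := by
  let e1 : FractionRing (MvPolynomial κ F) ≃ₐ[F] A :=
    hg.aevalEquivField.trans ((IntermediateField.equivOfEq htop).trans IntermediateField.topEquiv)
  have h1 : ∀ k, e1 (algebraMap (MvPolynomial κ F) _ (MvPolynomial.X k)) = g k := by
    intro k
    show ((hg.aevalEquivField (algebraMap (MvPolynomial κ F) _ (MvPolynomial.X k)) :
      IntermediateField.adjoin F (Set.range g)) : A) = g k
    rw [hg.aevalEquivField_algebraMap_apply_coe, MvPolynomial.aeval_X]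
  let i1 : FractionRing (MvPolynomial κ F) →ₐ[F] B :=
    IsFractionRing.liftAlgHom (K := FractionRing (MvPolynomial κ F))
      (algebraicIndependent_iff_injective_aeval.2 hf)
  have h2 : ∀ k, i1 (algebraMap (MvPolynomial κ F) _ (MvPolynomial.X k)) = f k := by
    intro k
    show IsFractionRing.lift (algebraicIndependent_iff_injective_aeval.2 hf)
      (algebraMap (MvPolynomial κ F) _ (MvPolynomial.X k)) = f k
    rw [IsFractionRing.lift_algebraMap]
    exact MvPolynomial.aeval_X _ _
  refine ⟨i1.comp e1.symm.toAlgHom, fun k => ?_⟩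
  show i1 (e1.symm (g k)) = f k
  rw [← h1 k, AlgEquiv.symm_apply_apply, h2]

theorem el_sum {Ω : Type} [Field Ω] {ι : Type} (S : Finset ι) (f : ι → Additive Ωˣ) :
    el (∑ i ∈ S, f i) = ∏ i ∈ S, el (f i) := by
  classical
  induction S using Finset.induction_on with
  | empty => rfl
  | insert a S ha ih => rw [Finset.sum_insert ha, Finset.prod_insert ha, ← ih]; rfl

theorem el_zsmul {Ω : Type} [Field Ω] (a : ℤ) (x : Additive Ωˣ) : el (a • x) = el x ^ a := by
  show ((Additive.toMul (a • x) : Ωˣ) : Ω) = _
  rw [toMul_zsmul, Units.val_zpow_eq_zpow_val]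
  rfl

theorem su_pow {Ω : Type} [Field Ω] (s : Ω ≃+* Ω) (x : Additive Ωˣ) (j : ℕ) :
    el ((su s ^ j) x) = s^[j] (el x) := by
  induction j generalizing x with
  | zero => rfl
  | succ j ih =>
    rw [pow_succ, Module.End.mul_apply, ih, Function.iterate_succ_apply]
    rfl

/-- the relation given by a monic polynomial -/
theorem top_conj {Ω : Type} [Field Ω] (s : Ω ≃+* Ω) (x : Additive Ωˣ) (f : ℤ[X]) (hf : f.Monic)
    (h : pw s f x = 0) : s^[f.natDegree] (el x) =
      (∏ l ∈ Finset.range f.natDegree, (s^[l] (el x)) ^ f.coeff l)⁻¹ := by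
  have h1 : pw s f x = ∑ i ∈ Finset.range (f.natDegree + 1), f.coeff i • ((su s ^ i) x) := by
    unfold pw
    rw [Polynomial.aeval_eq_sum_range, LinearMap.sum_apply]
    rfl
  have h2 : el (pw s f x) = ∏ i ∈ Finset.range (f.natDegree + 1),
      (s^[i] (el x)) ^ f.coeff i := by
    rw [h1, el_sum]
    refine Finset.prod_congr rfl fun i _ => ?_
    rw [el_zsmul, su_pow]
  rw [h, Finset.prod_range_succ, hf.coeff_natDegree, zpow_one] at h2
  have h3 : el (0 : Additive Ωˣ) = 1 := rfl
  rw [h3] at h2
  exact (inv_eq_of_mul_eq_one_right h2.symm).symm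

end ITEmb

open ITEmb in
/-- Item Emb. -/
theorem pr_Emb (h2 : StPwM) (h3 : StCnt) : StEmb := by
  intro L' L _ _ _ σ' σ m m' hσ hm hRat Ω _ _ s t₀ z₀ hs ht₀ hz₀ hind
  obtain ⟨Ω', iF, iA, s', t, x, y, hs', hfree, hx, hy, hgen⟩ := hRat
  let _ : Algebra L' Ω := ((algebraMap L Ω).comp (algebraMap L' L)).toAlgebra
  have : IsScalarTower L' L Ω := IsScalarTower.of_algebraMap_eq fun _ => rfl
  have hΦ : (cyclotomic m ℤ).Monic := cyclotomic.monic m ℤ
  have hdeg : (cyclotomic m ℤ).natDegree = Nat.totient m := natDegree_cyclotomic m ℤ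
  set g : Fin (Nat.totient m) ⊕ Fin m' → Ω' :=
    Sum.elim (fun j : Fin (Nat.totient m) => s'^[(j : ℕ)] (el x)) y with hg
  set f : Fin (Nat.totient m) ⊕ Fin m' → Ω :=
    Sum.elim (fun j : Fin (Nat.totient m) => s^[(j : ℕ)] (el t₀)) z₀ with hf
  have hmem : ∀ j, s'^[j] (el x) ∈ IntermediateField.adjoin L' (Set.range g) := by
    apply h2 L' Ω' s' _ x (cyclotomic m ℤ) hΦ hx
    intro j hj
    rw [hdeg] at hj
    exact IntermediateField.subset_adjoin _ _ ⟨Sum.inl ⟨j, hj⟩, rfl⟩
  have htop : IntermediateField.adjoin L' (Set.range g) = ⊤ := by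
    rw [eq_top_iff, ← hgen, IntermediateField.adjoin_le_iff]
    rintro a (⟨j, rfl⟩ | ⟨i, rfl⟩)
    · exact hmem j
    · exact IntermediateField.subset_adjoin _ _ ⟨Sum.inr i, rfl⟩
  have hgi : AlgebraicIndependent L' g :=
    h3 L' Ω' (Fin (Nat.totient m + m')) (Fin (Nat.totient m) ⊕ Fin m') t g (by simp) hfree.ind htop
  have hfi : AlgebraicIndependent L' f :=
    hind.restrictScalars (algebraMap L' L).injective
  obtain ⟨i, hi⟩ := exists_hom g f hgi hfi htop
  have hiL : ∀ a : L', i (algebraMap L' Ω' a) = algebraMap L Ω (algebraMap L' L a) := by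
    intro a
    rw [i.commutes]
    rfl
  -- equivariance
  have heq : ∀ a : Ω', i (s' a) = s (i a) := by
    intro a
    have ha : a ∈ IntermediateField.adjoin L' (Set.range g) := by
      rw [htop]
      trivial
    induction ha using IntermediateField.adjoin_induction with
    | mem b hb =>
      obtain ⟨k, rfl⟩ := hb
      rcases k with k | k
      · have h4 : g (Sum.inl k) = s'^[(k : ℕ)] (el x) := rfl
        rw [hi (Sum.inl k), h4, ← Function.iterate_succ_apply' s']
        have h5 : f (Sum.inl k) = s^[(k : ℕ)] (el t₀) := rfl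
        rw [h5, ← Function.iterate_succ_apply' s]
        have h6 : ∀ l (hl : l < Nat.totient m), i (s'^[l] (el x)) = s^[l] (el t₀) :=
          fun l hl => hi (Sum.inl ⟨l, hl⟩)
        rcases Nat.lt_or_ge (k + 1 : ℕ) (Nat.totient m) with h7 | h7
        · exact h6 _ h7
        · have h8 : (k : ℕ).succ = (cyclotomic m ℤ).natDegree := by
            rw [hdeg]
            have := k.2
            omega
          rw [h8, top_conj s' x _ hΦ hx, top_conj s t₀ _ hΦ ht₀, map_inv₀, map_prod]
          congr 1
          refine Finset.prod_congr rfl fun l hl => ?_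
          rw [map_zpow₀, h6 l (by rw [← hdeg]; exact Finset.mem_range.1 hl)]
      · have h4 : g (Sum.inr k) = y k := rfl
        rw [hi (Sum.inr k), h4, hy]
        have h5 : i (y k) = z₀ k := hi (Sum.inr k)
        rw [h5]
        exact (hz₀ k).symm
    | algebraMap a => rw [hs' a, hiL, hiL, hs, hσ]
    | add a b _ _ ha hb => rw [map_add, map_add, ha, hb, map_add, map_add]
    | inv a _ ha => rw [map_inv₀, map_inv₀, ha, map_inv₀, map_inv₀]
    | mul a b _ _ ha hb => rw [map_mul, map_mul, ha, hb, map_mul, map_mul]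
  have hiter : ∀ (j : ℕ) (a : Ω'), i (s'^[j] a) = s^[j] (i a) := by
    intro j
    induction j with
    | zero => intro a; rfl
    | succ j ih =>
      intro a
      rw [Function.iterate_succ_apply, Function.iterate_succ_apply, ih, heq]
  have hx0 : i (el x) = el t₀ := hi (Sum.inl ⟨0, Nat.totient_pos.2 hm⟩)
  refine ⟨fun j => i (t j), fun j => ?_, ?_⟩
  · rw [← heq, hfree.fix]
  · intro E hE
    have hall : ∀ a : Ω', i a ∈ E := by
      intro a
      have ha : a ∈ IntermediateField.adjoin L' (Set.range t) := by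
        rw [hfree.gen]
        trivial
      induction ha using IntermediateField.adjoin_induction with
      | mem b hb =>
        obtain ⟨k, rfl⟩ := hb
        exact hE k
      | algebraMap a => rw [hiL]; exact E.algebraMap_mem _
      | add a b _ _ ha hb => rw [map_add]; exact add_mem ha hb
      | inv a _ ha => rw [map_inv₀]; exact inv_mem ha
      | mul a b _ _ ha hb => rw [map_mul]; exact mul_mem ha hb
    constructor
    · intro j
      rw [← hx0, ← hiter]
      exact hall _
    · intro k
      have h5 : i (y k) = z₀ k := hi (Sum.inr k)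
      rw [← h5]
      exact hall _

end Pool.Agent.TorR
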