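import Pool.Agent.Work.MP_88348f_ag.TA.Stmts

set_option autoImplicit false

/-!
# Block TA, item Ex (helper72): existence of a solution with coordinates in a subfield
-/

namespace Pool.Agent.TorR

namespace ITEx

theorem vand {K : Type} [Field K] {d n : ℕ} (h : d ≤ n) {α : Fin n → K}
    (hα : Function.Injective α) {w : Fin d → K} (hw : ∀ a, ∑ j : Fin d, w j * α a ^ (j : ℕ) = 0) :
    ∀ j, w j = 0 := by
  have h1 := Matrix.eq_zero_of_forall_index_sum_mul_pow_eq_zero
    (f := fun j : Fin d => α (Fin.castLE h j)) (v := w)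
    (fun i j hij => Fin.castLE_injective h (hα hij)) (fun j => hw (Fin.castLE h j))
  exact fun j => congrFun h1 j

/-- the linear map of the system -/
def lin {K : Type} [Field K] {p q x₀ y₀ : ℕ} (α : Fin p → K) (β : Fin q → K)
    (z : Fin p → Fin q → K) :
    ((Fin p × Fin x₀) ⊕ (Fin q × Fin y₀) → K) →ₗ[K] (Fin p × Fin q → K) where
  toFun v := fun c => ∑ i : Fin x₀, v (Sum.inl (c.1, i)) * β c.2 ^ (i : ℕ) -
    z c.1 c.2 * ∑ j : Fin y₀, v (Sum.inr (c.2, j)) * α c.1 ^ (j : ℕ)
  map_add' v w := by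
    funext c
    simp only [Pi.add_apply, add_mul, Finset.sum_add_distrib, mul_add]
    ring
  map_smul' a v := by
    funext c
    simp only [Pi.smul_apply, smul_eq_mul, RingHom.id_apply, mul_assoc, ← Finset.mul_sum]
    ring

theorem exK {K : Type} [Field K] {p q x₀ y₀ : ℕ} (α : Fin p → K) (β : Fin q → K)
    (z : Fin p → Fin q → K) (h : p * x₀ + q * y₀ = p * q + 1) :
    ∃ v : (Fin p × Fin x₀) ⊕ (Fin q × Fin y₀) → K, v ≠ 0 ∧ Sol α β z v := by
  have h1 : LinearMap.ker (lin (x₀ := x₀) (y₀ := y₀) α β z) ≠ ⊥ := by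
    apply LinearMap.ker_ne_bot_of_finrank_lt
    rw [Module.finrank_fintype_fun_eq_card, Module.finrank_fintype_fun_eq_card]
    simp only [Fintype.card_sum, Fintype.card_prod, Fintype.card_fin]
    omega
  obtain ⟨v, hv, hv0⟩ := (Submodule.ne_bot_iff _).1 h1
  refine ⟨v, hv0, fun a b => ?_⟩
  have h2 := congrFun (LinearMap.mem_ker.1 hv) (a, b)
  exact sub_eq_zero.1 h2

end ITEx

theorem pr_Ex : StEx := by
  intro Ω _ E p q x₀ y₀ α β z hp hq hx hy h hα hβ hαE hβE hzE hz
  obtain ⟨v, hv0, hv⟩ := ITEx.exK (x₀ := x₀) (y₀ := y₀) (fun a => (⟨α a, hαE a⟩ : E))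
    (fun b => (⟨β b, hβE b⟩ : E)) (fun a b => (⟨z a b, hzE a b⟩ : E)) h
  have hα' : Function.Injective (fun a => (⟨α a, hαE a⟩ : E)) := fun a b hab =>
    hα (congrArg Subtype.val hab)
  have hβ' : Function.Injective (fun b => (⟨β b, hβE b⟩ : E)) := fun a b hab =>
    hβ (congrArg Subtype.val hab)
  have hz' : ∀ a b, (⟨z a b, hzE a b⟩ : E) ≠ 0 := fun a b hab => hz a b (congrArg Subtype.val hab)
  have hsol : Sol α β z (fun c => ((v c : E) : Ω)) := by
    intro a b
    have h1 := congrArg (E.subtype) (hv a b)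
    simpa only [map_sum, map_mul, map_pow, Subfield.coe_subtype] using h1
  refine ⟨fun c => ((v c : E) : Ω), fun i => (v i).2, hsol, ?_, ?_⟩
  · by_contra hc
    push Not at hc
    have hl : ∀ c, v (Sum.inl c) = 0 := fun c => Subtype.ext (hc c)
    apply hv0
    funext c
    rcases c with c | ⟨b, j⟩
    · exact hl c
    · refine ITEx.vand (w := fun j => v (Sum.inr (b, j))) hy hα' (fun a => ?_) j
      have h1 := hv a b
      simp only [hl, zero_mul, Finset.sum_const_zero] at h1
      exact (mul_eq_zero.1 h1.symm).resolve_left (hz' a b)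
  · by_contra hc
    push Not at hc
    have hr : ∀ c, v (Sum.inr c) = 0 := fun c => Subtype.ext (hc c)
    apply hv0
    funext c
    rcases c with ⟨a, i⟩ | c
    · refine ITEx.vand (w := fun i => v (Sum.inl (a, i))) hx hβ' (fun b => ?_) i
      have h1 := hv a b
      simp only [hr, zero_mul, Finset.sum_const_zero, mul_zero] at h1
      exact h1
    · exact hr c

end Pool.Agent.TorR
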