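import Pool.Agent.Work.MP_88348f_ag.TA.Stmts

set_option autoImplicit false

/-!
# MP_88348f_ag, block TA: item Fin, the final conversion
-/

open Polynomial
open scoped TensorProduct

namespace Pool.Agent.TorR

theorem pr_Fin (h1 : StGor) (h2 : StTen) (h3 : StNrm) (h4 : StDef) : StFin := by
  intro k L _ _ _ _ _ _ m hA
  obtain ⟨g, hg⟩ := IsCyclic.exists_generator (α := L ≃ₐ[k] L)
  obtain ⟨Ω, iΩ, iA, s, t, x, y, hsemi, hfree, hpw, hfix, hadj⟩ := hA L (g : L ≃+* L) (h1 k L g hg)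
  obtain ⟨Θ, hΘ1, hΘ2, hΘ3⟩ := h2 k L g hg Ω s _ t hsemi hfree
  choose y' hy' using fun i => hΘ3 (y i) (hfix i)
  refine ⟨Θ.symm (el x), y', h3 k L g hg Ω s _ Θ hΘ2 x hpw, ?_⟩
  refine h4 k L g Ω s _ Θ hΘ1 hΘ2 m (el x) y' ?_
  rw [show (fun i => Θ (1 ⊗ₜ y' i)) = y from funext hy']
  exact hadj

end Pool.Agent.TorR
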