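import Pool.Agent.Work.MP_88348f_ag.TA.Stmts

set_option autoImplicit false

/-!
# Item Fix: the fixed field of a power of the automorphism
-/

open Polynomial
open scoped TensorProduct

namespace Pool.Agent.TorR

namespace ITFix

variable {L : Type} [Field L]

theorem iter_inv (σ : L ≃+* L) (n : ℕ) (a : L) : σ^[n] a⁻¹ = (σ^[n] a)⁻¹ := by
  induction n with
  | zero => rfl
  | succ n ih => rw [Function.iterate_succ_apply', Function.iterate_succ_apply', ih, map_inv₀]

/-- the fixed field of `σ^[m]` -/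
def fixF (σ : L ≃+* L) (m : ℕ) : Subfield L where
  carrier := {a | σ^[m] a = a}
  mul_mem' := by
    intro a b ha hb
    simp only [Set.mem_ofPred_eq] at ha hb ⊢
    rw [iterate_map_mul, ha, hb]
  one_mem' := by
    simp only [Set.mem_ofPred_eq]
    exact iterate_map_one σ m
  add_mem' := by
    intro a b ha hb
    simp only [Set.mem_ofPred_eq] at ha hb ⊢
    rw [iterate_map_add, ha, hb]
  zero_mem' := by
    simp only [Set.mem_ofPred_eq]
    exact iterate_map_zero σ m
  neg_mem' := by
    intro a ha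
    simp only [Set.mem_ofPred_eq] at ha ⊢
    rw [iterate_map_neg, ha]
  inv_mem' := by
    intro a ha
    simp only [Set.mem_ofPred_eq] at ha ⊢
    rw [iter_inv, ha]

theorem mem_fixF {σ : L ≃+* L} {m : ℕ} {a : L} : a ∈ fixF σ m ↔ σ^[m] a = a := Iff.rfl

theorem map_mem {σ : L ≃+* L} {m : ℕ} {a : L} (h : a ∈ fixF σ m) : σ a ∈ fixF σ m := by
  rw [mem_fixF] at h ⊢
  rw [← Function.iterate_succ_apply, Function.iterate_succ_apply', h]

theorem symm_mem {σ : L ≃+* L} {m : ℕ} {a : L} (h : a ∈ fixF σ m) :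
    σ.symm a ∈ fixF σ m := by
  rw [mem_fixF] at h ⊢
  apply σ.injective
  rw [← Function.iterate_succ_apply' (⇑σ), Function.iterate_succ_apply, σ.apply_symm_apply, h]

/-- the restriction of `σ` -/
def resF (σ : L ≃+* L) (m : ℕ) : fixF σ m ≃+* fixF σ m where
  toFun a := ⟨σ (a : L), map_mem a.2⟩
  invFun a := ⟨σ.symm (a : L), symm_mem a.2⟩
  left_inv a := Subtype.ext (σ.symm_apply_apply (a : L))
  right_inv a := Subtype.ext (σ.apply_symm_apply (a : L))
  map_mul' a b := Subtype.ext (map_mul σ (a : L) (b : L))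
  map_add' a b := Subtype.ext (map_add σ (a : L) (b : L))

theorem coe_resF (σ : L ≃+* L) (m : ℕ) (a : fixF σ m) :
    ((resF σ m a : fixF σ m) : L) = σ a := rfl

theorem coe_iter (σ : L ≃+* L) (m j : ℕ) (a : fixF σ m) :
    (((resF σ m)^[j] a : fixF σ m) : L) = σ^[j] a := by
  induction j with
  | zero => rfl
  | succ j ih =>
    rw [Function.iterate_succ_apply', Function.iterate_succ_apply', coe_resF, ih]

end ITFix

open ITFix in
theorem pr_Fix (h1 : StPrim) : StFix := by
  intro L _ σ m r hσ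
  have hm : 0 < m := Nat.pos_of_ne_zero (by
    rintro rfl
    have := hσ.1
    rw [zero_mul] at this
    exact lt_irrefl _ this)
  obtain ⟨α, hα, hα'⟩ := h1 L σ r m (by rwa [mul_comm])
  refine ⟨fixF σ m, inferInstance, (fixF σ m).subtype.toAlgebra, resF σ m, fun a => rfl, hm,
    fun a => Subtype.ext ((coe_iter σ m m a).trans a.2), fun j hj hjm => ⟨⟨α, hα⟩, fun h => ?_⟩⟩
  have h2 : σ^[j] α = σ^[0] α := (coe_iter σ m j ⟨α, hα⟩).symm.trans (congrArg Subtype.val h)
  exact hj.ne' (hα' j 0 hjm hm h2)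

end Pool.Agent.TorR
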