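import Pool.Agent.Work.MP_88348f_ag.TA.Stmts

set_option autoImplicit false

/-!
# MP_88348f_ag, block TA, item Gen: uniqueness of the solution for generic `z`
-/

open Polynomial Matrix

namespace Pool.Agent.TorR

namespace ITGen

/-- polynomials of degree `< d` with `d` roots -/
theorem roots {L : Type} [Field L] {ι : Type} {d : ℕ} (S : Finset ι) (v : ι → L)
    (hv : Function.Injective v) (hS : d ≤ S.card) (u : Fin d → L)
    (h : ∀ x ∈ S, ∑ i, u i * v x ^ (i : ℕ) = 0) : ∀ i, u i = 0 := by
  have hf : (∑ i : Fin d, C (u i) * X ^ (i : ℕ) : L[X]) = 0 := by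
    refine Polynomial.eq_zero_of_degree_lt_of_eval_index_eq_zero S (v := v) (hv.injOn) ?_ ?_
    · refine (degree_sum_fin_lt u).trans_le ?_
      exact_mod_cast hS
    · intro x hx
      rw [eval_finsetSum]
      rw [← h x hx]
      refine Finset.sum_congr rfl fun i _ => ?_
      rw [eval_mul, eval_C, eval_pow, eval_X]
  intro i
  have h1 := congrArg (fun P : L[X] => P.coeff (i : ℕ)) hf
  simp only [finsetSum_coeff, coeff_C_mul, coeff_X_pow, coeff_zero] at h1
  rw [Finset.sum_eq_single i] at h1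
  · simpa using h1
  · intro j _ hj
    have : (i : ℕ) ≠ (j : ℕ) := fun h => hj (Fin.ext h.symm)
    rw [if_neg this, mul_zero]
  · intro h
    exact absurd (Finset.mem_univ i) h

section

variable {L : Type} [Field L] {p q k y₀ : ℕ}

/-- the coefficients of the square system -/
def co (α : Fin p → L) (β : Fin q → L) (a₀ : Fin p) {A : Type} [CommRing A] [Algebra L A]
    (s y : Fin p → Fin q → A) :
    (Fin p × Fin q) ⊕ Unit → (Fin p × Fin (k + 1)) ⊕ (Fin q × Fin y₀) → A
  | Sum.inl r, Sum.inl c =>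
    if r.1 = c.1 then s r.1 r.2 * algebraMap L A (β r.2) ^ (c.2 : ℕ) else 0
  | Sum.inl r, Sum.inr c =>
    if r.2 = c.1 then -(y r.1 r.2 * algebraMap L A (α r.1) ^ (c.2 : ℕ)) else 0
  | Sum.inr _, Sum.inl c => if c = (a₀, Fin.last k) then 1 else 0
  | Sum.inr _, Sum.inr _ => 0

variable (α : Fin p → L) (β : Fin q → L) (a₀ : Fin p)

theorem row1 {A : Type} [CommRing A] [Algebra L A] (s y : Fin p → Fin q → A) (a : Fin p)
    (b : Fin q) (v : (Fin p × Fin (k + 1)) ⊕ (Fin q × Fin y₀) → A) :
    ∑ c, co α β a₀ s y (Sum.inl (a, b)) c * v c =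
      s a b * ∑ i : Fin (k + 1), v (Sum.inl (a, i)) * algebraMap L A (β b) ^ (i : ℕ) -
        y a b * ∑ j : Fin y₀, v (Sum.inr (b, j)) * algebraMap L A (α a) ^ (j : ℕ) := by
  rw [Fintype.sum_sum_type, Fintype.sum_prod_type, Fintype.sum_prod_type]
  have e1 : ∑ x : Fin p, ∑ i : Fin (k + 1),
      co (k := k) (y₀ := y₀) α β a₀ s y (Sum.inl (a, b)) (Sum.inl (x, i)) * v (Sum.inl (x, i)) =
      s a b * ∑ i : Fin (k + 1), v (Sum.inl (a, i)) * algebraMap L A (β b) ^ (i : ℕ) := by
    rw [Finset.sum_eq_single a]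
    · rw [Finset.mul_sum]
      refine Finset.sum_congr rfl fun i _ => ?_
      have : co (k := k) (y₀ := y₀) α β a₀ s y (Sum.inl (a, b)) (Sum.inl (a, i)) =
          s a b * algebraMap L A (β b) ^ (i : ℕ) := by simp [co]
      rw [this]
      ring
    · intro x _ hx
      refine Finset.sum_eq_zero fun i _ => ?_
      have : co (k := k) (y₀ := y₀) α β a₀ s y (Sum.inl (a, b)) (Sum.inl (x, i)) = 0 := by
        simp [co, Ne.symm hx]
      rw [this, zero_mul]
    · intro h
      exact absurd (Finset.mem_univ a) h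
  have e2 : ∑ x : Fin q, ∑ j : Fin y₀,
      co (k := k) (y₀ := y₀) α β a₀ s y (Sum.inl (a, b)) (Sum.inr (x, j)) * v (Sum.inr (x, j)) =
      -(y a b * ∑ j : Fin y₀, v (Sum.inr (b, j)) * algebraMap L A (α a) ^ (j : ℕ)) := by
    rw [Finset.sum_eq_single b]
    · rw [Finset.mul_sum, ← Finset.sum_neg_distrib]
      refine Finset.sum_congr rfl fun i _ => ?_
      have : co (k := k) (y₀ := y₀) α β a₀ s y (Sum.inl (a, b)) (Sum.inr (b, i)) =
          -(y a b * algebraMap L A (α a) ^ (i : ℕ)) := by simp [co]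
      rw [this]
      ring
    · intro x _ hx
      refine Finset.sum_eq_zero fun i _ => ?_
      have : co (k := k) (y₀ := y₀) α β a₀ s y (Sum.inl (a, b)) (Sum.inr (x, i)) = 0 := by
        simp [co, Ne.symm hx]
      rw [this, zero_mul]
    · intro h
      exact absurd (Finset.mem_univ b) h
  rw [e1, e2, sub_eq_add_neg]

theorem row2 {A : Type} [CommRing A] [Algebra L A] (s y : Fin p → Fin q → A)
    (w : Unit) (v : (Fin p × Fin (k + 1)) ⊕ (Fin q × Fin y₀) → A) :
    ∑ c, co α β a₀ s y (Sum.inr w) c * v c = v (Sum.inl (a₀, Fin.last k)) := by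
  rw [Fintype.sum_sum_type]
  have e1 : ∑ c : Fin p × Fin (k + 1), co (k := k) (y₀ := y₀) α β a₀ s y (Sum.inr w) (Sum.inl c) *
      v (Sum.inl c) = v (Sum.inl (a₀, Fin.last k)) := by
    rw [Finset.sum_eq_single (a₀, Fin.last k)]
    · simp [co]
    · intro c _ hc
      have : co (k := k) (y₀ := y₀) α β a₀ s y (Sum.inr w) (Sum.inl c) = 0 := by
        simp [co, hc]
      rw [this, zero_mul]
    · intro h
      exact absurd (Finset.mem_univ _) h
  have e2 : ∑ c : Fin q × Fin y₀, co (k := k) (y₀ := y₀) α β a₀ s y (Sum.inr w) (Sum.inr c) *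
      v (Sum.inr c) = 0 := by
    refine Finset.sum_eq_zero fun c _ => ?_
    simp [co]
  rw [e1, e2, add_zero]

theorem co_map {A B : Type} [CommRing A] [Algebra L A] [CommRing B] [Algebra L B] (f : A →ₐ[L] B)
    (s y : Fin p → Fin q → A) (r : (Fin p × Fin q) ⊕ Unit)
    (c : (Fin p × Fin (k + 1)) ⊕ (Fin q × Fin y₀)) :
    f (co α β a₀ s y r c) = co α β a₀ (fun a b => f (s a b)) (fun a b => f (y a b)) r c := by
  rcases r with r | r <;> rcases c with c | c
  · simp only [co]
    split_ifs
    · rw [map_mul, map_pow, AlgHom.commutes]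
    · exact map_zero f
  · simp only [co]
    split_ifs
    · rw [map_neg, map_mul, map_pow, AlgHom.commutes]
    · exact map_zero f
  · simp only [co]
    split_ifs
    · exact map_one f
    · exact map_zero f
  · simp only [co]
    exact map_zero f

/-- the square matrix -/
def Mt (e : ((Fin p × Fin q) ⊕ Unit) ≃ ((Fin p × Fin (k + 1)) ⊕ (Fin q × Fin y₀))) {A : Type}
    [CommRing A] [Algebra L A] (s y : Fin p → Fin q → A) :
    Matrix ((Fin p × Fin q) ⊕ Unit) ((Fin p × Fin q) ⊕ Unit) A :=
  Matrix.of fun r c => co α β a₀ s y r (e c)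

theorem Mt_apply (e : ((Fin p × Fin q) ⊕ Unit) ≃ ((Fin p × Fin (k + 1)) ⊕ (Fin q × Fin y₀)))
    {A : Type} [CommRing A] [Algebra L A] (s y : Fin p → Fin q → A) (r c : (Fin p × Fin q) ⊕ Unit) :
    Mt α β a₀ e s y r c = co α β a₀ s y r (e c) := rfl

theorem Mt_vec (e : ((Fin p × Fin q) ⊕ Unit) ≃ ((Fin p × Fin (k + 1)) ⊕ (Fin q × Fin y₀)))
    {A : Type} [CommRing A] [Algebra L A] (s y : Fin p → Fin q → A)
    (v : (Fin p × Fin (k + 1)) ⊕ (Fin q × Fin y₀) → A) (r : (Fin p × Fin q) ⊕ Unit) :
    (Mt α β a₀ e s y *ᵥ (v ∘ e)) r = ∑ c, co α β a₀ s y r c * v c := by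
  rw [Matrix.mulVec, dotProduct, ← Equiv.sum_comp e]
  rfl

theorem Mt_map (e : ((Fin p × Fin q) ⊕ Unit) ≃ ((Fin p × Fin (k + 1)) ⊕ (Fin q × Fin y₀)))
    {A B : Type} [CommRing A] [Algebra L A] [CommRing B] [Algebra L B] (f : A →ₐ[L] B)
    (s y : Fin p → Fin q → A) : f (Mt α β a₀ e s y).det =
      (Mt α β a₀ e (fun a b => f (s a b)) (fun a b => f (y a b))).det := by
  rw [AlgHom.map_det]
  congr 1
  ext r c
  exact co_map α β a₀ f s y r (e c)

/-- the value at zero -/
theorem det0 (e : ((Fin p × Fin q) ⊕ Unit) ≃ ((Fin p × Fin (k + 1)) ⊕ (Fin q × Fin y₀)))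
    (hα : Function.Injective α) (hβ : Function.Injective β) (Z : Fin p → Fin q → Bool)
    (h1 : ∀ b, (Finset.univ.filter fun a => Z a b = true).card = y₀)
    (h2 : ∀ a, (Finset.univ.filter fun b => Z a b = false).card + (if a = a₀ then 1 else 0) =
      k + 1) :
    (Mt (A := L) α β a₀ e (fun a b => if Z a b then 0 else 1)
      (fun a b => if Z a b then 1 else 0)).det ≠ 0 := by
  intro h0
  obtain ⟨v, hv, hM⟩ := Matrix.exists_mulVec_eq_zero_iff.2 h0
  apply hv
  set w : (Fin p × Fin (k + 1)) ⊕ (Fin q × Fin y₀) → L := v ∘ e.symm with hw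
  have hvw : v = w ∘ e := by
    rw [hw]
    funext r
    simp
  have hrow : ∀ r, ∑ c, co (A := L) α β a₀ (fun a b => if Z a b then 0 else 1)
      (fun a b => if Z a b then 1 else 0) r c * w c = 0 := by
    intro r
    rw [← Mt_vec α β a₀ e, ← hvw, hM]
    rfl
  have hT : ∀ a b, Z a b = true → ∑ j : Fin y₀, w (Sum.inr (b, j)) * α a ^ (j : ℕ) = 0 := by
    intro a b hZ
    have h := hrow (Sum.inl (a, b))
    rw [row1] at h
    simp only [hZ, if_true, zero_mul, one_mul, zero_sub, neg_eq_zero, Algebra.algebraMap_self,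
      RingHom.id_apply] at h
    exact h
  have hF : ∀ a b, Z a b = false →
      ∑ i : Fin (k + 1), w (Sum.inl (a, i)) * β b ^ (i : ℕ) = 0 := by
    intro a b hZ
    have h := hrow (Sum.inl (a, b))
    rw [row1] at h
    simp only [hZ, Bool.false_eq_true, if_false, zero_mul, one_mul, sub_zero,
      Algebra.algebraMap_self, RingHom.id_apply] at h
    exact h
  have hL : w (Sum.inl (a₀, Fin.last k)) = 0 := by
    have h := hrow (Sum.inr ())
    rw [row2] at h
    exact h
  have hr : ∀ b j, w (Sum.inr (b, j)) = 0 := by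
    intro b
    refine roots (Finset.univ.filter fun a => Z a b = true) α hα (h1 b).ge
      (fun j => w (Sum.inr (b, j))) ?_
    intro a ha
    exact hT a b (Finset.mem_filter.1 ha).2
  have hl : ∀ a i, w (Sum.inl (a, i)) = 0 := by
    intro a
    by_cases ha : a = a₀
    · subst ha
      have hc := h2 a
      rw [if_pos rfl] at hc
      have hk : ∀ i : Fin k, w (Sum.inl (a, i.castSucc)) = 0 := by
        refine roots (Finset.univ.filter fun b => Z a b = false) β hβ (by omega)
          (fun i : Fin k => w (Sum.inl (a, i.castSucc))) ?_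
        intro b hb
        have h := hF a b (Finset.mem_filter.1 hb).2
        rw [Fin.sum_univ_castSucc, hL, zero_mul, add_zero] at h
        exact h
      intro i
      refine Fin.lastCases hL hk i
    · have hc := h2 a
      rw [if_neg ha, add_zero] at hc
      refine roots (Finset.univ.filter fun b => Z a b = false) β hβ hc.ge
        (fun i => w (Sum.inl (a, i))) ?_
      intro b hb
      exact hF a b (Finset.mem_filter.1 hb).2
  rw [hvw]
  funext r
  change w (e r) = 0
  rcases e r with ⟨a, i⟩ | ⟨b, j⟩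
  · exact hl a i
  · exact hr b j

/-- the determinant over the field of rational functions -/
theorem det1 (e : ((Fin p × Fin q) ⊕ Unit) ≃ ((Fin p × Fin (k + 1)) ⊕ (Fin q × Fin y₀)))
    (hα : Function.Injective α) (hβ : Function.Injective β) (Z : Fin p → Fin q → Bool)
    (h1 : ∀ b, (Finset.univ.filter fun a => Z a b = true).card = y₀)
    (h2 : ∀ a, (Finset.univ.filter fun b => Z a b = false).card + (if a = a₀ then 1 else 0) =
      k + 1) :
    ∃ z : Fin p → Fin q → FractionRing L[X],
      (Mt (A := FractionRing L[X]) α β a₀ e (fun _ _ => 1) z).det ≠ 0 := by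
  set F := FractionRing L[X] with hFdef
  have hinj : Function.Injective (algebraMap L[X] F) := IsFractionRing.injective L[X] F
  set T : F := algebraMap L[X] F X with hT
  have hT0 : T ≠ 0 := by
    rw [hT]
    intro h
    exact X_ne_zero (hinj (by rw [h, map_zero]))
  have hP : (Mt (A := L[X]) α β a₀ e (fun a b => if Z a b then X else 1)
      (fun a b => if Z a b then 1 else X)).det ≠ 0 := by
    intro h
    apply det0 α β a₀ e hα hβ Z h1 h2
    have h3 := Mt_map α β a₀ e (aeval (0 : L)) (fun a b => if Z a b then (X : L[X]) else 1)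
      (fun a b => if Z a b then (1 : L[X]) else X)
    rw [h, map_zero] at h3
    have e1 : (fun a b => (aeval (0 : L)) (if Z a b then (X : L[X]) else 1)) =
        fun a b => if Z a b then (0 : L) else 1 := by
      funext a b
      by_cases hZ : Z a b = true
      · simp [hZ]
      · simp [hZ]
    have e2 : (fun a b => (aeval (0 : L)) (if Z a b then (1 : L[X]) else X)) =
        fun a b => if Z a b then (1 : L) else 0 := by
      funext a b
      by_cases hZ : Z a b = true
      · simp [hZ]
      · simp [hZ]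
    rw [e1, e2] at h3
    exact h3.symm
  have hQ : (Mt (A := F) α β a₀ e (fun a b => if Z a b then T else 1)
      (fun a b => if Z a b then 1 else T)).det ≠ 0 := by
    have h3 := Mt_map α β a₀ e (IsScalarTower.toAlgHom L L[X] F)
      (fun a b => if Z a b then (X : L[X]) else 1) (fun a b => if Z a b then (1 : L[X]) else X)
    have h4 : (Mt (A := F) α β a₀ e (fun a b => if Z a b then T else 1)
        (fun a b => if Z a b then 1 else T)) =
        (Mt (A := F) α β a₀ e
          (fun a b => (IsScalarTower.toAlgHom L L[X] F) (if Z a b then (X : L[X]) else 1))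
          (fun a b => (IsScalarTower.toAlgHom L L[X] F) (if Z a b then (1 : L[X]) else X))) := by
      congr 1
      · funext a b
        by_cases hZ : Z a b = true
        · simp [hZ, hT]
        · simp [hZ]
      · funext a b
        by_cases hZ : Z a b = true
        · simp [hZ]
        · simp [hZ, hT]
    rw [h4, ← h3]
    intro h
    apply hP
    apply hinj
    rw [map_zero]
    exact h
  refine ⟨fun a b => if Z a b then T⁻¹ else T, ?_⟩
  set vv : (Fin p × Fin q) ⊕ Unit → F := Sum.elim (fun r => if Z r.1 r.2 then T⁻¹ else 1)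
    (fun _ => 1) with hvv
  have hE : (Mt (A := F) α β a₀ e (fun _ _ => 1) (fun a b => if Z a b then T⁻¹ else T)) =
      Matrix.of fun r c => vv r * (Mt (A := F) α β a₀ e (fun a b => if Z a b then T else 1)
        (fun a b => if Z a b then 1 else T)) r c := by
    ext r c
    rw [Matrix.of_apply]
    rw [Mt_apply, Mt_apply]
    rcases r with ⟨a, b⟩ | r <;> rcases e c with ⟨x, i⟩ | ⟨x, i⟩
    · by_cases hc : a = x
      · subst hc
        by_cases hZ : Z a b = true
        · simp only [co, hvv, hZ, if_true, Sum.elim_inl]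
          rw [one_mul, ← mul_assoc, inv_mul_cancel₀ hT0, one_mul]
        · simp [co, hvv, hZ]
      · simp [co, hc]
    · by_cases hc : b = x
      · subst hc
        by_cases hZ : Z a b = true
        · simp only [co, hvv, hZ, if_true, Sum.elim_inl]
          ring
        · simp [co, hvv, hZ]
      · simp [co, hc]
    · simp [co, hvv]
    · simp [co]
  rw [hE, Matrix.det_mul_column]
  refine mul_ne_zero ?_ hQ
  rw [Finset.prod_ne_zero_iff]
  rintro (⟨a, b⟩ | r) -
  · rw [hvv]
    by_cases hZ : Z a b = true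
    · simp [hZ, hT0]
    · simp [hZ]
  · rw [hvv]
    simp

/-- the determinant for algebraically independent elements -/
theorem det2 (e : ((Fin p × Fin q) ⊕ Unit) ≃ ((Fin p × Fin (k + 1)) ⊕ (Fin q × Fin y₀)))
    (hα : Function.Injective α) (hβ : Function.Injective β) (Z : Fin p → Fin q → Bool)
    (h1 : ∀ b, (Finset.univ.filter fun a => Z a b = true).card = y₀)
    (h2 : ∀ a, (Finset.univ.filter fun b => Z a b = false).card + (if a = a₀ then 1 else 0) =
      k + 1) {Ω : Type} [Field Ω] [Algebra L Ω] (z : Fin p → Fin q → Ω)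
    (hz : AlgebraicIndependent L (fun c : Fin p × Fin q => z c.1 c.2)) :
    (Mt (A := Ω) α β a₀ e (fun _ _ => 1) z).det ≠ 0 := by
  obtain ⟨z', hz'⟩ := det1 α β a₀ e hα hβ Z h1 h2
  have hY : (Mt (A := MvPolynomial (Fin p × Fin q) L) α β a₀ e (fun _ _ => 1)
      (fun a b => MvPolynomial.X (a, b))).det ≠ 0 := by
    intro h
    apply hz'
    have h3 := Mt_map α β a₀ e (MvPolynomial.aeval (fun c : Fin p × Fin q => z' c.1 c.2))
      (fun _ _ => (1 : MvPolynomial (Fin p × Fin q) L)) (fun a b => MvPolynomial.X (a, b))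
    rw [h, map_zero] at h3
    simp only [map_one, MvPolynomial.aeval_X] at h3
    exact h3.symm
  intro h
  apply hY
  have h3 := Mt_map α β a₀ e (MvPolynomial.aeval (fun c : Fin p × Fin q => z c.1 c.2))
    (fun _ _ => (1 : MvPolynomial (Fin p × Fin q) L)) (fun a b => MvPolynomial.X (a, b))
  simp only [map_one, MvPolynomial.aeval_X] at h3
  have h4 : Function.Injective (MvPolynomial.aeval (R := L)
    (fun c : Fin p × Fin q => z c.1 c.2)) := hz
  apply h4
  rw [map_zero, h3]
  exact h

end

end ITGen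

theorem pr_Gen (h1 : StMat) : StGen := by
  intro L Ω _ _ _ p q x₀ y₀ α β z hp hq hx hy hxq hyp hcard hα hβ hz v v' hv hv' hv0
  obtain ⟨k, rfl⟩ : ∃ k, x₀ = k + 1 := ⟨x₀ - 1, by omega⟩
  obtain ⟨Z, a₀, hZ1, hZ2⟩ := h1 p q (k + 1) y₀ hp hq hx hy hxq hyp hcard
  have hc : Fintype.card ((Fin p × Fin q) ⊕ Unit) =
      Fintype.card ((Fin p × Fin (k + 1)) ⊕ (Fin q × Fin y₀)) := by
    simp only [Fintype.card_sum, Fintype.card_prod, Fintype.card_fin, Fintype.card_unit]
    exact hcard.symm
  let e := Fintype.equivOfCardEq hc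
  have hdet := ITGen.det2 α β a₀ e hα hβ Z hZ1 hZ2 z hz
  -- a solution which vanishes at the distinguished place is zero
  have key : ∀ w : (Fin p × Fin (k + 1)) ⊕ (Fin q × Fin y₀) → Ω,
      Sol (fun a => algebraMap L Ω (α a)) (fun b => algebraMap L Ω (β b)) z w →
      w (Sum.inl (a₀, Fin.last k)) = 0 → w = 0 := by
    intro w hw hw0
    have h : (ITGen.Mt α β a₀ e (fun _ _ => 1) z) *ᵥ (w ∘ e) = 0 := by
      funext r
      rw [ITGen.Mt_vec]
      rcases r with ⟨a, b⟩ | r
      · rw [ITGen.row1, one_mul, hw a b, sub_self]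
        rfl
      · rw [ITGen.row2, hw0]
        rfl
    have h5 := Matrix.eq_zero_of_mulVec_eq_zero hdet h
    funext c
    have h6 := congrFun h5 (e.symm c)
    simpa using h6
  have hlin : ∀ lam mu : Ω, Sol (fun a => algebraMap L Ω (α a))
      (fun b => algebraMap L Ω (β b)) z (lam • v' - mu • v) := by
    intro lam mu a b
    have e1 : ∀ x : Ω, ∀ f : Fin (k + 1) → (Fin p × Fin (k + 1)) ⊕ (Fin q × Fin y₀),
        ∑ i : Fin (k + 1), (lam • v' - mu • v) (f i) * x ^ (i : ℕ) =
        lam * ∑ i : Fin (k + 1), v' (f i) * x ^ (i : ℕ) -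
          mu * ∑ i : Fin (k + 1), v (f i) * x ^ (i : ℕ) := by
      intro x f
      rw [Finset.mul_sum, Finset.mul_sum, ← Finset.sum_sub_distrib]
      refine Finset.sum_congr rfl fun i _ => ?_
      simp only [Pi.sub_apply, Pi.smul_apply, smul_eq_mul]
      ring
    have e2 : ∀ x : Ω, ∀ f : Fin y₀ → (Fin p × Fin (k + 1)) ⊕ (Fin q × Fin y₀),
        ∑ i : Fin y₀, (lam • v' - mu • v) (f i) * x ^ (i : ℕ) =
        lam * ∑ i : Fin y₀, v' (f i) * x ^ (i : ℕ) -
          mu * ∑ i : Fin y₀, v (f i) * x ^ (i : ℕ) := by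
      intro x f
      rw [Finset.mul_sum, Finset.mul_sum, ← Finset.sum_sub_distrib]
      refine Finset.sum_congr rfl fun i _ => ?_
      simp only [Pi.sub_apply, Pi.smul_apply, smul_eq_mul]
      ring
    rw [e1 _ (fun i => Sum.inl (a, i)), e2 _ (fun j => Sum.inr (b, j)), hv a b, hv' a b]
    ring
  have h7 := key (v (Sum.inl (a₀, Fin.last k)) • v' - v' (Sum.inl (a₀, Fin.last k)) • v)
    (hlin _ _) (by
      simp only [Pi.sub_apply, Pi.smul_apply, smul_eq_mul]
      ring)
  have hne : v (Sum.inl (a₀, Fin.last k)) ≠ 0 := by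
    intro h
    exact hv0 (key v hv h)
  refine ⟨(v (Sum.inl (a₀, Fin.last k)))⁻¹ * v' (Sum.inl (a₀, Fin.last k)), ?_⟩
  rw [mul_smul, ← sub_eq_zero.1 h7, smul_smul, inv_mul_cancel₀ hne, one_smul]

end Pool.Agent.TorR
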