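import Pool.Agent.Work.MP_88348f_ag.TA.Stmts

set_option autoImplicit false

/-!
Item Gor: the order of a generator of the Galois group.
-/

open Polynomial

namespace Pool.Agent.TorR

namespace ITGor

theorem pow_ap {k L : Type} [Field k] [Field L] [Algebra k L] (g : L ≃ₐ[k] L) (j : ℕ) (a : L) :
    (g ^ j) a = (g : L ≃+* L)^[j] a := by
  induction j with
  | zero => rfl
  | succ j ih =>
    rw [pow_succ', Function.iterate_succ_apply', ← ih]
    rfl

end ITGor

theorem pr_Gor : StGor := by
  intro k L _ _ _ _ _ g hg
  have hn : orderOf g = Module.finrank k L := by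
    rw [orderOf_eq_card_of_forall_mem_zpowers hg]
    exact IsGalois.card_aut_eq_finrank k L
  have hpos : 0 < Module.finrank k L := Module.finrank_pos
  refine ⟨hpos, ?_, ?_⟩
  · intro a
    rw [← ITGor.pow_ap, ← hn, pow_orderOf_eq_one]
    rfl
  · intro j hj hjn
    by_contra hcon
    push Not at hcon
    have h1 : g ^ j = 1 := by
      ext a
      rw [ITGor.pow_ap, hcon a]
      rfl
    have h2 := orderOf_dvd_of_pow_eq_one h1
    rw [hn] at h2
    exact absurd (Nat.le_of_dvd hj h2) (by omega)

end Pool.Agent.TorR
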