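import Pool.Agent.Work.MP_88348f_ag.TA.Stmts

set_option autoImplicit false

/-!
# MP_88348f_ag, block TA, item H90: Hilbert 90 with a resolvent from a subfield
-/

namespace Pool.Agent.TorR

namespace ITH90

/-- iterates of a ring isomorphism as ring homomorphisms -/
def it {Ω : Type} [Field Ω] (τ : Ω ≃+* Ω) : ℕ → (Ω →+* Ω)
  | 0 => RingHom.id Ω
  | n + 1 => (it τ n).comp (τ : Ω →+* Ω)

theorem it_apply {Ω : Type} [Field Ω] (τ : Ω ≃+* Ω) (n : ℕ) (a : Ω) : it τ n a = τ^[n] a := by
  induction n generalizing a with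
  | zero => rfl
  | succ n ih =>
    rw [Function.iterate_succ_apply, ← ih]
    rfl

/-- the character `τ^[i]` of `F` -/
def chi {Ω : Type} [Field Ω] (τ : Ω ≃+* Ω) (F : Subfield Ω) (i : ℕ) : F →* Ω :=
  ((it τ i).comp F.subtype : F →+* Ω)

theorem chi_apply {Ω : Type} [Field Ω] (τ : Ω ≃+* Ω) (F : Subfield Ω) (i : ℕ) (c : F) :
    chi τ F i c = τ^[i] (c : Ω) := it_apply τ i c

theorem chi_inj {Ω : Type} [Field Ω] (τ : Ω ≃+* Ω) (r : ℕ) (F : Subfield Ω)
    (h : ∀ j, 0 < j → j < r → ∃ c ∈ F, τ^[j] c ≠ c) :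
    Function.Injective fun i : Fin r => chi τ F i := by
  have key : ∀ i j : ℕ, i < j → j < r → chi τ F i ≠ chi τ F j := by
    intro i j hij hj he
    obtain ⟨c, hc, hne⟩ := h (j - i) (by omega) (by omega)
    apply hne
    have h1 : chi τ F i ⟨c, hc⟩ = chi τ F j ⟨c, hc⟩ := by rw [he]
    rw [chi_apply, chi_apply] at h1
    have h2 : τ^[j] c = τ^[i] (τ^[j - i] c) := by
      rw [← Function.iterate_add_apply]
      congr 2
      omega
    simp only at h1
    rw [h2] at h1
    exact ((τ.injective.iterate i) h1).symm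
  intro i j hij
  simp only at hij
  rcases lt_trichotomy (i : ℕ) (j : ℕ) with hlt | heq | hgt
  · exact absurd hij (key i j hlt j.2)
  · exact Fin.ext heq
  · exact absurd hij.symm (key j i hgt i.2)

end ITH90

open ITH90

theorem pr_H90 : StH90 := by
  intro Ω _ τ r F hr hτ hord x hx hN
  -- the coefficients
  set P : ℕ → Ω := fun i => ∏ j ∈ Finset.range i, τ^[j] x with hP
  have hP0 : P 0 = 1 := by simp [hP]
  have hPr : P r = 1 := hN
  have hPs : ∀ i, x * τ (P i) = P (i + 1) := by
    intro i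
    rw [hP]
    simp only
    rw [map_prod, Finset.prod_range_succ']
    simp only [← Function.iterate_succ_apply' (⇑τ), Function.iterate_zero, id_eq]
    rw [mul_comm]
  -- a constant with nonzero resolvent
  have hex : ∃ c ∈ F, ∑ i ∈ Finset.range r, P i * τ^[i] c ≠ 0 := by
    by_contra hcon
    push Not at hcon
    have hli := (linearIndependent_monoidHom F Ω).comp _ (chi_inj τ r F hord)
    rw [Fintype.linearIndependent_iff] at hli
    have h0 : ∑ i : Fin r, P i • (⇑(chi τ F i) : F → Ω) = 0 := by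
      funext c
      rw [Finset.sum_apply]
      have h1 := hcon c c.2
      rw [← Fin.sum_univ_eq_sum_range (fun i => P i * τ^[i] (c : Ω)) r] at h1
      rw [Pi.zero_apply, ← h1]
      refine Finset.sum_congr rfl fun i _ => ?_
      rw [Pi.smul_apply, smul_eq_mul, chi_apply]
    have h2 := hli (fun i => P i) h0 ⟨0, hr⟩
    simp only at h2
    rw [hP0] at h2
    exact one_ne_zero h2
  obtain ⟨c, hc, hne⟩ := hex
  refine ⟨c, hc, hne, ?_⟩
  show x * τ (∑ i ∈ Finset.range r, P i * τ^[i] c) = ∑ i ∈ Finset.range r, P i * τ^[i] c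
  rw [map_sum, Finset.mul_sum]
  have h1 : ∀ i ∈ Finset.range r, x * τ (P i * τ^[i] c) = P (i + 1) * τ^[i + 1] c := by
    intro i _
    rw [map_mul, ← mul_assoc, hPs, Function.iterate_succ_apply']
  rw [Finset.sum_congr rfl h1]
  have h2 := Finset.sum_range_succ (fun i => P i * τ^[i] c) r
  have h3 := Finset.sum_range_succ' (fun i => P i * τ^[i] c) r
  rw [h2] at h3
  simp only [Function.iterate_zero, id_eq] at h3
  rw [hP0, hPr, hτ, one_mul] at h3
  exact (add_right_cancel h3).symm

end Pool.Agent.TorR
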