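import Pool.Agent.Work.MP_88348f_ag.TA.Stmts

set_option autoImplicit false

/-!
# MP_88348f_ag, block TA, item HH: Hilbert 90 twice
-/

open Polynomial
open scoped TensorProduct

namespace Pool.Agent.TorR

namespace ITHH

theorem pow_it {Ω : Type} [Field Ω] (s : Ω ≃+* Ω) (m : ℕ) (a : Ω) :
    ((s ^ m : RingAut Ω) : Ω ≃+* Ω) a = s^[m] a := by
  induction m generalizing a with
  | zero => rfl
  | succ m ih =>
    rw [pow_succ, Function.iterate_succ_apply, ← ih]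
    rfl

theorem it_it {Ω : Type} [Field Ω] (s : Ω ≃+* Ω) (m j : ℕ) (a : Ω) :
    (⇑((s ^ m : RingAut Ω) : Ω ≃+* Ω))^[j] a = s^[m * j] a := by
  have h : (⇑((s ^ m : RingAut Ω) : Ω ≃+* Ω)) = s^[m] := funext fun a => pow_it s m a
  rw [h, Function.iterate_mul]

theorem semi_it {L Ω : Type} [Field L] [Field Ω] [Algebra L Ω] {σ : L ≃+* L} {s : Ω ≃+* Ω}
    (hs : Semi σ s) (j : ℕ) (a : L) :
    s^[j] (algebraMap L Ω a) = algebraMap L Ω (σ^[j] a) := by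
  induction j generalizing a with
  | zero => rfl
  | succ j ih => rw [Function.iterate_succ_apply, hs, ih, Function.iterate_succ_apply]

theorem el_sum {Ω : Type} [Field Ω] (S : Finset ℕ) (f : ℕ → Additive Ωˣ) :
    el (∑ i ∈ S, f i) = ∏ i ∈ S, el (f i) := by
  classical
  induction S using Finset.induction_on with
  | empty => rfl
  | insert a S ha ih =>
    rw [Finset.sum_insert ha, Finset.prod_insert ha, ← ih]
    rfl

/-- one application of Hilbert 90 -/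
theorem hil (hPw : StPw) (hH : StH90) {L Ω : Type} [Field L] [Field Ω] [Algebra L Ω]
    (σ : L ≃+* L) (s : Ω ≃+* Ω) (hs : Semi σ s) (m r : ℕ) (hr : 0 < r)
    (hper : ∀ a : Ω, s^[m * r] a = a) (hne : ∀ j, 0 < j → j < r → ∃ a : L, σ^[m * j] a ≠ a)
    (x : Additive Ωˣ) (hx : pw s (∑ j ∈ Finset.range r, X ^ (m * j)) x = 0) :
    ∃ y, pw s (X ^ m - 1) y = x ∧ ∀ E : IntermediateField L Ω, (∀ j, s^[j] (el x) ∈ E) →
      ∀ j, s^[j] (el y) ∈ E := by
  obtain ⟨hX, -, -, -, -, -, hsum, -, -, h0, -, hnz, -⟩ := hPw Ω s x x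
  have hprod : ∏ j ∈ Finset.range r, (⇑((s ^ m : RingAut Ω) : Ω ≃+* Ω))^[j] (el x) = 1 := by
    have h1 : el (pw s (∑ j ∈ Finset.range r, X ^ (m * j)) x) = 1 := by
      rw [hx]
      exact h0
    rw [hsum, el_sum] at h1
    rw [← h1]
    refine Finset.prod_congr rfl fun j _ => ?_
    rw [it_it, hX]
  obtain ⟨c, ⟨a, rfl⟩, hS, hxS⟩ := hH Ω ((s ^ m : RingAut Ω) : Ω ≃+* Ω) r
    (algebraMap L Ω).fieldRange hr (fun a => by rw [it_it, hper]) (by
      intro j hj hjr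
      obtain ⟨a, ha⟩ := hne j hj hjr
      refine ⟨algebraMap L Ω a, ⟨a, rfl⟩, ?_⟩
      rw [it_it, semi_it hs]
      exact fun h => ha ((algebraMap L Ω).injective h)) (el x) hnz hprod
  set S : Ω := ∑ i ∈ Finset.range r, (∏ j ∈ Finset.range i,
    (⇑((s ^ m : RingAut Ω) : Ω ≃+* Ω))^[j] (el x)) *
      (⇑((s ^ m : RingAut Ω) : Ω ≃+* Ω))^[i] (algebraMap L Ω a) with hSdef
  refine ⟨Additive.ofMul (Units.mk0 S hS)⁻¹, ?_, ?_⟩
  · obtain ⟨hX', -, -, hsub, -, h1', -, -, -, -, -, -, -⟩ :=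
      hPw Ω s (Additive.ofMul (Units.mk0 S hS)⁻¹) x
    have hy : el (Additive.ofMul (Units.mk0 S hS)⁻¹) = S⁻¹ := by
      show (((Units.mk0 S hS)⁻¹ : Ωˣ) : Ω) = S⁻¹
      rw [Units.val_inv_eq_inv_val]
      rfl
    refine (hPw Ω s _ x).2.2.2.2.2.2.2.2.2.2.2.2 ?_
    rw [hsub, h1', sub_eq_add_neg, (hPw Ω s _ _).2.2.2.2.2.2.2.1,
      (hPw Ω s _ x).2.2.2.2.2.2.2.2.1, hX', hy, inv_inv]
    have h2 : s^[m] S⁻¹ = (((s ^ m : RingAut Ω) : Ω ≃+* Ω) S)⁻¹ := by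
      rw [← pow_it, map_inv₀]
    have h3 : ((s ^ m : RingAut Ω) : Ω ≃+* Ω) S ≠ 0 := by
      intro h
      exact hS ((map_eq_zero_iff _ (RingEquiv.injective _)).mp h)
    rw [h2, inv_mul_eq_iff_eq_mul₀ h3, mul_comm]
    exact hxS.symm
  · intro E hE j
    have hy : el (Additive.ofMul (Units.mk0 S hS)⁻¹) = S⁻¹ := by
      show (((Units.mk0 S hS)⁻¹ : Ωˣ) : Ω) = S⁻¹
      rw [Units.val_inv_eq_inv_val]
      rfl
    rw [hy, ← pow_it, map_inv₀]
    refine E.inv_mem ?_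
    rw [hSdef, map_sum]
    refine E.sum_mem fun i _ => ?_
    rw [map_mul, map_prod]
    refine E.mul_mem (E.prod_mem fun l _ => ?_) ?_
    · rw [it_it, pow_it, ← Function.iterate_add_apply]
      exact hE _
    · rw [it_it, pow_it, ← Function.iterate_add_apply, semi_it hs]
      exact E.algebraMap_mem _

theorem geo (m r : ℕ) : (X ^ m - 1 : ℤ[X]) * ∑ j ∈ Finset.range r, X ^ (m * j) =
    X ^ (m * r) - 1 := by
  have h := mul_geom_sum (X ^ m : ℤ[X]) r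
  simp only [← pow_mul] at h
  exact h

theorem cyc_dvd (m r : ℕ) (hm : 0 < m) (hr : 1 < r) :
    cyclotomic (m * r) ℤ ∣ ∑ j ∈ Finset.range r, (X : ℤ[X]) ^ (m * j) := by
  have h1 : m ∈ (m * r).properDivisors := by
    rw [Nat.mem_properDivisors]
    refine ⟨dvd_mul_right _ _, ?_⟩
    calc m = m * 1 := (mul_one m).symm
      _ < m * r := Nat.mul_lt_mul_of_pos_left hr hm
  have h2 := X_pow_sub_one_mul_cyclotomic_dvd_X_pow_sub_one_of_dvd ℤ h1
  rw [← geo] at h2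
  have h3 : (X ^ m - 1 : ℤ[X]) ≠ 0 := (monic_X_pow_sub_C 1 hm.ne').ne_zero
  exact (mul_dvd_mul_iff_left h3).mp h2

end ITHH

theorem pr_HH (hPw : StPw) (hPwE : StPwE) (hPwZ : StPwZ) (hH : StH90) : StHH := by
  intro L Ω _ _ _ σ s p q hs hp hq hpq hord hper x hx
  set Np : ℤ[X] := ∑ j ∈ Finset.range p, X ^ (q * j) with hNp
  set Nq : ℤ[X] := ∑ j ∈ Finset.range q, X ^ (p * j) with hNq
  have gq : (X ^ p - 1 : ℤ[X]) * Nq = X ^ (p * q) - 1 := ITHH.geo p q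
  have gp : (X ^ q - 1 : ℤ[X]) * Np = X ^ (p * q) - 1 := by
    rw [mul_comm p q]
    exact ITHH.geo q p
  have hmul : ∀ (y : Additive Ωˣ) (f g : ℤ[X]), pw s (f * g) y = pw s f (pw s g y) :=
    fun y => (hPw Ω s y y).2.1
  have hadd : ∀ (y : Additive Ωˣ) (f g : ℤ[X]), pw s (f + g) y = pw s f y + pw s g y :=
    fun y => (hPw Ω s y y).2.2.1
  have hsub : ∀ (y : Additive Ωˣ) (f g : ℤ[X]), pw s (f - g) y = pw s f y - pw s g y :=
    fun y => (hPw Ω s y y).2.2.2.1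
  have hC : ∀ (y : Additive Ωˣ) (a : ℤ), pw s (C a) y = a • y :=
    fun y => (hPw Ω s y y).2.2.2.2.1
  have hone : ∀ (y : Additive Ωˣ), pw s 1 y = y := fun y => (hPw Ω s y y).2.2.2.2.2.1
  have hkill : ∀ (y : Additive Ωˣ), pw s (X ^ (p * q) - 1) y = 0 := fun y =>
    hPwZ Ω s (p * q) y _ (hper _) dvd_rfl
  -- the two norms kill `x`
  have hxq : pw s Nq x = 0 := by
    obtain ⟨c, hc⟩ := ITHH.cyc_dvd p q hp.pos hq.one_lt
    rw [← hNq, mul_comm] at hc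
    rw [hc, hmul, hx, map_zero]
  have hxp : pw s Np x = 0 := by
    obtain ⟨c, hc⟩ := ITHH.cyc_dvd q p hq.pos hp.one_lt
    rw [← hNp, mul_comm q p, mul_comm] at hc
    rw [hc, hmul, hx, map_zero]
  obtain ⟨x₁, hx₁, hE₁⟩ := ITHH.hil hPw hH σ s hs p q hq.pos hper (fun j hj hjq =>
    hord.2.2 (p * j) (Nat.mul_pos hp.pos hj) (Nat.mul_lt_mul_of_pos_left hjq hp.pos)) x hxq
  -- Bezout
  have hcop : IsCoprime (p : ℤ) (q : ℤ) :=
    Nat.isCoprime_iff_coprime.mpr ((Nat.coprime_primes hp hq).mpr hpq)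
  obtain ⟨a, b, hab⟩ := hcop
  -- `f = N_p x₁`
  set f := pw s Np x₁ with hf
  have hfp : pw s (X ^ p - 1) f = 0 := by
    rw [hf, ← hmul, mul_comm, hmul, hx₁, hxp]
  have hfq : pw s (X ^ q - 1) f = 0 := by
    rw [hf, ← hmul, gp, hkill]
  have hfix : ∀ (m : ℕ), pw s (X ^ m - 1) f = 0 → ∀ j : ℕ, pw s (X ^ (m * j)) f = f := by
    intro m hm j
    induction j with
    | zero => rw [mul_zero, pow_zero, hone]
    | succ j ih =>
      have h1 : pw s (X ^ m) f = f := by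
        rw [hsub, hone, sub_eq_zero] at hm
        exact hm
      rw [Nat.mul_succ, pow_add, hmul, h1, ih]
  have hsum : ∀ (ι : Type) (S : Finset ι) (g : ι → ℤ[X]) (y : Additive Ωˣ),
      pw s (∑ i ∈ S, g i) y = ∑ i ∈ S, pw s (g i) y := fun ι S g y =>
    (hPw Ω s y y).2.2.2.2.2.2.1 ι S g
  have hNpf : pw s Np f = (p : ℤ) • f := by
    rw [hNp, hsum, Finset.sum_congr rfl fun j _ => hfix q hfq j, Finset.sum_const,
      Finset.card_range, natCast_zsmul]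
  have hNqf : pw s Nq f = (q : ℤ) • f := by
    rw [hNq, hsum, Finset.sum_congr rfl fun j _ => hfix p hfp j, Finset.sum_const,
      Finset.card_range, natCast_zsmul]
  -- `x₂`
  set G : ℤ[X] := 1 - (C a * Np + C b * Nq) with hG
  set x₂ := pw s G x₁ with hx₂
  have hGx : (X ^ p - 1 : ℤ[X]) * G = (X ^ p - 1) - (C a * Np * (X ^ p - 1) +
      C b * (X ^ (p * q) - 1)) := by
    rw [hG, ← gq]
    ring
  have h2x : pw s (X ^ p - 1) x₂ = x := by
    rw [hx₂, ← hmul, hGx, hsub, hadd, hmul x₁ (C a * Np), hx₁, hmul x (C a), hxp, map_zero,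
      hmul x₁ (C b), hkill, map_zero, add_zero, sub_zero]
  have h2n : pw s Np x₂ = 0 := by
    have h3 : Np * G = Np - (C a * (Np * Np) + C b * (Nq * Np)) := by
      rw [hG]
      ring
    rw [hx₂, ← hmul, h3, hsub, hadd, hmul x₁ (C a), hmul x₁ Np Np, ← hf, hNpf, hC,
      hmul x₁ (C b), hmul x₁ Nq Np, ← hf, hNqf, hC, smul_smul, smul_smul, ← add_zsmul, hab,
      one_zsmul, sub_self]
  obtain ⟨z', hz', hE'⟩ := ITHH.hil hPw hH σ s hs q p hp.pos (by rwa [mul_comm q p])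
    (fun j hj hjp => hord.2.2 (q * j) (Nat.mul_pos hq.pos hj) (by
      rw [mul_comm p q]
      exact Nat.mul_lt_mul_of_pos_left hjp hq.pos)) x₂ h2n
  refine ⟨z', ?_, fun E hE => ?_⟩
  · rw [hmul, hz', h2x]
  · exact hE' E (fun j => hPwE L Ω s E x₁ (hE₁ E hE) G j)

end Pool.Agent.TorR
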