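import Pool.Agent.Work.MP_88348f_ag.TA.Stmts

set_option autoImplicit false

/-!
# Item Ind of block TA (helper36): the inductive step
-/

open Polynomial
open scoped TensorProduct

namespace Pool.Agent.TorR

namespace ITInd

/-- iterates of a ring automorphism are multiplicative -/
theorem iter_mul {Ω : Type} [Field Ω] (s : Ω ≃+* Ω) (j : ℕ) (a b : Ω) :
    s^[j] (a * b) = s^[j] a * s^[j] b := by
  induction j generalizing a b with
  | zero => rfl
  | succ j ih => rw [Function.iterate_succ_apply, Function.iterate_succ_apply,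
      Function.iterate_succ_apply, map_mul, ih]

theorem free_comp {L Ω : Type} [Field L] [Field Ω] [Algebra L Ω] {s : Ω ≃+* Ω} {ι κ : Type}
    {t : ι → Ω} (h : Free (L := L) s t) (e : κ ≃ ι) : Free (L := L) s (t ∘ e) where
  fix i := h.fix (e i)
  ind := h.ind.comp e e.injective
  gen := by
    rw [e.surjective.range_comp]
    exact h.gen

theorem card_eq {m r' m' : ℕ} (hr : (r' + 1).Prime) (hm : ¬ (r' + 1) ∣ m) :
    Nat.totient (m * (r' + 1)) + (Nat.totient m + (r' + 1) * m') =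
      (Nat.totient m + m') * (r' + 1) := by
  have hc : Nat.Coprime m (r' + 1) := ((Nat.Prime.coprime_iff_not_dvd hr).2 hm).symm
  rw [Nat.totient_mul hc, Nat.totient_prime hr, Nat.add_sub_cancel]
  ring

end ITInd

open ITInd in
theorem pr_Ind (h1 : StUp) (h2 : StOrd) (h3 : StFix) (h4 : StPer) (h5 : StSec) (h6 : StRel)
    (h7 : StPw) (_h8 : StPwE) (h9 : StPwM) (h10 : StCnt) (h11 : StEmb) : StInd := by
  intro m m' r hm hrat hr hrm L _ σ hord
  obtain ⟨r', rfl⟩ : ∃ r', r = r' + 1 := ⟨r - 1, by have := hr.one_lt; omega⟩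
  obtain ⟨σr, hσr, hσro⟩ := h2 L σ m (r' + 1) hord
  obtain ⟨Ω, _, _, s, T, W, Z, hs, hT, hW, hZ, hgen⟩ :=
    h1 L σ σr m (r' + 1) m' hord hσr (hrat L σr hσro)
  have hper : ∀ a : Ω, s^[m * (r' + 1)] a = a := h4 L Ω σ s (m * (r' + 1)) _ T hs hT hord.2.1
  obtain ⟨y, hy1, hy2, hy3⟩ := h5 L Ω σ s m (r' + 1) hs hord hr hrm hper W hW
  obtain ⟨hr1, hr2⟩ := h6 Ω s m (r' + 1) hm hr hrm W y hW hy2 hy1
  set w : Additive Ωˣ := pw s (X ^ m - 1) W with hw
  set t₀ : Additive Ωˣ := W - y with ht₀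
  have hWt : el W = el t₀ * el y := by
    have h := (h7 Ω s t₀ y).2.2.2.2.2.2.2.1
    rw [← h, ht₀, sub_add_cancel]
  -- a field which contains the conjugates of `w` and `t₀`, and `Z`
  have key : ∀ E : IntermediateField L Ω, (∀ j, s^[j] (el w) ∈ E) → (∀ j, s^[j] (el t₀) ∈ E) →
      (∀ p, Z p ∈ E) → E = ⊤ := by
    intro E hE1 hE2 hE3
    have hE4 := hy3 E hE1
    rw [← top_le_iff, ← hgen, IntermediateField.adjoin_le_iff]
    rintro a (⟨j, rfl⟩ | ⟨p, rfl⟩)
    · change s^[j] (el W) ∈ E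
      rw [hWt, iter_mul]
      exact mul_mem (hE2 j) (hE4 j)
    · exact hE3 p
  have hmr : 0 < m * (r' + 1) := Nat.mul_pos hm hr.pos
  -- the generators
  let g : Fin (Nat.totient (m * (r' + 1))) ⊕ (Fin (Nat.totient m) ⊕ (Fin m' × Fin (r' + 1))) → Ω :=
    Sum.elim (fun j => s^[(j : ℕ)] (el w)) (Sum.elim (fun j => s^[(j : ℕ)] (el t₀)) Z)
  have hg : IntermediateField.adjoin L (Set.range g) = ⊤ := by
    have hsub := IntermediateField.subset_adjoin L (Set.range g)
    refine key _ ?_ ?_ ?_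
    · refine h9 L Ω s _ w (cyclotomic (m * (r' + 1)) ℤ) (cyclotomic.monic _ _) hr2 ?_
      intro j hj
      rw [natDegree_cyclotomic] at hj
      exact hsub ⟨Sum.inl ⟨j, hj⟩, rfl⟩
    · refine h9 L Ω s _ t₀ (cyclotomic m ℤ) (cyclotomic.monic _ _) hr1 ?_
      intro j hj
      rw [natDegree_cyclotomic] at hj
      exact hsub ⟨Sum.inr (Sum.inl ⟨j, hj⟩), rfl⟩
    · intro p
      exact hsub ⟨Sum.inr (Sum.inr p), rfl⟩
  have hcard := card_eq (m' := m') hr hrm
  have hind : AlgebraicIndependent L g := by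
    refine h10 L Ω _ _ T g ?_ hT.ind hg
    simp only [Fintype.card_prod, Fintype.card_fin, Fintype.card_sum]
    rw [← hcard]
    ring
  -- the small field
  obtain ⟨L', _, _, σ', hσ', hσ'o⟩ := h3 L σ m (r' + 1) hord
  obtain ⟨u, hu1, hu2⟩ := h11 L' L σ' σ m m' hσ' hm (hrat L' σ' hσ'o) Ω s t₀
    (fun i => Z (i, 0)) hs hr1 (fun i => hZ _) (by
      let f : Fin (Nat.totient m) ⊕ Fin m' →
          Fin (Nat.totient (m * (r' + 1))) ⊕ (Fin (Nat.totient m) ⊕ (Fin m' × Fin (r' + 1))) :=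
        Sum.elim (fun j => Sum.inr (Sum.inl j)) (fun i => Sum.inr (Sum.inr (i, 0)))
      have hf : Function.Injective f := by
        rintro (a | a) (b | b) hab
        · exact congrArg Sum.inl (Sum.inl_injective (Sum.inr_injective hab))
        · exact absurd (Sum.inr_injective hab) (by simp)
        · exact absurd (Sum.inr_injective hab) (by simp)
        · exact congrArg Sum.inr (congrArg Prod.fst (Sum.inr_injective (Sum.inr_injective hab)))
      have h := hind.comp f hf
      have e : g ∘ f = Sum.elim (fun j : Fin (Nat.totient m) => s^[(j : ℕ)] (el t₀))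
          (fun i => Z (i, 0)) := by
        funext a
        rcases a with a | a <;> rfl
      rwa [e] at h)
  -- reindexing
  have hc1 : Fintype.card (Fin (Nat.totient (m * (r' + 1)) +
      (Nat.totient m + (r' + 1) * m'))) =
      Fintype.card (Fin (Nat.totient m + m') × Fin (r' + 1)) := by
    simp only [Fintype.card_prod, Fintype.card_fin]
    exact hcard
  have hc2 : Fintype.card (Fin (Nat.totient m + (r' + 1) * m')) =
      Fintype.card (Fin (Nat.totient m + m') ⊕ (Fin m' × Fin r')) := by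
    simp only [Fintype.card_prod, Fintype.card_fin, Fintype.card_sum]
    ring
  let e1 := Fintype.equivOfCardEq hc1
  let e2 := Fintype.equivOfCardEq hc2
  let v : Fin (Nat.totient m + m') ⊕ (Fin m' × Fin r') → Ω :=
    Sum.elim u (fun p => Z (p.1, p.2.succ))
  refine ⟨Ω, inferInstance, inferInstance, s, T ∘ e1, w, v ∘ e2, hs, free_comp hT e1, hr2, ?_, ?_⟩
  · intro i
    change s (v (e2 i)) = v (e2 i)
    rcases e2 i with a | a
    · exact hu1 a
    · exact hZ _
  · have hsub := IntermediateField.subset_adjoin L (Cj s (el w) ∪ Set.range (v ∘ e2))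
    have hv : ∀ a, v a ∈ IntermediateField.adjoin L (Cj s (el w) ∪ Set.range (v ∘ e2)) := by
      intro a
      exact hsub (Or.inr ⟨e2.symm a, congrArg v (e2.apply_symm_apply a)⟩)
    obtain ⟨hE1, hE2⟩ := hu2 _ (fun i => hv (Sum.inl i))
    refine key _ (fun j => hsub (Or.inl ⟨j, rfl⟩)) hE1 ?_
    rintro ⟨i, j⟩
    refine Fin.cases ?_ (fun j' => ?_) j
    · exact hE2 i
    · exact hv (Sum.inr (i, j'))

end Pool.Agent.TorR
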