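import Pool.Agent.Work.MP_88348f_ag.TA.Stmts

set_option autoImplicit false

/-!
# MP_88348f_ag, block TA, item Ker: the kernel of `(X^p - 1)(X^q - 1)`
-/

open Polynomial
open scoped TensorProduct

namespace Pool.Agent.TorR

namespace ITKer

theorem pow_it {Ω : Type} [Field Ω] (s : Ω ≃+* Ω) (m : ℕ) (a : Ω) :
    ((s ^ m : RingAut Ω) : Ω ≃+* Ω) a = s^[m] a := by
  induction m generalizing a with
  | zero => rfl
  | succ m ih =>
    rw [pow_succ, Function.iterate_succ_apply, ← ih]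
    rfl

theorem it_it {Ω : Type} [Field Ω] (s : Ω ≃+* Ω) (m j : ℕ) (a : Ω) :
    (⇑((s ^ m : RingAut Ω) : Ω ≃+* Ω))^[j] a = s^[m * j] a := by
  have h : (⇑((s ^ m : RingAut Ω) : Ω ≃+* Ω)) = s^[m] := funext fun a => pow_it s m a
  rw [h, Function.iterate_mul]

theorem semi_it {L Ω : Type} [Field L] [Field Ω] [Algebra L Ω] {σ : L ≃+* L} {s : Ω ≃+* Ω}
    (hs : Semi σ s) (j : ℕ) (a : L) :
    s^[j] (algebraMap L Ω a) = algebraMap L Ω (σ^[j] a) := by
  induction j generalizing a with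
  | zero => rfl
  | succ j ih => rw [Function.iterate_succ_apply, hs, ih, Function.iterate_succ_apply]

theorem el_sum {Ω : Type} [Field Ω] (S : Finset ℕ) (f : ℕ → Additive Ωˣ) :
    el (∑ i ∈ S, f i) = ∏ i ∈ S, el (f i) := by
  classical
  induction S using Finset.induction_on with
  | empty => rfl
  | insert a S ha ih =>
    rw [Finset.sum_insert ha, Finset.prod_insert ha, ← ih]
    rfl

/-- the fixed field of an iterate -/
def fixF {Ω : Type} [Field Ω] (s : Ω ≃+* Ω) (m : ℕ) : Subfield Ω :=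
  (((s ^ m : RingAut Ω) : Ω ≃+* Ω) : Ω →+* Ω).eqLocusField (RingHom.id Ω)

theorem mem_fixF {Ω : Type} [Field Ω] (s : Ω ≃+* Ω) (m : ℕ) (a : Ω) :
    a ∈ fixF s m ↔ s^[m] a = a := by
  rw [← pow_it]
  exact Iff.rfl

theorem fixF_it {Ω : Type} [Field Ω] (s : Ω ≃+* Ω) (m j : ℕ) (a : Ω) (ha : a ∈ fixF s m) :
    s^[j] a ∈ fixF s m := by
  rw [mem_fixF] at ha ⊢
  rw [← Function.iterate_add_apply, add_comm, Function.iterate_add_apply, ha]

theorem geo (m r : ℕ) : (∑ j ∈ Finset.range r, X ^ (m * j)) * (X ^ m - 1 : ℤ[X]) =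
    X ^ (m * r) - 1 := by
  have h := mul_geom_sum (X ^ m : ℤ[X]) r
  simp only [← pow_mul] at h
  rw [mul_comm]
  exact h

end ITKer

theorem pr_Ker (h1 : StPw) (h2 : StPwZ) (h3 : StH90) (h4 : StPrim) : StKer := by
  intro L Ω _ _ _ σ s p q hs hp hq hpq hord hper ρ hρ
  have hmul : ∀ (y : Additive Ωˣ) (f g : ℤ[X]), pw s (f * g) y = pw s f (pw s g y) :=
    fun y => (h1 Ω s y y).2.1
  have hsub : ∀ (y : Additive Ωˣ) (f g : ℤ[X]), pw s (f - g) y = pw s f y - pw s g y :=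
    fun y => (h1 Ω s y y).2.2.2.1
  have hone : ∀ (y : Additive Ωˣ), pw s 1 y = y := fun y => (h1 Ω s y y).2.2.2.2.2.1
  have hX : ∀ (y : Additive Ωˣ) (j : ℕ), el (pw s (X ^ j) y) = s^[j] (el y) :=
    fun y => (h1 Ω s y y).1
  -- killed by `X^m - 1` means fixed by `s^[m]`
  have hfix : ∀ (m : ℕ) (y : Additive Ωˣ), pw s (X ^ m - 1) y = 0 → s^[m] (el y) = el y := by
    intro m y h
    rw [hsub, hone, sub_eq_zero] at h
    rw [← hX, h]
  set ρ' := pw s (X ^ q - 1) ρ with hρ'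
  have hp' : s^[p] (el ρ') = el ρ' := by
    apply hfix
    rw [hρ', ← hmul]
    exact hρ
  -- the norm of `ρ'`
  have hN : pw s (∑ j ∈ Finset.range p, X ^ (q * j)) ρ' = 0 := by
    rw [hρ', ← hmul, ITKer.geo]
    exact h2 Ω s (q * p) ρ _ (by rw [mul_comm q p]; exact hper _) dvd_rfl
  have hnz : el ρ' ≠ 0 := (h1 Ω s ρ' ρ').2.2.2.2.2.2.2.2.2.2.2.1
  have hprod : ∏ j ∈ Finset.range p, (⇑((s ^ q : RingAut Ω) : Ω ≃+* Ω))^[j] (el ρ') = 1 := by
    have h5 : el (pw s (∑ j ∈ Finset.range p, X ^ (q * j)) ρ') = 1 := by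
      rw [hN]
      exact (h1 Ω s ρ' ρ').2.2.2.2.2.2.2.2.2.1
    rw [(h1 Ω s ρ' ρ').2.2.2.2.2.2.1, ITKer.el_sum] at h5
    rw [← h5]
    refine Finset.prod_congr rfl fun j _ => ?_
    rw [ITKer.it_it, hX]
  -- an element of the fixed field of `σ^[p]`
  obtain ⟨α, hα, hinj⟩ := h4 L σ q p (by rw [mul_comm q p]; exact hord)
  have hmod : ∀ i j : ℕ, σ^[j + p * i] α = σ^[j] α := by
    intro i
    induction i with
    | zero => intro j; rw [mul_zero, add_zero]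
    | succ i ih =>
      intro j
      rw [mul_add, mul_one, ← add_assoc, Function.iterate_add_apply, hα, ih]
  have hcop : Nat.Coprime p q := (Nat.coprime_primes hp hq).2 hpq
  obtain ⟨c, hcF, hS, hxS⟩ := h3 Ω ((s ^ q : RingAut Ω) : Ω ≃+* Ω) p
    (ITKer.fixF s p) hp.pos (fun a => by rw [ITKer.it_it, mul_comm q p, hper]) (by
      intro j hj hjp
      refine ⟨algebraMap L Ω α, ?_, ?_⟩
      · rw [ITKer.mem_fixF, ITKer.semi_it hs, hα]
      · rw [ITKer.it_it, ITKer.semi_it hs]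
        intro h
        have h6 : σ^[q * j] α = α := (algebraMap L Ω).injective h
        have h7 : σ^[q * j % p] α = σ^[0] α := by
          rw [← hmod (q * j / p) (q * j % p), Nat.mod_add_div, h6]
          rfl
        have h8 := hinj _ _ (Nat.mod_lt _ hp.pos) hp.pos h7
        have h9 : p ∣ j := hcop.dvd_of_dvd_mul_left (Nat.dvd_of_mod_eq_zero h8)
        exact absurd (Nat.le_of_dvd hj h9) (not_le.2 hjp)) (el ρ') hnz hprod
  set S : Ω := ∑ i ∈ Finset.range p, (∏ j ∈ Finset.range i,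
    (⇑((s ^ q : RingAut Ω) : Ω ≃+* Ω))^[j] (el ρ')) *
      (⇑((s ^ q : RingAut Ω) : Ω ≃+* Ω))^[i] c with hSdef
  have hSF : S ∈ ITKer.fixF s p := by
    rw [hSdef]
    refine Subfield.sum_mem _ fun i _ => Subfield.mul_mem _ (Subfield.prod_mem _ fun j _ => ?_) ?_
    · rw [ITKer.it_it]
      exact ITKer.fixF_it s p _ _ ((ITKer.mem_fixF s p _).2 hp')
    · rw [ITKer.it_it]
      exact ITKer.fixF_it s p _ _ hcF
  set h : Additive Ωˣ := Additive.ofMul (Units.mk0 S hS)⁻¹ with hh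
  have hel : el h = S⁻¹ := by
    show (((Units.mk0 S hS)⁻¹ : Ωˣ) : Ω) = S⁻¹
    rw [Units.val_inv_eq_inv_val]
    rfl
  have hq' : pw s (X ^ q - 1) h = ρ' := by
    refine (h1 Ω s _ ρ').2.2.2.2.2.2.2.2.2.2.2.2 ?_
    rw [hsub, hone, sub_eq_add_neg, (h1 Ω s _ _).2.2.2.2.2.2.2.1,
      (h1 Ω s _ ρ').2.2.2.2.2.2.2.2.1, hX, hel, inv_inv]
    have e2 : s^[q] S⁻¹ = (((s ^ q : RingAut Ω) : Ω ≃+* Ω) S)⁻¹ := by
      rw [← ITKer.pow_it, map_inv₀]
    have e3 : ((s ^ q : RingAut Ω) : Ω ≃+* Ω) S ≠ 0 := by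
      intro e
      exact hS ((map_eq_zero_iff _ (RingEquiv.injective _)).mp e)
    rw [e2, inv_mul_eq_iff_eq_mul₀ e3, mul_comm]
    exact hxS.symm
  refine ⟨h, ρ - h, (add_sub_cancel h ρ).symm, ?_, ?_⟩
  · rw [hel]
    exact (ITKer.mem_fixF s p _).1 (Subfield.inv_mem _ hSF)
  · apply hfix
    rw [map_sub, hq', ← hρ', sub_self]

end Pool.Agent.TorR
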