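import Pool.Agent.Work.MP_88348f_ag.TA.Stmts

set_option autoImplicit false

/-!
# Item Kly: two primes (Klyachko)
-/

open Polynomial

namespace Pool.Agent.TorR

namespace ITKly

theorem it_hom {Ω : Type} [Field Ω] (s : Ω ≃+* Ω) (c : ℕ) :
    ∃ S : Ω →+* Ω, ∀ a, S a = s^[c] a :=
  ⟨(s : Ω →+* Ω) ^ c, fun a => by rw [RingHom.coe_pow]; rfl⟩

theorem it_semi {L Ω : Type} [Field L] [Field Ω] [Algebra L Ω] {σ : L ≃+* L} {s : Ω ≃+* Ω}
    (h : Semi σ s) (c : ℕ) (a : L) : s^[c] (algebraMap L Ω a) = algebraMap L Ω (σ^[c] a) := by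
  induction c with
  | zero => rfl
  | succ c ih => rw [Function.iterate_succ_apply', Function.iterate_succ_apply', ih, h]

/-- conjugates of a combination of invariant elements -/
theorem mem_comb {L Ω : Type} [Field L] [Field Ω] [Algebra L Ω] {σ : L ≃+* L} {s : Ω ≃+* Ω}
    (h : Semi σ s) (E : IntermediateField L Ω) {r : ℕ} (e : Fin r → L) (z : Fin r → Ω)
    (hz : ∀ j, s (z j) = z j) (hE : ∀ j, z j ∈ E) (c : ℕ) :
    s^[c] (∑ j, algebraMap L Ω (e j) * z j) ∈ E := by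
  obtain ⟨S, hS⟩ := it_hom s c
  rw [← hS, map_sum]
  refine sum_mem fun j _ => ?_
  rw [map_mul, hS, hS, it_semi h, Function.iterate_fixed (hz j)]
  exact E.mul_mem (E.algebraMap_mem _) (hE j)

/-- conjugates of a polynomial with coefficients in the field -/
theorem mem_poly {L Ω : Type} [Field L] [Field Ω] [Algebra L Ω] {σ : L ≃+* L} {s : Ω ≃+* Ω}
    (h : Semi σ s) (E : IntermediateField L Ω) {r : ℕ} (u : Fin r → Ω) (β : L)
    (c : ℕ) (hE : ∀ i, s^[c] (u i) ∈ E) :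
    s^[c] (∑ i, u i * algebraMap L Ω β ^ (i : ℕ)) ∈ E := by
  obtain ⟨S, hS⟩ := it_hom s c
  rw [← hS, map_sum]
  refine sum_mem fun j _ => ?_
  rw [map_mul, map_pow, hS, hS, it_semi h]
  exact E.mul_mem (hE j) (_root_.pow_mem (E.algebraMap_mem _) _)

theorem cyc_dvd (p q : ℕ) (hp : p.Prime) (hq : q.Prime) (hpq : p ≠ q) :
    (X ^ (p * q) - 1 : ℤ[X]) ∣ cyclotomic (p * q) ℤ * ((X ^ p - 1) * (X ^ q - 1)) := by
  have : Fact p.Prime := ⟨hp⟩
  have h1 : (cyclotomic p ℤ) * (X - 1) = X ^ p - 1 := cyclotomic_prime_mul_X_sub_one ℤ p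
  have hnd : ¬ q ∣ p := fun h => hpq ((Nat.prime_dvd_prime_iff_eq hq hp).1 h).symm
  have h2 : expand ℤ q (cyclotomic p ℤ) = cyclotomic (p * q) ℤ * cyclotomic p ℤ :=
    cyclotomic_expand_eq_cyclotomic_mul hq hnd ℤ
  have h3 : (X ^ (p * q) - 1 : ℤ[X]) = cyclotomic (p * q) ℤ * cyclotomic p ℤ * (X ^ q - 1) := by
    have h4 := congrArg (expand ℤ q) h1
    rw [map_mul, h2, map_sub, map_sub, map_pow, expand_X, map_one, ← pow_mul,
      mul_comm q p] at h4
    exact h4.symm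
  refine ⟨X - 1, ?_⟩
  rw [h3, ← h1]
  ring

theorem card_ne (n : ℕ) (i₀ : Fin n) : Fintype.card {i : Fin n // i ≠ i₀} = n - 1 := by
  rw [Fintype.card_subtype_compl, Fintype.card_fin, Fintype.card_unique]

end ITKly

open ITKly

theorem pr_Kly (h1 : StReg) (h2 : StCoin) (h3 : StPrim) (h4 : StNF) (h5 : StBs) (h6 : StCo)
    (h7 : StCt2) (h8 : StRes) (h9 : StPw) (h10 : StPwE) (h11 : StPwZ) : StKly := by
  intro p q hp hq hpq L _ σ hσ
  have hσ' : Ord σ (q * p) := by rwa [mul_comm]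
  obtain ⟨Ω, iΩ, iA, s, z, hsemi, hper, hind, hgen⟩ := h1 L σ (p * q) hσ
  obtain ⟨x₀, y₀, hx0, hy0, hxq, hyp, hxy⟩ := h2 p q hp hq hpq
  obtain ⟨α, hα, hαi⟩ := h3 L σ q p hσ'
  obtain ⟨β, hβ, hβi⟩ := h3 L σ p q hσ
  obtain ⟨u, w, i₀, j₀, U, V, hu1, hw1, hup, hwq, hmem, hU, hV, hUV⟩ :=
    h4 L Ω σ s p q x₀ y₀ α β z hsemi hp hq hpq hσ hper hx0 hy0 hxq hyp hxy hind hα hαi hβ hβi
  obtain ⟨e, he, hed⟩ := h5 L σ q p hσ'
  obtain ⟨f, hf, hfd⟩ := h5 L σ p q hσ
  have hA := fun i => h6 L Ω σ s p e hsemi hp.pos he hed (u i) (hup i)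
  have hB := fun j => h6 L Ω σ s q f hsemi hq.pos hf hfd (w j) (hwq j)
  choose A hA1 hA2 hA3 using hA
  choose B hB1 hB2 hB3 using hB
  set θ : ℤ[X] := (X ^ p - 1) * (X ^ q - 1) with hθ
  set x : Additive Ωˣ := pw s θ z with hx
  set T : ({i : Fin x₀ // i ≠ i₀} × Fin p) ⊕ ({j : Fin y₀ // j ≠ j₀} × Fin q) → Ω :=
    Sum.elim (fun a => A a.1 a.2) (fun b => B b.1 b.2) with hT
  -- the range of `T` is in the field of the conjugates of `x`
  have hTx : ∀ c, T c ∈ IntermediateField.adjoin L (Cj s (el x)) := by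
    have h12 := hmem (IntermediateField.adjoin L (Cj s (el x))) fun j =>
      IntermediateField.subset_adjoin L _ ⟨j, rfl⟩
    rintro (⟨i, j⟩ | ⟨i, j⟩)
    · exact hA3 i _ (fun c => h12.1 i c) j
    · exact hB3 i _ (fun c => h12.2 i c) j
  -- the conjugates of `x` are in the field generated by `T`
  have hxT : ∀ E : IntermediateField L Ω, (∀ c, T c ∈ E) → ∀ j, s^[j] (el x) ∈ E := by
    intro E hE
    have hu : ∀ i c, s^[c] (u i) ∈ E := by
      intro i c
      by_cases hi : i = i₀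
      · obtain ⟨S, hS⟩ := it_hom s c
        rw [hi, hu1, ← hS, map_one]
        exact E.one_mem
      · rw [hA2 i]
        exact mem_comb hsemi E e (A i) (hA1 i) (fun j => hE (Sum.inl (⟨i, hi⟩, j))) c
    have hw : ∀ i c, s^[c] (w i) ∈ E := by
      intro i c
      by_cases hi : i = j₀
      · obtain ⟨S, hS⟩ := it_hom s c
        rw [hi, hw1, ← hS, map_one]
        exact E.one_mem
      · rw [hB2 i]
        exact mem_comb hsemi E f (B i) (hB1 i) (fun j => hE (Sum.inr (⟨i, hi⟩, j))) c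
    have hUE : ∀ c, s^[c] (el U) ∈ E := fun c => by
      rw [hU]
      exact mem_poly hsemi E u β c fun i => hu i c
    have hVE : ∀ c, s^[c] (el V) ∈ E := fun c => by
      rw [hV]
      exact mem_poly hsemi E w α c fun i => hw i c
    have hUVE : ∀ c, s^[c] (el (U - V)) ∈ E := fun c => by
      obtain ⟨S, hS⟩ := it_hom s c
      obtain ⟨-, -, -, -, -, -, -, hadd, -⟩ := h9 Ω s U (-V)
      obtain ⟨-, -, -, -, -, -, -, -, hneg, -⟩ := h9 Ω s V V
      rw [sub_eq_add_neg, hadd, hneg, ← hS, map_mul, map_inv₀, hS, hS]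
      exact E.mul_mem (hUE c) (E.inv_mem (hVE c))
    intro j
    rw [hUV]
    exact h10 L Ω s E (U - V) hUVE θ j
  have hcard : Fintype.card (({i : Fin x₀ // i ≠ i₀} × Fin p) ⊕ ({j : Fin y₀ // j ≠ j₀} × Fin q)) =
      (p - 1) * (q - 1) := by
    rw [Fintype.card_sum, Fintype.card_prod, Fintype.card_prod, card_ne, card_ne,
      Fintype.card_fin, Fintype.card_fin]
    obtain ⟨x₁, rfl⟩ : ∃ x₁, x₀ = x₁ + 1 := ⟨x₀ - 1, by omega⟩
    obtain ⟨y₁, rfl⟩ : ∃ y₁, y₀ = y₁ + 1 := ⟨y₀ - 1, by omega⟩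
    obtain ⟨p₁, hp1⟩ : ∃ p₁, p = p₁ + 1 := ⟨p - 1, by have := hp.pos; omega⟩
    obtain ⟨q₁, hq1⟩ : ∃ q₁, q = q₁ + 1 := ⟨q - 1, by have := hq.pos; omega⟩
    rw [hp1, hq1] at hxy ⊢
    simp only [Nat.add_sub_cancel]
    nlinarith
  have htot : Nat.totient (p * q) = (p - 1) * (q - 1) := by
    rw [Nat.totient_mul ((Nat.coprime_primes hp hq).2 hpq), Nat.totient_prime hp,
      Nat.totient_prime hq]
  have ε : Fin ((p - 1) * (q - 1)) ≃
      ({i : Fin x₀ // i ≠ i₀} × Fin p) ⊕ ({j : Fin y₀ // j ≠ j₀} × Fin q) :=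
    Fintype.equivOfCardEq (by rw [hcard, Fintype.card_fin])
  have ε' : Fin (Nat.totient (p * q)) ≃
      ({i : Fin x₀ // i ≠ i₀} × Fin p) ⊕ ({j : Fin y₀ // j ≠ j₀} × Fin q) :=
    Fintype.equivOfCardEq (by rw [hcard, Fintype.card_fin, htot])
  have hr1 : Set.range (fun i => T (ε i)) = Set.range T := ε.surjective.range_comp T
  have hr2 : Set.range (fun i => T (ε' i)) = Set.range T := ε'.surjective.range_comp T
  have hTi : AlgebraicIndependent L T := by
    have h12 : AlgebraicIndependent L (fun i => T (ε i)) := by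
      refine h7 L Ω σ s p q z hsemi hp hq hpq hper hind hgen _ fun j => ?_
      rw [hr1]
      exact hxT _ (fun c => IntermediateField.subset_adjoin L _ (Set.mem_range_self c)) j
    have h13 := h12.comp ε.symm ε.symm.injective
    have h14 : ((fun i => T (ε i)) ∘ ε.symm) = T := by
      funext c
      simp
    rwa [h14] at h13
  refine h8 L Ω σ s (p * q) (fun i => T (ε' i)) x hsemi (Nat.mul_pos hp.pos hq.pos) hper ?_
    (hTi.comp ε' ε'.injective) ?_ ?_
  · intro i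
    rcases ε' i with ⟨a, b⟩ | ⟨a, b⟩
    · exact hA1 a b
    · exact hB1 a b
  · rw [hr2]
    refine le_antisymm ?_ ?_
    · rw [IntermediateField.adjoin_le_iff]
      rintro _ ⟨c, rfl⟩
      exact hTx c
    · rw [IntermediateField.adjoin_le_iff]
      rintro _ ⟨j, rfl⟩
      exact hxT _ (fun c => IntermediateField.subset_adjoin L _ (Set.mem_range_self c)) j
  · obtain ⟨-, hmul, -⟩ := h9 Ω s z z
    rw [hx, ← hmul]
    exact h11 Ω s (p * q) z _ (hper _) (cyc_dvd p q hp hq hpq)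

end Pool.Agent.TorR
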