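import Pool.Agent.Work.MP_88348f_ag.TA.Stmts

set_option autoImplicit false

/-!
# Mat: a 0/1 matrix with prescribed row and column sums
-/

namespace Pool.Agent.TorR

namespace ITMat

theorem inj {p c i j y : ℕ} (hi : i < y) (hj : j < y) (hy : y ≤ p)
    (h : (c + i) % p = (c + j) % p) : i = j := by
  have h1 : c + i ≡ c + j [MOD p] := h
  have h2 : i ≡ j [MOD p] := Nat.ModEq.add_left_cancel' c h1
  exact h2.eq_of_lt_of_lt (by omega) (by omega)

theorem cnt {p M : ℕ} (hp : 0 < p) (a : ℕ) (ha : a < p) :
    Nat.count (fun n => n % p = a) (p * M + 1) = M + if a = 0 then 1 else 0 := by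
  have h0 : (fun n => n % p = a) = (· ≡ a [MOD p]) := by
    funext n
    unfold Nat.ModEq
    rw [Nat.mod_eq_of_lt ha]
  rw [Nat.count_succ]
  have h1 : Nat.count (fun n => n % p = a) (p * M) = M := by
    have h2 := Nat.count_modEq_card (p * M) hp a
    rw [Nat.mul_mod_right, Nat.mul_div_cancel_left _ hp, if_neg (by omega), add_zero] at h2
    calc Nat.count (fun n => n % p = a) (p * M)
        = Nat.count (· ≡ a [MOD p]) (p * M) := by
          apply le_antisymm
          · exact Nat.count_mono_left fun n _ hn => by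
              unfold Nat.ModEq; rw [hn, Nat.mod_eq_of_lt ha]
          · exact Nat.count_mono_left fun n _ hn => by
              unfold Nat.ModEq at hn; rw [hn, Nat.mod_eq_of_lt ha]
      _ = M := h2
  rw [h1, Nat.mul_mod_right]
  simp only [eq_comm]

end ITMat

theorem pr_Mat : StMat := by
  intro p q x₀ y₀ hp hq hx hy hxq hyp h
  classical
  obtain ⟨M, hM⟩ : ∃ M, q = x₀ + M := ⟨q - x₀, by omega⟩
  have hqy : q * y₀ = p * M + 1 := by
    have h1 : p * q = p * x₀ + p * M := by rw [hM]; ring
    omega
  let Z : Fin p → Fin q → Bool := fun a b => decide (∃ i < y₀, ((b : ℕ) * y₀ + i) % p = a)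
  have hZ : ∀ a b, Z a b = true ↔ ∃ i < y₀, ((b : ℕ) * y₀ + i) % p = a := fun a b => by
    simp [Z]
  refine ⟨Z, ⟨0, hp⟩, ?_, ?_⟩
  · intro b
    have h1 : (Finset.univ.filter fun a : Fin p => Z a b = true) =
        (Finset.range y₀).image
          (fun i => (⟨((b : ℕ) * y₀ + i) % p, Nat.mod_lt _ hp⟩ : Fin p)) := by
      ext a
      rw [Finset.mem_filter, Finset.mem_image, hZ]
      constructor
      · rintro ⟨-, i, hi, hia⟩
        exact ⟨i, Finset.mem_range.2 hi, Fin.ext hia⟩
      · rintro ⟨i, hi, hia⟩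
        exact ⟨Finset.mem_univ _, i, Finset.mem_range.1 hi, congrArg Fin.val hia⟩
    rw [h1, Finset.card_image_of_injOn, Finset.card_range]
    intro i hi j hj hij
    have hi' : i < y₀ := by simpa using hi
    have hj' : j < y₀ := by simpa using hj
    exact ITMat.inj hi' hj' hyp (congrArg Fin.val hij)
  · intro a
    have h2 : (Finset.univ.filter fun b : Fin q => Z a b = true).card =
        Nat.count (fun n => n % p = (a : ℕ)) (q * y₀) := by
      rw [Nat.count_eq_card_filter_range]
      symm
      refine Finset.card_bij (fun n hn => (⟨n / y₀, ?_⟩ : Fin q)) ?_ ?_ ?_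
      · rw [Finset.mem_filter, Finset.mem_range] at hn
        exact Nat.div_lt_of_lt_mul (by rw [mul_comm]; exact hn.1)
      · intro n hn
        rw [Finset.mem_filter, Finset.mem_range] at hn
        rw [Finset.mem_filter, hZ]
        refine ⟨Finset.mem_univ _, n % y₀, Nat.mod_lt _ hy, ?_⟩
        change (n / y₀ * y₀ + n % y₀) % p = a
        rw [Nat.div_add_mod']
        exact hn.2
      · intro n hn n' hn' hnn
        rw [Finset.mem_filter, Finset.mem_range] at hn hn'
        have h3 : n / y₀ = n' / y₀ := congrArg Fin.val hnn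
        have h4 : n % y₀ = n' % y₀ := by
          refine ITMat.inj (c := n / y₀ * y₀) (Nat.mod_lt _ hy) (Nat.mod_lt _ hy) hyp ?_
          rw [Nat.div_add_mod', h3, Nat.div_add_mod', hn.2, hn'.2]
        rw [← Nat.div_add_mod' n y₀, ← Nat.div_add_mod' n' y₀, h3, h4]
      · intro b hb
        rw [Finset.mem_filter, hZ] at hb
        obtain ⟨-, i, hi, hia⟩ := hb
        refine ⟨(b : ℕ) * y₀ + i, ?_, ?_⟩
        · rw [Finset.mem_filter, Finset.mem_range]
          refine ⟨?_, hia⟩
          have h3 : ((b : ℕ) + 1) * y₀ ≤ q * y₀ := Nat.mul_le_mul_right _ b.2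
          have h4 : ((b : ℕ) + 1) * y₀ = (b : ℕ) * y₀ + y₀ := by ring
          omega
        · refine Fin.ext ?_
          change ((b : ℕ) * y₀ + i) / y₀ = b
          rw [mul_comm, Nat.mul_add_div hy, Nat.div_eq_of_lt hi, add_zero]
    rw [hqy, ITMat.cnt hp a a.2] at h2
    have h5 : (Finset.univ.filter fun b : Fin q => Z a b = true).card +
        (Finset.univ.filter fun b : Fin q => Z a b = false).card = q := by
      have h6 := Finset.card_filter_add_card_filter_not (s := (Finset.univ : Finset (Fin q)))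
        (fun b => Z a b = true)
      simp only [Bool.not_eq_true, Finset.card_univ, Fintype.card_fin] at h6
      exact h6
    have h7 : (a = (⟨0, hp⟩ : Fin p)) ↔ (a : ℕ) = 0 := by rw [Fin.ext_iff]
    by_cases h8 : (a : ℕ) = 0
    · rw [if_pos (h7.2 h8)]
      rw [if_pos h8] at h2
      omega
    · rw [if_neg (fun h9 => h8 (h7.1 h9))]
      rw [if_neg h8] at h2
      omega

end Pool.Agent.TorR
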