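import Pool.Agent.Work.MP_88348f_ag.TA.Stmts

set_option autoImplicit false

/-!
# MP_88348f_ag, item TA NF: the normal form
-/

open Polynomial

namespace Pool.Agent.TorR

namespace ITNF

variable {Ω : Type} [Field Ω]

/-- the iterates as ring homomorphisms -/
noncomputable def R (s : Ω ≃+* Ω) (n : ℕ) : Ω →+* Ω := (s : Ω →+* Ω) ^ n

lemma R_apply (s : Ω ≃+* Ω) (n : ℕ) (a : Ω) : R s n a = s^[n] a := by
  unfold R
  rw [RingHom.coe_pow]
  rfl

lemma it_mul (s : Ω ≃+* Ω) (n : ℕ) (a b : Ω) : s^[n] (a * b) = s^[n] a * s^[n] b := by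
  rw [← R_apply, ← R_apply, ← R_apply, map_mul]

lemma it_div (s : Ω ≃+* Ω) (n : ℕ) (a b : Ω) : s^[n] (a / b) = s^[n] a / s^[n] b := by
  rw [← R_apply, ← R_apply, ← R_apply, map_div₀]

lemma it_ne (s : Ω ≃+* Ω) (n : ℕ) {a : Ω} (h : a ≠ 0) : s^[n] a ≠ 0 := by
  rw [← R_apply]
  exact (_root_.map_ne_zero _).2 h

lemma it_sum (s : Ω ≃+* Ω) (n : ℕ) {d : ℕ} (c : Fin d → Ω) (r : Ω) :
    s^[n] (∑ i : Fin d, c i * r ^ (i : ℕ)) = ∑ i : Fin d, s^[n] (c i) * (s^[n] r) ^ (i : ℕ) := by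
  rw [← R_apply, map_sum]
  refine Finset.sum_congr rfl fun i _ => ?_
  rw [map_mul, map_pow, R_apply, R_apply]

lemma per (s : Ω ≃+* Ω) {m a b : ℕ} {y : Ω} (h : s^[m] y = y) (hab : a ≡ b [MOD m]) :
    s^[a] y = s^[b] y := by
  have h' : Function.IsPeriodicPt s m y := h
  have hab' : a % m = b % m := hab
  rw [← h'.iterate_mod_apply a, ← h'.iterate_mod_apply b, hab']

lemma semi_iter {L : Type} [Field L] [Algebra L Ω] {σ : L ≃+* L} {s : Ω ≃+* Ω} (hS : Semi σ s)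
    (n : ℕ) (a : L) : s^[n] (algebraMap L Ω a) = algebraMap L Ω (σ^[n] a) := by
  induction n generalizing a with
  | zero => rfl
  | succ n ih => rw [Function.iterate_succ_apply, hS, ih, ← Function.iterate_succ_apply σ]

/-- the cocycle -/
noncomputable def K (s : Ω ≃+* Ω) (κ : Ω) : ℕ → Ω
  | 0 => 1
  | n + 1 => s (K s κ n) * κ

lemma K_ne (s : Ω ≃+* Ω) {κ : Ω} (hκ : κ ≠ 0) (n : ℕ) : K s κ n ≠ 0 := by
  induction n with
  | zero => simp [K]
  | succ n ih =>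
    rw [K]
    exact mul_ne_zero ((_root_.map_ne_zero s).2 ih) hκ

lemma K_add (s : Ω ≃+* Ω) (κ : Ω) (m n : ℕ) :
    K s κ (m + n) = s^[m] (K s κ n) * K s κ m := by
  induction m with
  | zero => simp [K]
  | succ m ih =>
    rw [Nat.add_right_comm m 1 n, K, ih, map_mul, K, Function.iterate_succ_apply' s m, mul_assoc]

lemma K_F (s : Ω ≃+* Ω) (κ : Ω) (F : ℕ → Ω) (hF : ∀ n, s (F n) = κ * F (n + 1)) (n m : ℕ) :
    s^[n] (F m) = K s κ n * F (m + n) := by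
  induction n with
  | zero => simp [K]
  | succ n ih =>
    rw [Function.iterate_succ_apply' s n, ih, map_mul, hF, K, ← add_assoc, mul_assoc]

lemma van {d n : ℕ} (hd : d ≤ n) (r : Fin n → Ω) (hr : Function.Injective r) (c : Fin d → Ω)
    (h : ∀ a, ∑ j : Fin d, c j * r a ^ (j : ℕ) = 0) : ∀ j, c j = 0 := by
  have := Matrix.eq_zero_of_forall_index_sum_mul_pow_eq_zero (R := Ω) (f := r ∘ Fin.castLE hd)
    (v := c) (hr.comp (Fin.castLE_injective hd)) (fun i => h _)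
  intro j
  rw [this]
  rfl

lemma cyc_dvd {p q : ℕ} (hp : p.Prime) (hq : q.Prime) (hpq : p ≠ q) :
    (X ^ (p * q) - 1 : ℤ[X]) ∣ cyclotomic (p * q) ℤ * ((X ^ p - 1) * (X ^ q - 1)) := by
  have := Fact.mk hp
  have h1 : cyclotomic p ℤ * (X - 1) = X ^ p - 1 := cyclotomic_prime_mul_X_sub_one ℤ p
  have h2 : expand ℤ q (cyclotomic p ℤ) = cyclotomic (p * q) ℤ * cyclotomic p ℤ :=
    cyclotomic_expand_eq_cyclotomic_mul hq
      (fun hd => hpq ((Nat.prime_dvd_prime_iff_eq hq hp).1 hd).symm) ℤ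
  have h3 : expand ℤ q (cyclotomic p ℤ) * (X ^ q - 1) = X ^ (p * q) - 1 := by
    have := congrArg (expand ℤ q) h1
    rw [map_mul, map_sub, map_sub, map_pow, map_one, expand_X] at this
    rw [this, ← pow_mul, mul_comm q p]
  refine ⟨X - 1, ?_⟩
  rw [← h3, h2, ← h1]
  ring

/-- the core of the proof: the equations, indexed by all numbers -/
lemma core (s : Ω ≃+* Ω) (p q x₀ y₀ : ℕ) (α : Ω) (hp : 0 < p) (hq : 0 < q)
    (hyp : y₀ ≤ p) (κ : Ω) (hκ : κ ≠ 0)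
    (F : ℕ → Fin x₀ → Ω) (G : ℕ → Fin y₀ → Ω)
    (hF : ∀ n i, s (F n i) = κ * F (n + 1) i) (hG : ∀ n j, s (G n j) = κ * G (n + 1) j)
    (hFp : ∀ n i, F (n + p) i = F n i) (hGq : ∀ n j, G (n + q) j = G n j)
    (hα : s^[p] α = α)
    (hαi : Function.Injective fun a : Fin p => s^[(a : ℕ)] α)
    (hcrt : ∀ a b : ℕ, ∃ n, n ≡ a [MOD p] ∧ n ≡ b [MOD q])
    (hF0 : ∃ n i, F n i ≠ 0) (hG0 : ∃ n j, G n j ≠ 0) :
    ∃ (i₀ : Fin x₀) (j₀ : Fin y₀), (∀ n, F n i₀ ≠ 0) ∧ (∀ n, G n j₀ ≠ 0) ∧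
      ∑ j, G 0 j * α ^ (j : ℕ) ≠ 0 ∧
      s^[q] (s^[p] (F 0 i₀) / F 0 i₀) * (s^[q] (G 0 j₀) / G 0 j₀) =
      s^[p] (s^[q] (G 0 j₀) / G 0 j₀) * (s^[p] (F 0 i₀) / F 0 i₀) := by
  have key : ∀ (r : ℕ) (H : ℕ → Ω), 0 < r → (∀ n, s (H n) = κ * H (n + 1)) →
      (∀ n, H (n + r) = H n) → (∃ n, H n ≠ 0) → ∀ n, H n ≠ 0 := by
    intro r H hr hH hHr ⟨m, hm⟩ n
    have h1 : ∀ l, H (m + l) ≠ 0 := by
      intro l hl
      have h2 := K_F s κ H hH l m
      rw [hl, mul_zero] at h2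
      exact it_ne s l hm h2
    have h3 : ∀ t, H (n + t * r) = H n := by
      intro t
      induction t with
      | zero => simp
      | succ t ih => rw [Nat.succ_mul, ← add_assoc, hHr, ih]
    rw [← h3 m]
    have h4 : m ≤ n + m * r := le_trans (Nat.le_mul_of_pos_right m hr) (Nat.le_add_left _ _)
    obtain ⟨l, hl⟩ := Nat.exists_eq_add_of_le h4
    rw [hl]
    exact h1 l
  obtain ⟨nF, i₀, hi₀⟩ := hF0
  obtain ⟨nG, j₀, hj₀⟩ := hG0
  have hFi : ∀ n, F n i₀ ≠ 0 :=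
    key p (fun n => F n i₀) hp (fun n => hF n i₀) (fun n => hFp n i₀) ⟨nF, hi₀⟩
  have hGj : ∀ n, G n j₀ ≠ 0 :=
    key q (fun n => G n j₀) hq (fun n => hG n j₀) (fun n => hGq n j₀) ⟨nG, hj₀⟩
  refine ⟨i₀, j₀, hFi, hGj, ?_, ?_⟩
  · intro h0
    have h1 : ∀ n, ∑ j, G n j * (s^[n] α) ^ (j : ℕ) = 0 := by
      intro n
      have h2 := congrArg (s^[n]) h0
      rw [it_sum, ← R_apply s n 0, _root_.map_zero] at h2
      have h3 : ∀ j, s^[n] (G 0 j) = K s κ n * G n j := by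
        intro j
        have := K_F s κ (fun n => G n j) (fun n => hG n j) n 0
        simpa using this
      simp only [h3, mul_assoc] at h2
      rw [← Finset.mul_sum] at h2
      exact (mul_eq_zero.1 h2).resolve_left (K_ne s hκ n)
    have h4 : ∀ n, ∀ t, ∀ j, G (n + t * q) j = G n j := by
      intro n t j
      induction t with
      | zero => simp
      | succ t ih => rw [Nat.succ_mul, ← add_assoc, hGq, ih]
    have h5 : ∀ a b j, a ≡ b [MOD q] → G a j = G b j := by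
      intro a b j hab
      have e1 := h4 (a % q) (a / q) j
      have e2 := h4 (b % q) (b / q) j
      rw [Nat.mod_add_div' a q] at e1
      rw [Nat.mod_add_div' b q] at e2
      have hab' : a % q = b % q := hab
      rw [e1, e2, hab']
    have h6 : ∀ j, G 0 j = 0 := by
      refine van hyp (fun a : Fin p => s^[(a : ℕ)] α) hαi (G 0) ?_
      intro a
      obtain ⟨n, hn1, hn2⟩ := hcrt a 0
      have h7 := h1 n
      rw [per s hα hn1] at h7
      rw [← h7]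
      refine Finset.sum_congr rfl fun j _ => ?_
      rw [h5 n 0 j hn2]
    exact hGj 0 (h6 j₀)
  · have e1 : s^[p] (F 0 i₀) = K s κ p * F 0 i₀ := by
      have h := K_F s κ (fun n => F n i₀) (fun n => hF n i₀) p 0
      have h' := hFp 0 i₀
      rw [h, h']
    have e2 : s^[q] (G 0 j₀) = K s κ q * G 0 j₀ := by
      have h := K_F s κ (fun n => G n j₀) (fun n => hG n j₀) q 0
      have h' := hGq 0 j₀
      rw [h, h']
    rw [e1, e2, mul_div_cancel_right₀ _ (hFi 0), mul_div_cancel_right₀ _ (hGj 0), ← K_add,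
      ← K_add, add_comm q p]

end ITNF

open ITNF in
theorem pr_NF (h1 : StPw) (h3 : StPwZ) (h4 : StGen) (h5 : StEx) (h6 : StHH) (h7 : StKer) :
    StNF := by
  intro L Ω _ _ _ σ s p q x₀ y₀ α β z hS hp hq hpq hord hper hx0 hy0 hxq hyp hc hind hα hαi hβ hβi
  have hp0 : 0 < p := hp.pos
  have hq0 : 0 < q := hq.pos
  have cop : Nat.Coprime p q := (Nat.coprime_primes hp hq).2 hpq
  -- formulas for the module
  have eX : ∀ (n : ℕ) (x : Additive Ωˣ), el (pw s (X ^ n - 1) x) = s^[n] (el x) / el x := by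
    intro n x
    obtain ⟨g1, -, -, g4, -, g6, -⟩ := h1 Ω s x x
    rw [g4, g6, sub_eq_add_neg]
    obtain ⟨-, -, -, -, -, -, -, g8, -⟩ := h1 Ω s (pw s (X ^ n) x) (-x)
    obtain ⟨-, -, -, -, -, -, -, -, g9, -⟩ := h1 Ω s x x
    rw [g8, g9, g1, div_eq_mul_inv]
  have eadd : ∀ x y : Additive Ωˣ, el (x + y) = el x * el y := fun x y =>
    (h1 Ω s x y).2.2.2.2.2.2.2.1
  have eneg : ∀ x : Additive Ωˣ, el (-x) = (el x)⁻¹ := fun x =>
    (h1 Ω s x x).2.2.2.2.2.2.2.2.1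
  have ene : ∀ x : Additive Ωˣ, el x ≠ 0 := fun x =>
    (h1 Ω s x x).2.2.2.2.2.2.2.2.2.2.2.1
  have einj : ∀ x y : Additive Ωˣ, el x = el y → x = y := fun x y =>
    (h1 Ω s x y).2.2.2.2.2.2.2.2.2.2.2.2
  have emul : ∀ (f g : ℤ[X]) (x : Additive Ωˣ), pw s (f * g) x = pw s f (pw s g x) :=
    fun f g x => (h1 Ω s x x).2.1 f g
  -- the element z'
  have hx : pw s (cyclotomic (p * q) ℤ) (pw s ((X ^ p - 1) * (X ^ q - 1)) z) = 0 := by
    rw [← emul]
    exact h3 Ω s (p * q) z _ (hper _) (cyc_dvd hp hq hpq)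
  obtain ⟨z', hz'1, hz'2⟩ := h6 L Ω σ s p q hS hp hq hpq hord hper _ hx
  have hρ : pw s ((X ^ p - 1) * (X ^ q - 1)) (z - z') = 0 := by
    rw [map_sub, hz'1, sub_self]
  obtain ⟨h, h', hhh, hh, hh'⟩ := h7 L Ω σ s p q hS hp hq hpq hord hper _ hρ
  have hzz : z = z' + h + h' := by
    rw [add_assoc, ← hhh]
    abel
  have hzm : ∀ n, s^[n] (el z) = s^[n] (el z') * s^[n] (el h) * s^[n] (el h') := by
    intro n
    rw [hzz, eadd, eadd, it_mul, it_mul]
  -- indices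
  let J : Fin p → Fin q → ℕ := fun a b => (Nat.chineseRemainder cop (a : ℕ) (b : ℕ) : ℕ)
  have J1 : ∀ a b, J a b ≡ (a : ℕ) [MOD p] := fun a b => (Nat.chineseRemainder cop _ _).2.1
  have J2 : ∀ a b, J a b ≡ (b : ℕ) [MOD q] := fun a b => (Nat.chineseRemainder cop _ _).2.2
  have Jlt : ∀ a b, J a b < p * q := fun a b =>
    Nat.chineseRemainder_lt_mul cop _ _ hp0.ne' hq0.ne'
  have Jn : ∀ (n : ℕ) (a : Fin p) (b : Fin q), n ≡ (a : ℕ) [MOD p] → n ≡ (b : ℕ) [MOD q] →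
      J a b ≡ n [MOD p * q] := by
    intro n a b ha hb
    exact (Nat.modEq_and_modEq_iff_modEq_mul cop).1 ⟨(J1 a b).trans ha.symm, (J2 a b).trans hb.symm⟩
  let mp : ℕ → Fin p := fun n => ⟨n % p, Nat.mod_lt _ hp0⟩
  let mq : ℕ → Fin q := fun n => ⟨n % q, Nat.mod_lt _ hq0⟩
  have mp1 : ∀ n, n ≡ (mp n : ℕ) [MOD p] := fun n => (Nat.mod_modEq n p).symm
  have mq1 : ∀ n, n ≡ (mq n : ℕ) [MOD q] := fun n => (Nat.mod_modEq n q).symm
  have mp2 : ∀ (n : ℕ) (a : Fin p), n ≡ (a : ℕ) [MOD p] → mp n = a := by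
    intro n a hna
    apply Fin.ext
    have : n % p = (a : ℕ) % p := hna
    show n % p = a
    rw [this, Nat.mod_eq_of_lt a.2]
  have mq2 : ∀ (n : ℕ) (a : Fin q), n ≡ (a : ℕ) [MOD q] → mq n = a := by
    intro n a hna
    apply Fin.ext
    have : n % q = (a : ℕ) % q := hna
    show n % q = a
    rw [this, Nat.mod_eq_of_lt a.2]
  have hα' : ∀ n, s^[n] (algebraMap L Ω α) = algebraMap L Ω (σ^[n] α) := fun n => semi_iter hS n α
  have hβ' : ∀ n, s^[n] (algebraMap L Ω β) = algebraMap L Ω (σ^[n] β) := fun n => semi_iter hS n β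
  have hαp : s^[p] (algebraMap L Ω α) = algebraMap L Ω α := by rw [hα', hα]
  have hβq : s^[q] (algebraMap L Ω β) = algebraMap L Ω β := by rw [hβ', hβ]
  have injL : Function.Injective (algebraMap L Ω) := (algebraMap L Ω).injective
  have hαi' : Function.Injective fun a : Fin p => σ^[(a : ℕ)] α := fun a b hab =>
    Fin.ext (hαi a b a.2 b.2 hab)
  have hβi' : Function.Injective fun b : Fin q => σ^[(b : ℕ)] β := fun a b hab =>
    Fin.ext (hβi a b a.2 b.2 hab)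
  -- the field E₀
  let E₀ : IntermediateField L Ω := IntermediateField.adjoin L
    (Cj s (el (pw s ((X ^ p - 1) * (X ^ q - 1)) z)))
  have hE₀ : ∀ j, s^[j] (el (pw s ((X ^ p - 1) * (X ^ q - 1)) z)) ∈ E₀ := fun j =>
    IntermediateField.subset_adjoin L _ ⟨j, rfl⟩
  have hE₀' : ∀ E : IntermediateField L Ω,
      (∀ j, s^[j] (el (pw s ((X ^ p - 1) * (X ^ q - 1)) z)) ∈ E) → E₀ ≤ E := by
    intro E hE
    refine IntermediateField.adjoin_le_iff.2 ?_
    rintro _ ⟨j, rfl⟩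
    exact hE j
  -- the solution v'
  obtain ⟨v, hvE, hvS, ⟨c1, hc1⟩, ⟨c2, hc2⟩⟩ := h5 Ω E₀.toSubfield p q x₀ y₀
    (fun a => algebraMap L Ω (σ^[(a : ℕ)] α)) (fun b => algebraMap L Ω (σ^[(b : ℕ)] β))
    (fun a b => s^[J a b] (el z')) hp0 hq0 hxq hyp hc (injL.comp hαi') (injL.comp hβi')
    (fun a => E₀.algebraMap_mem _) (fun b => E₀.algebraMap_mem _)
    (fun a b => hz'2 E₀ hE₀ _) (fun a b => it_ne s _ (ene z'))
  -- uniqueness
  have huniq : ∀ v₂ : (Fin p × Fin x₀) ⊕ (Fin q × Fin y₀) → Ω,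
      Sol (fun a => algebraMap L Ω (σ^[(a : ℕ)] α)) (fun b => algebraMap L Ω (σ^[(b : ℕ)] β))
        (fun a b => s^[J a b] (el z')) v₂ → ∃ c : Ω, v₂ = c • v := by
    intro v₂ hv₂
    let zz : Fin p → Fin q → Ω := fun a b => s^[J a b] (el z)
    let T : ((Fin p × Fin x₀) ⊕ (Fin q × Fin y₀) → Ω) → (Fin p × Fin x₀) ⊕ (Fin q × Fin y₀) → Ω :=
      fun v => Sum.elim (fun c => v (Sum.inl c) * s^[(c.1 : ℕ)] (el h))
        (fun c => v (Sum.inr c) / s^[(c.1 : ℕ)] (el h'))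
    have hT : ∀ v, Sol (fun a => algebraMap L Ω (σ^[(a : ℕ)] α))
        (fun b => algebraMap L Ω (σ^[(b : ℕ)] β)) (fun a b => s^[J a b] (el z')) v →
        Sol (fun a => algebraMap L Ω (σ^[(a : ℕ)] α))
        (fun b => algebraMap L Ω (σ^[(b : ℕ)] β)) zz (T v) := by
      intro v hv a b
      have e := hv a b
      have e1 : zz a b = s^[J a b] (el z') * s^[(a : ℕ)] (el h) * s^[(b : ℕ)] (el h') := by
        show s^[J a b] (el z) = _
        rw [hzm, per s hh (J1 a b), per s hh' (J2 a b)]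
      have hne : s^[(b : ℕ)] (el h') ≠ 0 := it_ne s _ (ene h')
      have e2 : ∑ i : Fin x₀, T v (Sum.inl (a, i)) * (algebraMap L Ω (σ^[(b : ℕ)] β)) ^ (i : ℕ) =
          s^[(a : ℕ)] (el h) *
          ∑ i : Fin x₀, v (Sum.inl (a, i)) * (algebraMap L Ω (σ^[(b : ℕ)] β)) ^ (i : ℕ) := by
        rw [Finset.mul_sum]
        refine Finset.sum_congr rfl fun i _ => ?_
        show v (Sum.inl (a, i)) * s^[(a : ℕ)] (el h) * _ = _
        ring
      have e3 : ∑ j : Fin y₀, T v (Sum.inr (b, j)) * (algebraMap L Ω (σ^[(a : ℕ)] α)) ^ (j : ℕ) =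
          (s^[(b : ℕ)] (el h'))⁻¹ *
          ∑ j : Fin y₀, v (Sum.inr (b, j)) * (algebraMap L Ω (σ^[(a : ℕ)] α)) ^ (j : ℕ) := by
        rw [Finset.mul_sum]
        refine Finset.sum_congr rfl fun j _ => ?_
        show v (Sum.inr (b, j)) / s^[(b : ℕ)] (el h') * _ = _
        rw [div_eq_mul_inv]
        ring
      show ∑ i : Fin x₀, T v (Sum.inl (a, i)) * (algebraMap L Ω (σ^[(b : ℕ)] β)) ^ (i : ℕ) =
        zz a b * ∑ j : Fin y₀, T v (Sum.inr (b, j)) * (algebraMap L Ω (σ^[(a : ℕ)] α)) ^ (j : ℕ)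
      rw [e2, e3, e1]
      have e' : ∑ i : Fin x₀, v (Sum.inl (a, i)) * (algebraMap L Ω (σ^[(b : ℕ)] β)) ^ (i : ℕ) =
        s^[J a b] (el z') *
          ∑ j : Fin y₀, v (Sum.inr (b, j)) * (algebraMap L Ω (σ^[(a : ℕ)] α)) ^ (j : ℕ) := e
      rw [e']
      field_simp
    have hindep : AlgebraicIndependent L (fun c : Fin p × Fin q => zz c.1 c.2) := by
      refine hind.comp (fun c : Fin p × Fin q => ⟨J c.1 c.2, Jlt c.1 c.2⟩) ?_
      rintro ⟨a, b⟩ ⟨a', b'⟩ hab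
      have hJ : J a b = J a' b' := congrArg Fin.val hab
      have h1 : a = a' := by
        rw [← mp2 (J a b) a (J1 a b), hJ, mp2 _ _ (J1 a' b')]
      have h2 : b = b' := by
        rw [← mq2 (J a b) b (J2 a b), hJ, mq2 _ _ (J2 a' b')]
      rw [h1, h2]
    have hTv : T v ≠ 0 := by
      intro h0
      have := congrFun h0 (Sum.inl c1)
      have h1 : v (Sum.inl c1) * s^[(c1.1 : ℕ)] (el h) = 0 := this
      rcases mul_eq_zero.1 h1 with h2 | h2
      · exact hc1 h2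
      · exact it_ne s _ (ene h) h2
    obtain ⟨c, hc'⟩ := h4 L Ω p q x₀ y₀ (fun a => σ^[(a : ℕ)] α) (fun b => σ^[(b : ℕ)] β) zz hp0 hq0
      hx0 hy0 hxq hyp hc hαi' hβi' hindep (T v) (T v₂) (hT v hvS) (hT v₂ hv₂) hTv
    refine ⟨c, ?_⟩
    funext k
    rcases k with k | k
    · have h1 : v₂ (Sum.inl k) * s^[(k.1 : ℕ)] (el h) =
          c * (v (Sum.inl k) * s^[(k.1 : ℕ)] (el h)) := congrFun hc' (Sum.inl k)
      rw [← mul_assoc] at h1
      exact mul_right_cancel₀ (it_ne s _ (ene h)) h1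
    · have h1 : v₂ (Sum.inr k) / s^[(k.1 : ℕ)] (el h') =
          c * (v (Sum.inr k) / s^[(k.1 : ℕ)] (el h')) := congrFun hc' (Sum.inr k)
      rw [← mul_div_assoc] at h1
      exact (div_left_inj' (it_ne s _ (ene h'))).1 h1
  -- the equations indexed by all numbers
  have hN : ∀ n, ∑ i : Fin x₀, v (Sum.inl (mp n, i)) * (s^[n] (algebraMap L Ω β)) ^ (i : ℕ) =
      s^[n] (el z') *
        ∑ j : Fin y₀, v (Sum.inr (mq n, j)) * (s^[n] (algebraMap L Ω α)) ^ (j : ℕ) := by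
    intro n
    have e : ∑ i : Fin x₀, v (Sum.inl (mp n, i)) *
        (algebraMap L Ω (σ^[(mq n : ℕ)] β)) ^ (i : ℕ) = s^[J (mp n) (mq n)] (el z') *
        ∑ j : Fin y₀, v (Sum.inr (mq n, j)) * (algebraMap L Ω (σ^[(mp n : ℕ)] α)) ^ (j : ℕ) :=
      hvS (mp n) (mq n)
    rw [← hα', ← hβ', per s (hper _) (Jn n _ _ (mp1 n) (mq1 n)), ← per s hαp (mp1 n),
      ← per s hβq (mq1 n)] at e
    exact e
  have mpc : ∀ n m, n ≡ m [MOD p] → mp n = mp m := fun n m hnm => mp2 n _ (hnm.trans (mp1 m))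
  have mqc : ∀ n m, n ≡ m [MOD q] → mq n = mq m := fun n m hnm => mq2 n _ (hnm.trans (mq1 m))
  -- the shift
  obtain ⟨κ, hκ⟩ := huniq (Sum.elim (fun c => s (v (Sum.inl (mp ((c.1 : ℕ) + (p - 1)), c.2))))
    (fun c => s (v (Sum.inr (mq ((c.1 : ℕ) + (q - 1)), c.2))))) (by
    intro a b
    set n := J a b + (p * q - 1) with hn
    have hpq1 : 1 ≤ p * q := Nat.mul_pos hp0 hq0
    have hn1 : n + 1 ≡ J a b [MOD p * q] := by
      have : n + 1 = J a b + p * q := by omega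
      rw [this]
      exact Nat.add_modEq_right
    have hn1p : n + 1 ≡ (a : ℕ) [MOD p] := (hn1.of_mul_right q).trans (J1 a b)
    have hn1q : n + 1 ≡ (b : ℕ) [MOD q] := (hn1.of_mul_left p).trans (J2 a b)
    have hap : mp ((a : ℕ) + (p - 1)) = mp n := by
      refine mpc _ _ (Nat.ModEq.add_right_cancel' 1 ?_)
      have : (a : ℕ) + (p - 1) + 1 = a + p := by omega
      rw [this]
      exact (Nat.add_modEq_right).trans hn1p.symm
    have hbq : mq ((b : ℕ) + (q - 1)) = mq n := by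
      refine mqc _ _ (Nat.ModEq.add_right_cancel' 1 ?_)
      have : (b : ℕ) + (q - 1) + 1 = b + q := by omega
      rw [this]
      exact (Nat.add_modEq_right).trans hn1q.symm
    have e := congrArg s (hN n)
    rw [map_mul, map_sum, map_sum] at e
    simp only [map_mul, map_pow, ← Function.iterate_succ_apply' s n] at e
    show ∑ i : Fin x₀, s (v (Sum.inl (mp ((a : ℕ) + (p - 1)), i))) *
        (algebraMap L Ω (σ^[(b : ℕ)] β)) ^ (i : ℕ) = s^[J a b] (el z') *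
        ∑ j : Fin y₀, s (v (Sum.inr (mq ((b : ℕ) + (q - 1)), j))) *
          (algebraMap L Ω (σ^[(a : ℕ)] α)) ^ (j : ℕ)
    rw [hap, hbq, ← hα', ← hβ', ← per s (hper _) hn1, ← per s hαp hn1p, ← per s hβq hn1q]
    exact e)
  let F : ℕ → Fin x₀ → Ω := fun n i => v (Sum.inl (mp n, i))
  let G : ℕ → Fin y₀ → Ω := fun n j => v (Sum.inr (mq n, j))
  have hF : ∀ n i, s (F n i) = κ * F (n + 1) i := by
    intro n i
    have e : s (v (Sum.inl (mp ((mp (n + 1) : ℕ) + (p - 1)), i))) =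
      κ * v (Sum.inl (mp (n + 1), i)) := congrFun hκ (Sum.inl (mp (n + 1), i))
    have e1 : mp ((mp (n + 1) : ℕ) + (p - 1)) = mp n := by
      refine mpc _ _ (Nat.ModEq.add_right_cancel' 1 ?_)
      have : (mp (n + 1) : ℕ) + (p - 1) + 1 = (mp (n + 1) : ℕ) + p := by omega
      rw [this]
      exact (Nat.add_modEq_right).trans (mp1 (n + 1)).symm
    rw [e1] at e
    exact e
  have hG : ∀ n j, s (G n j) = κ * G (n + 1) j := by
    intro n j
    have e : s (v (Sum.inr (mq ((mq (n + 1) : ℕ) + (q - 1)), j))) =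
      κ * v (Sum.inr (mq (n + 1), j)) := congrFun hκ (Sum.inr (mq (n + 1), j))
    have e1 : mq ((mq (n + 1) : ℕ) + (q - 1)) = mq n := by
      refine mqc _ _ (Nat.ModEq.add_right_cancel' 1 ?_)
      have : (mq (n + 1) : ℕ) + (q - 1) + 1 = (mq (n + 1) : ℕ) + q := by omega
      rw [this]
      exact (Nat.add_modEq_right).trans (mq1 (n + 1)).symm
    rw [e1] at e
    exact e
  have hFp : ∀ n i, F (n + p) i = F n i := by
    intro n i
    show v (Sum.inl (mp (n + p), i)) = v (Sum.inl (mp n, i))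
    rw [mpc (n + p) n Nat.add_modEq_right]
  have hGq : ∀ n j, G (n + q) j = G n j := by
    intro n j
    show v (Sum.inr (mq (n + q), j)) = v (Sum.inr (mq n, j))
    rw [mqc (n + q) n Nat.add_modEq_right]
  have hF1 : F (c1.1 : ℕ) c1.2 ≠ 0 := by
    show v (Sum.inl (mp (c1.1 : ℕ), c1.2)) ≠ 0
    rw [mp2 _ c1.1 rfl]
    exact hc1
  have hG1 : G (c2.1 : ℕ) c2.2 ≠ 0 := by
    show v (Sum.inr (mq (c2.1 : ℕ), c2.2)) ≠ 0
    rw [mq2 _ c2.1 rfl]
    exact hc2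
  have hκ0 : κ ≠ 0 := by
    intro h0
    have := hF (c1.1 : ℕ) c1.2
    rw [h0, zero_mul] at this
    exact hF1 ((_root_.map_eq_zero s).1 this)
  obtain ⟨i₀, j₀, hi₀, hj₀, hQ, hcoc⟩ := core s p q x₀ y₀ (algebraMap L Ω α) hp0 hq0 hyp κ hκ0 F G
    hF hG hFp hGq hαp (by
      intro a b hab
      simp only [hα'] at hab
      exact hαi' (injL hab))
    (fun a b => ⟨(Nat.chineseRemainder cop a b : ℕ), (Nat.chineseRemainder cop a b).2.1,
      (Nat.chineseRemainder cop a b).2.2⟩) ⟨_, _, hF1⟩ ⟨_, _, hG1⟩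
  have hFE : ∀ n i, F n i ∈ E₀ := fun n i => hvE _
  have hGE : ∀ n j, G n j ∈ E₀ := fun n j => hvE _
  have hsF : ∀ n i, s^[n] (F 0 i / F 0 i₀) = F n i / F n i₀ := by
    intro n i
    have e1 := K_F s κ (fun n => F n i) (fun n => hF n i) n 0
    have e2 := K_F s κ (fun n => F n i₀) (fun n => hF n i₀) n 0
    rw [zero_add] at e1 e2
    rw [it_div, e1, e2]
    exact mul_div_mul_left _ _ (K_ne s hκ0 n)
  have hsG : ∀ n j, s^[n] (G 0 j / G 0 j₀) = G n j / G n j₀ := by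
    intro n j
    have e1 := K_F s κ (fun n => G n j) (fun n => hG n j) n 0
    have e2 := K_F s κ (fun n => G n j₀) (fun n => hG n j₀) n 0
    rw [zero_add] at e1 e2
    rw [it_div, e1, e2]
    exact mul_div_mul_left _ _ (K_ne s hκ0 n)
  have hP0 : ∑ i : Fin x₀, F 0 i * algebraMap L Ω β ^ (i : ℕ) =
      el z' * ∑ j : Fin y₀, G 0 j * algebraMap L Ω α ^ (j : ℕ) := hN 0
  have hP : ∑ i : Fin x₀, F 0 i * algebraMap L Ω β ^ (i : ℕ) ≠ 0 := by
    rw [hP0]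
    exact mul_ne_zero (ene z') hQ
  have hU : ∑ i : Fin x₀, F 0 i / F 0 i₀ * algebraMap L Ω β ^ (i : ℕ) =
      (∑ i : Fin x₀, F 0 i * algebraMap L Ω β ^ (i : ℕ)) / F 0 i₀ := by
    rw [Finset.sum_div]
    refine Finset.sum_congr rfl fun i _ => ?_
    ring
  have hV : ∑ j : Fin y₀, G 0 j / G 0 j₀ * algebraMap L Ω α ^ (j : ℕ) =
      (∑ j : Fin y₀, G 0 j * algebraMap L Ω α ^ (j : ℕ)) / G 0 j₀ := by
    rw [Finset.sum_div]
    refine Finset.sum_congr rfl fun i _ => ?_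
    ring
  have hU0 : ∑ i : Fin x₀, F 0 i / F 0 i₀ * algebraMap L Ω β ^ (i : ℕ) ≠ 0 := by
    rw [hU]
    exact div_ne_zero hP (hi₀ 0)
  have hV0 : ∑ j : Fin y₀, G 0 j / G 0 j₀ * algebraMap L Ω α ^ (j : ℕ) ≠ 0 := by
    rw [hV]
    exact div_ne_zero hQ (hj₀ 0)
  let U : Additive Ωˣ := Additive.ofMul (Units.mk0 _ hU0)
  let V : Additive Ωˣ := Additive.ofMul (Units.mk0 _ hV0)
  let f : Additive Ωˣ := Additive.ofMul (Units.mk0 _ (hi₀ 0))
  let g : Additive Ωˣ := Additive.ofMul (Units.mk0 _ (hj₀ 0))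
  have eU : el U = ∑ i : Fin x₀, F 0 i / F 0 i₀ * algebraMap L Ω β ^ (i : ℕ) := rfl
  have eV : el V = ∑ j : Fin y₀, G 0 j / G 0 j₀ * algebraMap L Ω α ^ (j : ℕ) := rfl
  have ef : el f = F 0 i₀ := rfl
  have eg : el g = G 0 j₀ := rfl
  refine ⟨fun i => F 0 i / F 0 i₀, fun j => G 0 j / G 0 j₀, i₀, j₀, U, V, div_self (hi₀ 0),
    div_self (hj₀ 0), ?_, ?_, ?_, eU, eV, ?_⟩
  · intro i
    have e1 := hFp 0 i
    have e2 := hFp 0 i₀
    rw [zero_add] at e1 e2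
    rw [hsF, e1, e2]
  · intro j
    have e1 := hGq 0 j
    have e2 := hGq 0 j₀
    rw [zero_add] at e1 e2
    rw [hsG, e1, e2]
  · intro E hE
    have hle := hE₀' E hE
    refine ⟨fun i c => ?_, fun j c => ?_⟩
    · rw [hsF]
      exact E.div_mem (hle (hFE c i)) (hle (hFE c i₀))
    · rw [hsG]
      exact E.div_mem (hle (hGE c j)) (hle (hGE c j₀))
  · rw [← hz'1]
    have hzUV : z' = (U - V) + (f - g) := by
      apply einj
      rw [sub_eq_add_neg, sub_eq_add_neg, eadd, eadd, eadd, eneg, eneg, eU, eV, ef, eg, hU, hV, hP0]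
      have n1 := hi₀ 0
      have n2 := hj₀ 0
      field_simp
    have hfg : pw s ((X ^ p - 1) * (X ^ q - 1)) f = pw s ((X ^ p - 1) * (X ^ q - 1)) g := by
      rw [emul _ _ g, mul_comm (X ^ p - 1 : ℤ[X]), emul]
      apply einj
      rw [eX, eX, eX, eX, ef, eg]
      have n1 : s^[p] (F 0 i₀) / F 0 i₀ ≠ 0 := div_ne_zero (it_ne s _ (hi₀ 0)) (hi₀ 0)
      have n2 : s^[q] (G 0 j₀) / G 0 j₀ ≠ 0 := div_ne_zero (it_ne s _ (hj₀ 0)) (hj₀ 0)
      rw [div_eq_div_iff n1 n2]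
      exact hcoc
    conv_lhs => rw [hzUV]
    rw [map_add, map_sub _ f g, hfg, sub_self, add_zero]

end Pool.Agent.TorR
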