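import Pool.Agent.Work.MP_88348f_ag.TA.Stmts

set_option autoImplicit false

open Polynomial
open scoped TensorProduct

namespace Pool.Agent.TorR

namespace ITNN

/-- two ring homomorphisms which agree on the constants and on generators are equal -/
theorem ext_gen {L Ω' Ω : Type} [Field L] [Field Ω'] [Field Ω] [Algebra L Ω'] {ι : Type}
    (t : ι → Ω') (ht : IntermediateField.adjoin L (Set.range t) = ⊤) (f g : Ω' →+* Ω)
    (h0 : ∀ a : L, f (algebraMap L Ω' a) = g (algebraMap L Ω' a)) (h1 : ∀ i, f (t i) = g (t i)) :
    ∀ a, f a = g a := by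
  let E : IntermediateField L Ω' :=
    { carrier := {a | f a = g a}
      mul_mem' := by
        intro a b ha hb
        simp only [Set.mem_ofPred_eq] at *
        rw [map_mul, map_mul, ha, hb]
      one_mem' := by simp
      add_mem' := by
        intro a b ha hb
        simp only [Set.mem_ofPred_eq] at *
        rw [map_add, map_add, ha, hb]
      zero_mem' := by simp
      algebraMap_mem' := h0
      inv_mem' := by
        intro a ha
        simp only [Set.mem_ofPred_eq] at *
        rw [map_inv₀, map_inv₀, ha] }
  have h2 : IntermediateField.adjoin L (Set.range t) ≤ E := by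
    rw [IntermediateField.adjoin_le_iff]
    rintro _ ⟨i, rfl⟩
    exact h1 i
  rw [ht] at h2
  intro a
  exact h2 (IntermediateField.mem_top (x := a))

/-- iterates of a ring isomorphism -/
theorem iter_pow {Ω : Type} [Field Ω] (s : Ω ≃+* Ω) (r : ℕ) (x : Ω) : (s ^ r) x = s^[r] x := by
  induction r generalizing x with
  | zero => rfl
  | succ n ih =>
    rw [pow_succ, Function.iterate_succ_apply, ← ih]; rfl

theorem iter_alg {L Ω : Type} [Field L] [Field Ω] [Algebra L Ω] (σ : L ≃+* L) (s : Ω ≃+* Ω)
    (h : Semi σ s) (r : ℕ) (a : L) : s^[r] (algebraMap L Ω a) = algebraMap L Ω (σ^[r] a) := by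
  induction r with
  | zero => rfl
  | succ n ih => rw [Function.iterate_succ_apply', Function.iterate_succ_apply', ih, h]

/-- the field of rational functions with the automorphism acting on the coefficients -/
theorem fieldC (L : Type) [Field L] (σ : L ≃+* L) (κ : Type) :
    ∃ (Ω : Type) (_ : Field Ω) (_ : Algebra L Ω) (s : Ω ≃+* Ω) (T : κ → Ω),
      Semi σ s ∧ Free (L := L) s T := by
  let s : FractionRing (MvPolynomial κ L) ≃+* FractionRing (MvPolynomial κ L) :=
    IsFractionRing.ringEquivOfRingEquiv (MvPolynomial.mapEquiv κ σ)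
  have hs : ∀ p : MvPolynomial κ L, s (algebraMap _ (FractionRing (MvPolynomial κ L)) p) =
      algebraMap _ (FractionRing (MvPolynomial κ L)) (MvPolynomial.mapEquiv κ σ p) := fun p =>
    IsFractionRing.ringEquivOfRingEquiv_algebraMap _ p
  refine ⟨FractionRing (MvPolynomial κ L), inferInstance, inferInstance, s,
    fun i => algebraMap (MvPolynomial κ L) _ (MvPolynomial.X i), ?_, ?_, ?_, ?_⟩
  · intro a
    have e : ∀ a : L, algebraMap L (FractionRing (MvPolynomial κ L)) a =
        algebraMap (MvPolynomial κ L) _ (MvPolynomial.C a) := fun a =>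
      IsScalarTower.algebraMap_apply L (MvPolynomial κ L) _ a
    rw [e, e, hs]
    simp
  · intro i
    rw [hs]
    simp
  · have h1 : AlgebraicIndependent L (MvPolynomial.X : κ → MvPolynomial κ L) :=
      MvPolynomial.algebraicIndependent_X κ L
    exact h1.map' (f := IsScalarTower.toAlgHom L (MvPolynomial κ L)
      (FractionRing (MvPolynomial κ L))) (IsFractionRing.injective _ _)
  · rw [eq_top_iff]
    intro x _
    obtain ⟨a, b, hb, rfl⟩ := IsFractionRing.div_surjective (A := MvPolynomial κ L) x
    have hp : ∀ p : MvPolynomial κ L, algebraMap (MvPolynomial κ L)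
        (FractionRing (MvPolynomial κ L)) p ∈ IntermediateField.adjoin L (Set.range fun i =>
          algebraMap (MvPolynomial κ L) (FractionRing (MvPolynomial κ L)) (MvPolynomial.X i)) := by
      intro p
      induction p using MvPolynomial.induction_on with
      | C a =>
        have : algebraMap (MvPolynomial κ L) (FractionRing (MvPolynomial κ L))
          (MvPolynomial.C a) = algebraMap L _ a :=
          (IsScalarTower.algebraMap_apply L (MvPolynomial κ L) _ a).symm
        rw [this]
        exact IntermediateField.algebraMap_mem _ a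
      | add p q hp hq => rw [map_add]; exact add_mem hp hq
      | mul_X p i hp =>
        rw [map_mul]
        exact mul_mem hp (IntermediateField.subset_adjoin _ _ ⟨i, rfl⟩)
    exact div_mem (hp a) (hp b)

/-- the embedding of `L(t')` which sends `t'` to algebraically independent elements -/
theorem embC {L Ω' Ω : Type} [Field L] [Field Ω'] [Field Ω] [Algebra L Ω'] [Algebra L Ω]
    {ι : Type} (t : ι → Ω') (ht : AlgebraicIndependent L t)
    (ht' : IntermediateField.adjoin L (Set.range t) = ⊤) (S : ι → Ω)
    (hS : AlgebraicIndependent L S) : ∃ ψ : Ω' →ₐ[L] Ω, ∀ i, ψ (t i) = S i := by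
  let φ1 : FractionRing (MvPolynomial ι L) ≃ₐ[L] Ω' :=
    ht.aevalEquivField.trans
      ((IntermediateField.equivOfEq ht').trans IntermediateField.topEquiv)
  have h1 : ∀ i, φ1 (algebraMap (MvPolynomial ι L) _ (MvPolynomial.X i)) = t i := by
    intro i
    have : φ1 (algebraMap (MvPolynomial ι L) _ (MvPolynomial.X i)) =
      ((ht.aevalEquivField (algebraMap (MvPolynomial ι L) _ (MvPolynomial.X i)) :
        IntermediateField.adjoin L (Set.range t)) : Ω') := rfl
    rw [this, ht.aevalEquivField_algebraMap_apply_coe]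
    simp
  let φ2 : FractionRing (MvPolynomial ι L) →ₐ[L] Ω :=
    (IntermediateField.val _).comp (hS.aevalEquivField : FractionRing (MvPolynomial ι L) →ₐ[L]
      IntermediateField.adjoin L (Set.range S))
  have h2 : ∀ i, φ2 (algebraMap (MvPolynomial ι L) _ (MvPolynomial.X i)) = S i := by
    intro i
    have : φ2 (algebraMap (MvPolynomial ι L) _ (MvPolynomial.X i)) =
      ((hS.aevalEquivField (algebraMap (MvPolynomial ι L) _ (MvPolynomial.X i)) :
        IntermediateField.adjoin L (Set.range S)) : Ω) := rfl
    rw [this, hS.aevalEquivField_algebraMap_apply_coe]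
    simp
  refine ⟨φ2.comp (φ1.symm : Ω' →ₐ[L] FractionRing (MvPolynomial ι L)), fun i => ?_⟩
  rw [AlgHom.comp_apply, ← h1 i]
  have : (φ1.symm : Ω' →ₐ[L] FractionRing (MvPolynomial ι L))
      (φ1 (algebraMap (MvPolynomial ι L) _ (MvPolynomial.X i))) =
      algebraMap (MvPolynomial ι L) _ (MvPolynomial.X i) := φ1.symm_apply_apply _
  rw [this, h2]

end ITNN

open ITNN in
theorem pr_NN (h1 : StCnt) : StNN := by
  intro L _ σ r e Ω' _ _ s' d t' hr he hdet hs' ht'
  obtain ⟨Ω, iF, iA, s, T, hsemi, hT⟩ := fieldC L σ (Fin d × Fin r)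
  -- the conjugates of the coordinates
  set M : Matrix (Fin r) (Fin r) L := Matrix.of fun c j : Fin r => σ^[(c : ℕ)] (e j) with hM
  let Y : Fin d × Fin r → Ω := fun p => ∑ j, algebraMap L Ω (M p.2 j) * T (p.1, j)
  have hYgen : IntermediateField.adjoin L (Set.range Y) = ⊤ := by
    rw [eq_top_iff, ← hT.gen, IntermediateField.adjoin_le_iff]
    rintro _ ⟨⟨i, j⟩, rfl⟩
    have hinv : M⁻¹ * M = 1 := Matrix.nonsing_inv_mul M (isUnit_iff_ne_zero.2 hdet)
    have e1 : T (i, j) = ∑ c, algebraMap L Ω (M⁻¹ j c) * Y (i, c) := by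
      have e2 : ∀ l, ∑ c, M⁻¹ j c * M c l = if j = l then 1 else 0 := by
        intro l
        have := congrFun (congrFun hinv j) l
        rw [Matrix.mul_apply, Matrix.one_apply] at this
        exact this
      calc T (i, j) = ∑ l, algebraMap L Ω (if j = l then 1 else 0) * T (i, l) := by
            rw [Finset.sum_eq_single j]
            · simp
            · intro l _ hl
              rw [if_neg (Ne.symm hl)]; simp
            · intro h; exact absurd (Finset.mem_univ j) h
        _ = ∑ l, ∑ c, algebraMap L Ω (M⁻¹ j c) * (algebraMap L Ω (M c l) * T (i, l)) := by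
            refine Finset.sum_congr rfl fun l _ => ?_
            rw [← e2 l, map_sum, Finset.sum_mul]
            refine Finset.sum_congr rfl fun c _ => ?_
            rw [map_mul, mul_assoc]
        _ = _ := by
            rw [Finset.sum_comm]
            refine Finset.sum_congr rfl fun c _ => ?_
            rw [Finset.mul_sum]
    rw [e1]
    refine sum_mem fun c _ => mul_mem (IntermediateField.algebraMap_mem _ _) ?_
    exact IntermediateField.subset_adjoin _ _ ⟨(i, c), rfl⟩
  have hYind : AlgebraicIndependent L Y := h1 L Ω (Fin d × Fin r) (Fin d × Fin r) T Y rfl hT.ind hYgen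
  let S : Fin d → Ω := fun i => ∑ j, algebraMap L Ω (e j) * T (i, j)
  have hS : AlgebraicIndependent L S := by
    have := hYind.comp (fun i : Fin d => (i, (⟨0, hr⟩ : Fin r))) (fun a b h => (Prod.ext_iff.1 h).1)
    have e3 : Y ∘ (fun i : Fin d => (i, (⟨0, hr⟩ : Fin r))) = S := by
      funext i
      simp only [Function.comp_apply, Y, S, hM, Matrix.of_apply, Function.iterate_zero, id_eq]
    rwa [e3] at this
  obtain ⟨ψ, hψ⟩ := embC t' ht'.ind ht'.gen S hS
  refine ⟨Ω, iF, iA, s, T, ψ, hsemi, hT, ?_, fun i => hψ i⟩
  have key := ext_gen t' ht'.gen (((s ^ r : Ω ≃+* Ω) : Ω →+* Ω).comp (ψ : Ω' →+* Ω))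
    ((ψ : Ω' →+* Ω).comp (s' : Ω' →+* Ω')) ?_ ?_
  · intro a
    have := key a
    simp only [RingHom.comp_apply, RingHom.coe_coe, iter_pow] at this
    exact this
  · intro a
    simp only [RingHom.comp_apply, RingHom.coe_coe, iter_pow, hs', AlgHom.commutes]
    exact iter_alg σ s hsemi r a
  · intro i
    simp only [RingHom.comp_apply, RingHom.coe_coe, iter_pow, ht'.fix, hψ]
    have e5 : ∀ p, s^[r] (T p) = T p := by
      intro p
      exact Function.iterate_fixed (hT.fix p) r
    rw [← iter_pow, map_sum]
    refine Finset.sum_congr rfl fun j _ => ?_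
    rw [map_mul, iter_pow, iter_pow, e5, iter_alg σ s hsemi, he]

end Pool.Agent.TorR
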