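import Pool.Agent.Work.MP_88348f_ag.TA.Stmts

set_option autoImplicit false

/-!
# MP_88348f_ag, block TA, item Nrm: norm relations
-/

open Polynomial
open scoped TensorProduct

namespace Pool.Agent.TorR

namespace ITNrm

lemma bc_mul {k L K : Type} [Field k] [Field L] [Field K] [Algebra k L] [Algebra k K]
    (g h : L ≃ₐ[k] L) (z : L ⊗[k] K) :
    bc ((g * h : L ≃ₐ[k] L) : L →ₐ[k] L) z = bc (g : L →ₐ[k] L) (bc (h : L →ₐ[k] L) z) := by
  induction z using TensorProduct.induction_on with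
  | zero => simp
  | tmul a b => simp [bc]
  | add a b ha hb => rw [map_add, map_add, map_add, ha, hb]

lemma bc_pow {k L K Ω : Type} [Field k] [Field L] [Field K] [Field Ω] [Algebra k L] [Algebra k K]
    (g : L ≃ₐ[k] L) (s : Ω ≃+* Ω) (Θ : L ⊗[k] K ≃+* Ω)
    (h : ∀ x, Θ (bc (g : L →ₐ[k] L) x) = s (Θ x)) (j : ℕ) (z : L ⊗[k] K) :
    Θ (bc ((g ^ j : L ≃ₐ[k] L) : L →ₐ[k] L) z) = s^[j] (Θ z) := by
  induction j generalizing z with
  | zero =>
    have h1 : bc ((g ^ 0 : L ≃ₐ[k] L) : L →ₐ[k] L) z = z := by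
      rw [pow_zero]
      induction z using TensorProduct.induction_on with
      | zero => simp
      | tmul a b => simp [bc]
      | add a b ha hb => rw [map_add, ha, hb]
    rw [h1]
    rfl
  | succ j ih =>
    rw [pow_succ, bc_mul, ih, h, Function.iterate_succ_apply]

lemma el_sum (h1 : StPw) {Ω : Type} [Field Ω] (s : Ω ≃+* Ω) (x : Additive Ωˣ) (d e : ℕ) :
    el (pw s (∑ i ∈ Finset.range d, (X ^ e) ^ i) x) =
      ∏ i ∈ Finset.range d, s^[e * i] (el x) := by
  induction d with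
  | zero =>
    rw [Finset.sum_range_zero, Finset.prod_range_zero]
    have h2 : pw s (0 : ℤ[X]) x = 0 := by
      unfold pw
      rw [map_zero]
      rfl
    rw [h2]
    exact (h1 Ω s x x).2.2.2.2.2.2.2.2.2.1
  | succ d ih =>
    rw [Finset.sum_range_succ, Finset.prod_range_succ, (h1 Ω s x x).2.2.1,
      (h1 Ω s _ _).2.2.2.2.2.2.2.1, ih, ← pow_mul, (h1 Ω s x x).1]

lemma dvd_sum {n d e : ℕ} (hn : e * d = n) (he : e ∈ n.properDivisors) :
    cyclotomic n ℤ ∣ ∑ i ∈ Finset.range d, (X ^ e : ℤ[X]) ^ i := by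
  have h1 := X_pow_sub_one_mul_cyclotomic_dvd_X_pow_sub_one_of_dvd ℤ he
  have h2 : (X ^ n - 1 : ℤ[X]) = (X ^ e - 1) * ∑ i ∈ Finset.range d, (X ^ e : ℤ[X]) ^ i := by
    rw [mul_geom_sum, ← pow_mul, hn]
  rw [h2] at h1
  have he0 : 0 < e := by
    rcases Nat.eq_zero_or_pos e with h | h
    · subst h
      rw [zero_mul] at hn
      subst hn
      simp at he
    · exact h
  have h3 : (X ^ e - 1 : ℤ[X]) ≠ 0 := (monic_X_pow_sub_C (1 : ℤ) he0.ne').ne_zero
  exact (mul_dvd_mul_iff_left h3).1 h1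

end ITNrm

open ITNrm in
theorem pr_Nrm (h1 : StPw) : StNrm := by
  intro k L _ _ _ _ _ g hg Ω _ s K _ _ Θ hΘ x hx
  refine ⟨?_, fun M hM => ?_⟩
  · have h2 : IsUnit (el x) := isUnit_iff_ne_zero.2 (h1 Ω s x x).2.2.2.2.2.2.2.2.2.2.2.1
    exact h2.map Θ.symm
  set n := Module.finrank k L with hn
  have hcard : Nat.card (L ≃ₐ[k] L) = n := IsGalois.card_aut_eq_finrank k L
  have hord : orderOf g = n := by
    rw [orderOf_eq_card_of_forall_mem_zpowers hg, hcard]
  have hn0 : 0 < n := Module.finrank_pos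
  set H := M.fixingSubgroup with hH
  set d := Nat.card H with hd
  have hdn : d ∣ n := by
    rw [← hcard]
    exact Subgroup.card_subgroup_dvd_card H
  have hd0 : 0 < d := Nat.card_pos
  have hd1 : 1 < d := by
    rw [hd, Subgroup.one_lt_card_iff_ne_bot]
    intro h
    apply hM
    rw [← IsGalois.fixedField_fixingSubgroup M, ← hH, h]
    exact IntermediateField.fixedField_bot
  set e := n / d with he
  have hed : e * d = n := Nat.div_mul_cancel hdn
  have he0 : 0 < e := Nat.div_pos (Nat.le_of_dvd hn0 hdn) hd0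
  have hen : e < n := Nat.div_lt_self hn0 hd1
  have hepd : e ∈ n.properDivisors := Nat.mem_properDivisors.2 ⟨⟨d, hed.symm⟩, hen⟩
  have hordA : orderOf (g ^ e) = d := by
    rw [orderOf_pow_of_dvd he0.ne' (by rw [hord]; exact ⟨d, hed.symm⟩), hord, he]
    exact Nat.div_div_self hdn hn0.ne'
  have hle : H ≤ Subgroup.zpowers (g ^ e) := by
    intro h hh
    obtain ⟨j, hj⟩ := (mem_powers_iff_mem_zpowers).2 (hg h)
    have hj' : g ^ j = h := hj
    have h3 : h ^ d = 1 := by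
      have h4 : (⟨h, hh⟩ : H) ^ Nat.card H = 1 := pow_card_eq_one'
      have h5 : ((⟨h, hh⟩ : H) ^ Nat.card H : H).1 = (1 : H).1 := by rw [h4]
      exact h5
    rw [← hj', ← pow_mul] at h3
    have h6 := orderOf_dvd_of_pow_eq_one h3
    rw [hord, ← hed] at h6
    have h7 : e ∣ j := Nat.dvd_of_mul_dvd_mul_right hd0 h6
    obtain ⟨i, rfl⟩ := h7
    rw [← hj', pow_mul]
    exact ⟨(i : ℤ), by simp⟩
  have hHA : H = Subgroup.zpowers (g ^ e) := by
    apply Subgroup.eq_of_le_of_card_ge hle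
    rw [Nat.card_zpowers, hordA]
  have hfo : IsOfFinOrder (g ^ e) := isOfFinOrder_of_finite _
  let E : Fin (orderOf (g ^ e)) ≃ (L ≃ₐ[M] L) :=
    ((finEquivZPowers hfo).trans (MulEquiv.subgroupCongr hHA.symm).toEquiv).trans
      (IntermediateField.fixingSubgroupEquiv M).toEquiv
  have hE : ∀ i : Fin (orderOf (g ^ e)), (((E i : L ≃ₐ[M] L) : L →ₐ[M] L).restrictScalars k) =
      (((g ^ (e * (i : ℕ)) : L ≃ₐ[k] L)) : L →ₐ[k] L) := by
    intro i
    ext a
    rw [pow_mul]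
    rfl
  have h4 : Θ (∏ h : (L ≃ₐ[M] L), bc ((h : L →ₐ[M] L).restrictScalars k) (Θ.symm (el x))) = 1 := by
    rw [map_prod, ← Fintype.prod_equiv E (fun i => s^[e * (i : ℕ)] (el x)) _ (fun i => ?_)]
    · rw [Fin.prod_univ_eq_prod_range (fun i => s^[e * i] (el x)), hordA, ← el_sum h1]
      obtain ⟨q, hq⟩ := dvd_sum hed hepd
      rw [hq, mul_comm, (h1 Ω s x x).2.1, hx, map_zero]
      exact (h1 Ω s x x).2.2.2.2.2.2.2.2.2.1
    · rw [hE i, bc_pow g s Θ hΘ, RingEquiv.apply_symm_apply]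
  rw [← map_one Θ] at h4
  exact Θ.injective h4

end Pool.Agent.TorR
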