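import Mathlib
import Pool.Agent.Work.MP_88348f_ag.TA.Stmts

set_option autoImplicit false

/-!
# MP_88348f_ag, block TA, item One: the degree one
-/

open Polynomial
open scoped TensorProduct

namespace Pool.Agent.TorR

namespace ITOne

/-- the identity automorphism acts on the units by the identity -/
theorem pw_X (h1 : StPw) {Ω : Type} [Field Ω] (x : Additive Ωˣ) :
    pw (RingEquiv.refl Ω) (cyclotomic 1 ℤ) x = 0 := by
  obtain ⟨hX, -, -, hsub, -, hone, -⟩ := h1 Ω (RingEquiv.refl Ω) x x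
  have hinj := (h1 Ω (RingEquiv.refl Ω) (pw (RingEquiv.refl Ω) (X ^ 1) x) x).2.2.2.2.2.2.2.2.2.2.2.2
  have e1 : pw (RingEquiv.refl Ω) (X ^ 1) x = x := hinj (by rw [hX 1]; rfl)
  rw [cyclotomic_one, hsub, hone]
  rw [pow_one] at e1
  rw [e1, sub_self]

end ITOne

open ITOne

theorem pr_One (h1 : StPw) : StOne := by
  intro L _ σ hσ
  have hid : ∀ a, σ a = a := fun a => hσ.2.1 a
  have hu : ∀ i j : Fin (Nat.totient 1 + 0), i = j := by
    intro i j
    have h := i.2
    have h' := j.2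
    have e : Nat.totient 1 = 1 := Nat.totient_one
    exact Fin.ext (by omega)
  have i0 : Fin (Nat.totient 1 + 0) := ⟨0, by rw [Nat.totient_one]; norm_num⟩
  let _ : Unique (Fin (Nat.totient 1 + 0)) := ⟨⟨i0⟩, fun i => hu i i0⟩
  have hX0 : (RatFunc.X : RatFunc L) ≠ 0 := RatFunc.X_ne_zero
  refine ⟨RatFunc L, inferInstance, inferInstance, RingEquiv.refl _, fun _ => RatFunc.X,
    Additive.ofMul (Units.mk0 RatFunc.X hX0), Fin.elim0, ?_, ?_, ?_, ?_, ?_⟩
  · intro a
    rw [hid a]
    rfl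
  · refine ⟨fun _ => rfl, ?_, ?_⟩
    · exact algebraicIndependent_unique_type_iff.2 (RatFunc.transcendental_X)
    · have hr : Set.range (fun _ : Fin (Nat.totient 1 + 0) => (RatFunc.X : RatFunc L)) =
          {RatFunc.X} := Set.range_const
      rw [hr]
      exact RatFunc.adjoin_X
  · exact pw_X h1 _
  · intro i
    exact i.elim0
  · rw [eq_top_iff, ← RatFunc.adjoin_X]
    refine IntermediateField.adjoin.mono _ _ _ ?_
    rintro a rfl
    exact Or.inl ⟨0, rfl⟩

end Pool.Agent.TorR
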