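import Pool.Agent.Work.MP_88348f_ag.TA.Stmts

set_option autoImplicit false

/-!
# Item Ord: the order of the power of an automorphism
-/

open Polynomial
open scoped TensorProduct

namespace Pool.Agent.TorR

namespace ITOrd

theorem pow_eq {L : Type} [Field L] (σ : L ≃+* L) (r : ℕ) : ∀ a : L, (σ ^ r) a = σ^[r] a := by
  induction r with
  | zero =>
    intro a
    simp
  | succ r ih =>
    intro a
    rw [pow_succ, RingAut.mul_apply, ih, Function.iterate_succ_apply]

theorem iter {L : Type} [Field L] (σ : L ≃+* L) (r j : ℕ) (a : L) :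
    (σ ^ r : L ≃+* L)^[j] a = σ^[r * j] a := by
  have h : ((σ ^ r : L ≃+* L) : L → L) = σ^[r] := funext (pow_eq σ r)
  rw [h, Function.iterate_mul]

end ITOrd

open ITOrd in
theorem pr_Ord : StOrd := by
  intro L _ σ m r h
  obtain ⟨h1, h2, h3⟩ := h
  have hr : 0 < r := Nat.pos_of_mul_pos_left h1
  have hm : 0 < m := Nat.pos_of_mul_pos_right h1
  refine ⟨σ ^ r, pow_eq σ r, hm, ?_, ?_⟩
  · intro a
    rw [iter, mul_comm]
    exact h2 a
  · intro j hj hjm
    obtain ⟨a, ha⟩ := h3 (r * j) (Nat.mul_pos hr hj)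
      (by rw [mul_comm m r]; exact Nat.mul_lt_mul_of_pos_left hjm hr)
    exact ⟨a, by rw [iter]; exact ha⟩

end Pool.Agent.TorR
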