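import Pool.Agent.Work.MP_88348f_ag.TA.Stmts

set_option autoImplicit false

/-!
# MP_88348f_ag, block TA, item Per: the automorphism of the big field is periodic
-/

open Polynomial
open scoped TensorProduct

namespace Pool.Agent.TorR

namespace ITPer

theorem semi_iter {L Ω : Type} [Field L] [Field Ω] [Algebra L Ω] {σ : L ≃+* L} {s : Ω ≃+* Ω}
    (h : Semi σ s) (j : ℕ) (a : L) : s^[j] (algebraMap L Ω a) = algebraMap L Ω (σ^[j] a) := by
  induction j generalizing a with
  | zero => rfl
  | succ j ih => rw [Function.iterate_succ_apply, Function.iterate_succ_apply, h a, ih]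

end ITPer

theorem pr_Per : StPer := by
  intro L Ω _ _ _ σ s n ι t hs ht hn a
  let S : Subfield Ω := RingHom.eqLocusField ((s : Ω →+* Ω) ^ n) (RingHom.id Ω)
  have hS : ∀ x, x ∈ S ↔ s^[n] x = x := by
    intro x
    have h1 : x ∈ S ↔ ((s : Ω →+* Ω) ^ n) x = RingHom.id Ω x := Iff.rfl
    rw [h1, RingHom.coe_pow]
    rfl
  let T : IntermediateField L Ω := S.toIntermediateField (fun x => by
    rw [hS, ITPer.semi_iter hs, hn])
  have hT : IntermediateField.adjoin L (Set.range t) ≤ T := by
    rw [IntermediateField.adjoin_le_iff]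
    rintro _ ⟨i, rfl⟩
    have h2 : t i ∈ S := by
      rw [hS]
      exact Function.iterate_fixed (ht.fix i) n
    exact h2
  rw [ht.gen] at hT
  have h3 : a ∈ T := hT IntermediateField.mem_top
  have h4 : a ∈ S := h3
  exact (hS a).1 h4

end Pool.Agent.TorR
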