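import Pool.Agent.Work.MP_88348f_ag.TA.Stmts

set_option autoImplicit false

/-!
# MP_88348f_ag, block TA, item Pri: the case of prime degree
-/

open Polynomial

namespace Pool.Agent.TorR

namespace ITPri

/-- inversion of a linear system with coefficients in `L` -/
theorem solve {L Ω : Type} [Field L] [Field Ω] [Algebra L Ω] {p : ℕ}
    (M : Matrix (Fin p) (Fin p) L) (hM : M.det ≠ 0) (v w : Fin p → Ω)
    (h : ∀ c, w c = ∑ j, algebraMap L Ω (M c j) * v j) (j : Fin p) :
    v j = ∑ c, algebraMap L Ω (M⁻¹ j c) * w c := by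
  have h1 : M⁻¹ * M = 1 := Matrix.nonsing_inv_mul M (isUnit_iff_ne_zero.2 hM)
  have h2 : w = (M.map (algebraMap L Ω)).mulVec v := by
    funext c
    rw [h c]
    rfl
  have h3 : v = (M⁻¹.map (algebraMap L Ω)).mulVec w := by
    rw [h2, Matrix.mulVec_mulVec, ← Matrix.map_mul, h1,
      Matrix.map_one _ (map_zero _) (map_one _), Matrix.one_mulVec]
  exact congrFun h3 j

/-- the field `L(t)` with `s` acting on the coefficients -/
theorem exists_free (L : Type) [Field L] (σ : L ≃+* L) (ι : Type) :
    ∃ (Ω : Type) (_ : Field Ω) (_ : Algebra L Ω) (s : Ω ≃+* Ω) (t : ι → Ω),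
      Semi σ s ∧ Free (L := L) s t := by
  let s : FractionRing (MvPolynomial ι L) ≃+* FractionRing (MvPolynomial ι L) :=
    IsFractionRing.ringEquivOfRingEquiv (MvPolynomial.mapEquiv ι σ)
  refine ⟨FractionRing (MvPolynomial ι L), inferInstance, inferInstance, s,
    fun i => algebraMap (MvPolynomial ι L) (FractionRing (MvPolynomial ι L)) (MvPolynomial.X i),
    ?_, ?_⟩
  · intro a
    show IsFractionRing.ringEquivOfRingEquiv (MvPolynomial.mapEquiv ι σ)
      (algebraMap L (FractionRing (MvPolynomial ι L)) a) = _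
    rw [IsScalarTower.algebraMap_apply L (MvPolynomial ι L) (FractionRing (MvPolynomial ι L)),
      IsFractionRing.ringEquivOfRingEquiv_algebraMap, MvPolynomial.mapEquiv_apply,
      MvPolynomial.algebraMap_eq, MvPolynomial.map_C,
      IsScalarTower.algebraMap_apply L (MvPolynomial ι L) (FractionRing (MvPolynomial ι L)),
      MvPolynomial.algebraMap_eq]
    rfl
  · refine ⟨fun i => ?_, ?_, ?_⟩
    · show IsFractionRing.ringEquivOfRingEquiv (MvPolynomial.mapEquiv ι σ)
        (algebraMap (MvPolynomial ι L) (FractionRing (MvPolynomial ι L)) (MvPolynomial.X i)) = _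
      rw [IsFractionRing.ringEquivOfRingEquiv_algebraMap, MvPolynomial.mapEquiv_apply,
        MvPolynomial.map_X]
    · have h1 : AlgebraicIndependent L (MvPolynomial.X : ι → MvPolynomial ι L) :=
        MvPolynomial.algebraicIndependent_X ι L
      exact h1.map' (f := IsScalarTower.toAlgHom L (MvPolynomial ι L)
        (FractionRing (MvPolynomial ι L))) (IsFractionRing.injective _ _)
    · rw [eq_top_iff]
      intro x _
      have hA : ∀ a : MvPolynomial ι L,
          algebraMap (MvPolynomial ι L) (FractionRing (MvPolynomial ι L)) a ∈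
          IntermediateField.adjoin L (Set.range fun i =>
            algebraMap (MvPolynomial ι L) (FractionRing (MvPolynomial ι L))
              (MvPolynomial.X i)) := by
        intro a
        induction a using MvPolynomial.induction_on with
        | C a =>
          rw [← MvPolynomial.algebraMap_eq, ← IsScalarTower.algebraMap_apply]
          exact IntermediateField.algebraMap_mem _ _
        | add a b ha hb =>
          rw [map_add]
          exact add_mem ha hb
        | mul_X a i ha =>
          rw [map_mul]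
          exact mul_mem ha (IntermediateField.subset_adjoin _ _ ⟨i, rfl⟩)
      obtain ⟨a, b, -, rfl⟩ := IsFractionRing.div_surjective (A := MvPolynomial ι L) x
      exact div_mem (hA a) (hA b)

/-- reindexing -/
theorem free_comp {L Ω : Type} [Field L] [Field Ω] [Algebra L Ω] {s : Ω ≃+* Ω} {ι κ : Type}
    {t : ι → Ω} (h : Free (L := L) s t) (e : κ ≃ ι) : Free (L := L) s (t ∘ e) := by
  refine ⟨fun i => h.fix _, h.ind.comp e e.injective, ?_⟩
  rw [Set.range_comp, e.surjective.range_eq, Set.image_univ]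
  exact h.gen

theorem semi_iterate {L Ω : Type} [Field L] [Field Ω] [Algebra L Ω] {σ : L ≃+* L} {s : Ω ≃+* Ω}
    (h : Semi σ s) (n : ℕ) (a : L) : s^[n] (algebraMap L Ω a) = algebraMap L Ω (σ^[n] a) := by
  induction n generalizing a with
  | zero => rfl
  | succ n ih => rw [Function.iterate_succ_apply, Function.iterate_succ_apply, h a, ih]

/-- iterates of a ring isomorphism -/
theorem iterate_sum {Ω : Type} [Field Ω] (s : Ω ≃+* Ω) {ι : Type} (S : Finset ι) (f : ι → Ω)
    (n : ℕ) : s^[n] (∑ i ∈ S, f i) = ∑ i ∈ S, s^[n] (f i) := by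
  induction n generalizing f with
  | zero => rfl
  | succ n ih =>
    rw [Function.iterate_succ_apply, map_sum, ih]
    rfl

theorem iterate_mul {Ω : Type} [Field Ω] (s : Ω ≃+* Ω) (a b : Ω) (n : ℕ) :
    s^[n] (a * b) = s^[n] a * s^[n] b := by
  induction n generalizing a b with
  | zero => rfl
  | succ n ih =>
    rw [Function.iterate_succ_apply, map_mul, ih]
    rfl

theorem iterate_inv {Ω : Type} [Field Ω] (s : Ω ≃+* Ω) (a : Ω) (n : ℕ) :
    s^[n] (a⁻¹) = (s^[n] a)⁻¹ := by
  induction n generalizing a with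
  | zero => rfl
  | succ n ih =>
    rw [Function.iterate_succ_apply, map_inv₀, ih]
    rfl

end ITPri

open ITPri

theorem pr_Pri (h1 : StBs) (h2 : StPw) (h3 : StPwZ) : StPri := by
  intro p hp L _ σ hσ
  have : Fact p.Prime := ⟨hp⟩
  obtain ⟨N, rfl⟩ : ∃ N, p = N + 1 := ⟨p - 1, by have := hp.pos; omega⟩
  have htot : Nat.totient (N + 1) + 0 = N := by
    rw [Nat.totient_prime hp]
    omega
  obtain ⟨e, he, hdet⟩ := h1 L σ 1 (N + 1) (by rw [one_mul]; exact hσ)
  obtain ⟨Ω, _, _, s, t, hs, ht⟩ := exists_free L σ (Fin N)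
  -- the vector of invariant coordinates
  set T : Fin (N + 1) → Ω := Fin.cons 1 t with hT
  have hT0 : T 0 = 1 := rfl
  have hTs : ∀ j : Fin N, T j.succ = t j := fun j => rfl
  have hTfix : ∀ j, s (T j) = T j := by
    intro j
    refine Fin.cases ?_ (fun i => ?_) j
    · rw [hT0, map_one]
    · rw [hTs, ht.fix]
  have hTfix' : ∀ (n : ℕ) (j), s^[n] (T j) = T j := by
    intro n j
    exact Function.iterate_fixed (hTfix j) n
  set z : Ω := ∑ j, algebraMap L Ω (e j) * T j with hz
  have hzc : ∀ c : ℕ, s^[c] z = ∑ j, algebraMap L Ω (σ^[c] (e j)) * T j := by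
    intro c
    rw [hz, iterate_sum]
    refine Finset.sum_congr rfl fun j _ => ?_
    rw [iterate_mul, semi_iterate hs, hTfix']
  have hz0 : z ≠ 0 := by
    intro h0
    have h4 := solve (Ω := Ω) _ hdet T 0 (fun c => by
      have h5 := hzc (c : ℕ)
      rw [h0] at h5
      have h6 : s^[(c : ℕ)] (0 : Ω) = 0 := Function.iterate_fixed (map_zero s) _
      rw [h6] at h5
      exact h5) 0
    rw [hT0] at h4
    simp at h4
  -- the unit `z`
  set z' : Additive Ωˣ := Additive.ofMul (Units.mk0 z hz0) with hz'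
  have helz : el z' = z := rfl
  set x : Additive Ωˣ := pw s (X - 1) z' with hx
  have hpw := h2 Ω s z' 0
  have hxe : el x = s z * z⁻¹ := by
    have a1 : pw s (X - 1) z' = pw s (X ^ 1) z' - pw s 1 z' := by
      rw [pow_one]
      exact hpw.2.2.2.1 X 1
    have a2 : pw s 1 z' = z' := hpw.2.2.2.2.2.1
    have a3 := hpw.1 1
    rw [hx, a1, a2, sub_eq_add_neg]
    have a4 := (h2 Ω s (pw s (X ^ 1) z') (-z')).2.2.2.2.2.2.2.1
    have a5 := hpw.2.2.2.2.2.2.2.2.1
    rw [a4, a3, a5, helz]
    rfl
  refine ⟨Ω, inferInstance, inferInstance, s, t ∘ finCongr htot, x, Fin.elim0, hs,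
    free_comp ht _, ?_, fun i => i.elim0, ?_⟩
  · rw [hx, ← hpw.2.1, cyclotomic_prime_mul_X_sub_one]
    refine h3 Ω s (N + 1) z' _ ?_ (dvd_refl _)
    rw [helz, hzc, hz]
    refine Finset.sum_congr rfl fun j _ => ?_
    rw [he]
  · set E : IntermediateField L Ω :=
      IntermediateField.adjoin L (Cj s (el x) ∪ Set.range (Fin.elim0 : Fin 0 → Ω)) with hE
    have hxE : ∀ j : ℕ, s^[j] (el x) ∈ E := fun j =>
      IntermediateField.subset_adjoin _ _ (Or.inl ⟨j, rfl⟩)
    have hcz : ∀ c : ℕ, s^[c] z ≠ 0 := by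
      intro c h0
      apply hz0
      apply s.injective.iterate c
      rw [h0]
      exact (Function.iterate_fixed (map_zero s) _).symm
    have hw : ∀ c : ℕ, s^[c] z * z⁻¹ ∈ E := by
      intro c
      induction c with
      | zero =>
        rw [Function.iterate_zero, id_eq, mul_inv_cancel₀ hz0]
        exact one_mem _
      | succ c ih =>
        have h5 := mul_mem (hxE c) ih
        have h6 : s^[c] (el x) * (s^[c] z * z⁻¹) = s^[c + 1] z * z⁻¹ := by
          rw [hxe, iterate_mul, iterate_inv, Function.iterate_succ_apply]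
          field_simp [hcz c]
        rwa [h6] at h5
    have hv : ∀ j, T j * z⁻¹ ∈ E := by
      intro j
      have h5 : T j * z⁻¹ = ∑ c : Fin (N + 1), algebraMap L Ω
          ((Matrix.of fun c j : Fin (N + 1) => σ^[(c : ℕ)] (e j))⁻¹ j c) *
            (s^[(c : ℕ)] z * z⁻¹) :=
        solve (Ω := Ω) _ hdet (fun j => T j * z⁻¹) (fun c => s^[(c : ℕ)] z * z⁻¹)
        (fun c => by
          show s^[(c : ℕ)] z * z⁻¹ =
            ∑ j, algebraMap L Ω (σ^[(c : ℕ)] (e j)) * (T j * z⁻¹)
          rw [hzc, Finset.sum_mul]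
          refine Finset.sum_congr rfl fun i _ => ?_
          rw [mul_assoc]) j
      rw [h5]
      exact sum_mem fun c _ => mul_mem (IntermediateField.algebraMap_mem _ _) (hw c)
    have hzinv : z⁻¹ ∈ E := by
      have h5 := hv 0
      rwa [hT0, one_mul] at h5
    have hzE : z ∈ E := by
      have h5 := inv_mem hzinv
      rwa [inv_inv] at h5
    rw [eq_top_iff, ← ht.gen, IntermediateField.adjoin_le_iff]
    rintro _ ⟨j, rfl⟩
    have h5 := mul_mem (hv j.succ) hzE
    rw [hTs, mul_assoc, inv_mul_cancel₀ hz0, mul_one] at h5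
    exact h5

end Pool.Agent.TorR
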