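import Pool.Agent.Work.MP_88348f_ag.TA.Stmts

set_option autoImplicit false

open Polynomial
open scoped TensorProduct

namespace Pool.Agent.TorR

namespace ITPrim

theorem pow_apply' {L : Type} [Field L] (σ : L ≃+* L) (j : ℕ) (a : L) :
    ((σ : RingAut L) ^ j) a = σ^[j] a := by
  induction j generalizing a with
  | zero => rfl
  | succ j ih =>
    rw [pow_succ, RingAut.mul_apply, ih, Function.iterate_succ_apply]

theorem alg_pow_apply {k L : Type} [Field k] [Field L] [Algebra k L] (τ : L ≃ₐ[k] L) (j : ℕ)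
    (a : L) : (τ ^ j) a = τ^[j] a := by
  induction j generalizing a with
  | zero => rfl
  | succ j ih =>
    rw [pow_succ, AlgEquiv.mul_apply, ih, Function.iterate_succ_apply]

theorem main {k L : Type} [Field k] [Field L] [Algebra k L] [FiniteDimensional k L] [IsGalois k L]
    (τ : L ≃ₐ[k] L) (m r : ℕ) (hr : 0 < r) (ho : orderOf τ = m * r) :
    ∃ α : L, τ^[r] α = α ∧ ∀ a b, a < r → b < r → τ^[a] α = τ^[b] α → a = b := by
  let C : IntermediateField k L := IntermediateField.fixedField (Subgroup.zpowers (τ ^ r))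
  obtain ⟨α, hα⟩ := Field.exists_primitive_element k C
  have hC : IntermediateField.adjoin k {(α : L)} = C := by
    have h1 := congrArg IntermediateField.lift hα
    rwa [IntermediateField.lift_adjoin_simple, IntermediateField.lift_top] at h1
  have key : ∀ a b, a < b → b < r → τ^[a] (α : L) = τ^[b] (α : L) → False := by
    intro a b hab hb h
    have h1 : τ^[b - a] (α : L) = α := by
      have h2 : τ^[a] (τ^[b - a] (α : L)) = τ^[a] (α : L) := by
        rw [← Function.iterate_add_apply, Nat.add_sub_cancel' hab.le, h]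
      exact (Function.Injective.iterate τ.injective a) h2
    have h3 : C ≤ IntermediateField.fixedField (Subgroup.zpowers (τ ^ (b - a))) := by
      rw [← hC, IntermediateField.adjoin_simple_le_iff, IntermediateField.mem_fixedField_iff]
      intro f hf
      have h4 : (τ ^ (b - a)) (α : L) = α := by rw [alg_pow_apply]; exact h1
      obtain ⟨i, rfl⟩ := Subgroup.mem_zpowers_iff.1 hf
      have h5 : τ ^ (b - a) ∈ MulAction.stabilizer (L ≃ₐ[k] L) (α : L) := h4
      exact Subgroup.zpow_mem _ h5 i
    have h6 : τ ^ (b - a) ∈ C.fixingSubgroup := by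
      rw [IntermediateField.mem_fixingSubgroup_iff]
      intro x hx
      have h7 := h3 hx
      rw [IntermediateField.mem_fixedField_iff] at h7
      exact h7 _ (Subgroup.mem_zpowers _)
    rw [IntermediateField.fixingSubgroup_fixedField] at h6
    obtain ⟨i, hi⟩ := Subgroup.mem_zpowers_iff.1 h6
    have h8 : τ ^ ((r : ℤ) * i - ((b - a : ℕ) : ℤ)) = 1 := by
      rw [zpow_sub, zpow_mul, zpow_natCast, hi, zpow_natCast, mul_inv_cancel]
    have h9 : ((m * r : ℕ) : ℤ) ∣ (r : ℤ) * i - ((b - a : ℕ) : ℤ) := by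
      rw [← ho]
      exact orderOf_dvd_iff_zpow_eq_one.2 h8
    have h10 : (r : ℤ) ∣ ((b - a : ℕ) : ℤ) := by
      have h11 : (r : ℤ) ∣ (r : ℤ) * i - ((b - a : ℕ) : ℤ) :=
        dvd_trans ⟨(m : ℤ), by push_cast; ring⟩ h9
      have h12 := dvd_sub (dvd_mul_right (r : ℤ) i) h11
      rwa [sub_sub_cancel] at h12
    have h13 : r ∣ b - a := by exact_mod_cast h10
    have h14 := Nat.le_of_dvd (by omega) h13
    omega
  refine ⟨α, ?_, fun a b ha hb h => ?_⟩
  · have h1 := (IntermediateField.mem_fixedField_iff _ _).1 α.2 (τ ^ r) (Subgroup.mem_zpowers _)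
    rwa [alg_pow_apply] at h1
  · rcases lt_trichotomy a b with h1 | h1 | h1
    · exact (key a b h1 hb h).elim
    · exact h1
    · exact (key b a h1 ha h.symm).elim

end ITPrim

open ITPrim in
theorem pr_Prim : StPrim := by
  intro L _ σ m r hσ
  obtain ⟨hn, h1, h2⟩ := hσ
  have hr : 0 < r := Nat.pos_of_mul_pos_left hn
  let s : RingAut L := σ
  have hs : s ^ (m * r) = 1 := by
    ext a
    rw [pow_apply']
    exact h1 a
  have hfin : IsOfFinOrder s := isOfFinOrder_iff_pow_eq_one.2 ⟨m * r, hn, hs⟩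
  haveI : Finite (Subgroup.zpowers s) := hfin.finite_zpowers
  let k := FixedPoints.subfield (Subgroup.zpowers s) L
  have hk : ∀ c : k, σ (algebraMap k L c) = algebraMap k L c := fun c =>
    c.2 ⟨s, Subgroup.mem_zpowers s⟩
  let τ : L ≃ₐ[k] L := AlgEquiv.ofRingEquiv hk
  have hτ : ∀ (j : ℕ) (a : L), τ^[j] a = σ^[j] a := by
    intro j
    induction j with
    | zero => exact fun a => rfl
    | succ j ih =>
      intro a
      rw [Function.iterate_succ_apply, Function.iterate_succ_apply, ih]
      rfl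
  have ho : orderOf τ = m * r := by
    rw [orderOf_eq_iff hn]
    refine ⟨?_, fun j hj hj0 he => ?_⟩
    · ext a
      rw [alg_pow_apply, hτ]
      exact h1 a
    · obtain ⟨a, ha⟩ := h2 j hj0 hj
      apply ha
      rw [← hτ, ← alg_pow_apply, he]
      rfl
  obtain ⟨α, hα, hα'⟩ := main τ m r hr ho
  refine ⟨α, by rw [← hτ]; exact hα, fun a b ha hb h => hα' a b ha hb ?_⟩
  rw [hτ, hτ]
  exact h

end Pool.Agent.TorR
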