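import Pool.Agent.Work.MP_88348f_ag.TA.Stmts

set_option autoImplicit false

/-!
Item Pw: the module of units, trivial formulas.
-/

open Polynomial

namespace Pool.Agent.TorR

namespace ITPw

theorem el_su {Ω : Type} [Field Ω] (s : Ω ≃+* Ω) (x : Additive Ωˣ) :
    el (su s x) = s (el x) := rfl

theorem el_pow {Ω : Type} [Field Ω] (s : Ω ≃+* Ω) (x : Additive Ωˣ) (j : ℕ) :
    el (((su s) ^ j) x) = s^[j] (el x) := by
  induction j with
  | zero => rfl
  | succ j ih =>
    rw [pow_succ', Function.iterate_succ_apply', ← ih]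
    rfl

theorem el_zsmul {Ω : Type} [Field Ω] (x : Additive Ωˣ) (a : ℤ) : el (a • x) = el x ^ a := by
  change (((Additive.toMul x) ^ a : Ωˣ) : Ω) = _
  rw [Units.val_zpow_eq_zpow_val]
  rfl

end ITPw

theorem pr_Pw : StPw := by
  intro Ω _ s x y
  refine ⟨?_, ?_, ?_, ?_, ?_, ?_, ?_, ?_, ?_, ?_, ?_, ?_, ?_⟩
  · intro j
    rw [pw, map_pow, aeval_X]
    exact ITPw.el_pow s x j
  · intro f g
    rw [pw, map_mul]
    rfl
  · intro f g
    rw [pw, map_add]
    rfl
  · intro f g
    rw [pw, map_sub]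
    rfl
  · intro a
    rw [pw, aeval_C]
    rfl
  · rw [pw, map_one]
    rfl
  · intro ι S f
    unfold pw
    rw [map_sum, LinearMap.sum_apply]
  · change (((Additive.toMul x) * (Additive.toMul y) : Ωˣ) : Ω) = _
    rw [Units.val_mul]
    rfl
  · change (((Additive.toMul x)⁻¹ : Ωˣ) : Ω) = _
    rw [Units.val_inv_eq_inv_val]
    rfl
  · rfl
  · intro a
    exact ITPw.el_zsmul x a
  · exact Units.ne_zero _
  · intro h
    exact Additive.toMul.injective (Units.ext h)

end Pool.Agent.TorR
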