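import Pool.Agent.Work.MP_88348f_ag.TA.Stmts

set_option autoImplicit false

/-!
# MP_88348f_ag TA: item PwE (membership of the conjugates of `f · x`)
-/

open Polynomial

namespace Pool.Agent.TorR

namespace ITPwE

/-- `f · x` is in `E` -/
theorem mem (h1 : StPw) {L Ω : Type} [Field L] [Field Ω] [Algebra L Ω] (s : Ω ≃+* Ω)
    (E : IntermediateField L Ω) (x : Additive Ωˣ) (hx : ∀ j, s^[j] (el x) ∈ E) (f : ℤ[X]) :
    el (pw s f x) ∈ E := by
  induction f using Polynomial.induction_on' with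
  | add f g hf hg =>
    obtain ⟨-, -, hadd, -⟩ := h1 Ω s x x
    obtain ⟨-, -, -, -, -, -, -, hel, -⟩ := h1 Ω s (pw s f x) (pw s g x)
    rw [hadd, hel]
    exact mul_mem hf hg
  | monomial n a =>
    obtain ⟨hX, hmul, -⟩ := h1 Ω s x x
    obtain ⟨-, -, -, -, hC, -, -, -, -, -, hz, -⟩ := h1 Ω s (pw s (X ^ n) x) x
    rw [← C_mul_X_pow_eq_monomial, hmul, hC, hz, hX]
    exact zpow_mem (hx n) a

end ITPwE

theorem pr_PwE (h1 : StPw) : StPwE := by
  intro L Ω _ _ _ s E x hx f j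
  have h := ITPwE.mem h1 s E x hx (X ^ j * f)
  obtain ⟨-, hmul, -⟩ := h1 Ω s x x
  obtain ⟨hX, -⟩ := h1 Ω s (pw s f x) x
  rw [hmul, hX] at h
  exact h

end Pool.Agent.TorR
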