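import Pool.Agent.Work.MP_88348f_ag.TA.Stmts

set_option autoImplicit false

/-!
# Item PwM: conjugates under a monic relation
-/

open Polynomial
open scoped TensorProduct

namespace Pool.Agent.TorR

namespace ITPwM

theorem el_sum (h1 : StPw) {Ω : Type} [Field Ω] {ι : Type} (S : Finset ι)
    (z : ι → Additive Ωˣ) : el (∑ i ∈ S, z i) = ∏ i ∈ S, el (z i) := by
  classical
  induction S using Finset.induction_on with
  | empty =>
    rw [Finset.sum_empty, Finset.prod_empty]
    exact (h1 Ω (RingEquiv.refl Ω) 0 0).2.2.2.2.2.2.2.2.2.1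
  | insert a S ha ih =>
    rw [Finset.sum_insert ha, Finset.prod_insert ha, ← ih]
    exact (h1 Ω (RingEquiv.refl Ω) (z a) (∑ i ∈ S, z i)).2.2.2.2.2.2.2.1

end ITPwM

theorem pr_PwM (h1 : StPw) : StPwM := by
  intro L Ω _ _ _ s E x f hf hx hE j
  induction j using Nat.strong_induction_on with
  | _ j ih =>
    by_cases hj : j < f.natDegree
    · exact hE j hj
    · obtain ⟨i, rfl⟩ := Nat.exists_eq_add_of_le (not_lt.mp hj)
      obtain ⟨hX, hmul, hadd, -, hC, -, hsum, -, hneg, -, hzpow, -, -⟩ := h1 Ω s x x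
      have hmul' : ∀ (z : Additive Ωˣ) (f g : ℤ[X]), pw s (f * g) z = pw s f (pw s g z) :=
        fun z => (h1 Ω s z z).2.1
      have hC' : ∀ (z : Additive Ωˣ) (a : ℤ), pw s (C a) z = a • z :=
        fun z => (h1 Ω s z z).2.2.2.2.1
      have hzpow' : ∀ (z : Additive Ωˣ) (a : ℤ), el (a • z) = el z ^ a :=
        fun z => (h1 Ω s z z).2.2.2.2.2.2.2.2.2.2.1
      have hneg' : ∀ z : Additive Ωˣ, el (-z) = (el z)⁻¹ :=
        fun z => (h1 Ω s z z).2.2.2.2.2.2.2.2.1
      have hs : X ^ i * f = X ^ (f.natDegree + i) +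
          ∑ l ∈ Finset.range f.natDegree, C (f.coeff l) * X ^ (l + i) := by
        conv_lhs => rw [hf.as_sum]
        rw [mul_add, ← pow_add, add_comm i, Finset.mul_sum]
        congr 1
        refine Finset.sum_congr rfl fun l _ => ?_
        rw [pow_add]
        ring
      have h0 : pw s (X ^ i * f) x = 0 := by
        rw [hmul, hx, map_zero]
      rw [hs, hadd, hsum] at h0
      have h2 : pw s (X ^ (f.natDegree + i)) x =
          -∑ l ∈ Finset.range f.natDegree, pw s (C (f.coeff l) * X ^ (l + i)) x :=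
        eq_neg_of_add_eq_zero_left h0
      rw [← hX, h2, hneg', ITPwM.el_sum h1]
      refine inv_mem (prod_mem fun l hl => ?_)
      rw [hmul, hC', hzpow', hX]
      exact zpow_mem (ih _ (by have := Finset.mem_range.mp hl; omega)) _

end Pool.Agent.TorR
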