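import Pool.Agent.Work.MP_88348f_ag.TA.Stmts

set_option autoImplicit false

/-!
# MP_88348f_ag, block TA, item PwN: naturality
-/

open Polynomial
open scoped TensorProduct

namespace Pool.Agent.TorR

namespace ITPwN

theorem el_su {Ω : Type} [Field Ω] (s : Ω ≃+* Ω) (x : Additive Ωˣ) :
    el (su s x) = s (el x) := rfl

theorem el_su_pow {Ω : Type} [Field Ω] (s : Ω ≃+* Ω) (r : ℕ) (x : Additive Ωˣ) :
    el ((su s ^ r) x) = s^[r] (el x) := by
  induction r with
  | zero => rfl
  | succ r ih =>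
    rw [pow_succ', Module.End.mul_apply, el_su, ih, Function.iterate_succ_apply']

theorem el_inj {Ω : Type} [Field Ω] {x y : Additive Ωˣ} (h : el x = el y) : x = y := by
  have h1 : Additive.toMul x = Additive.toMul y := Units.ext h
  exact Additive.toMul.injective h1

/-- the map of the units -/
noncomputable def un {Ω' Ω : Type} [Field Ω'] [Field Ω] (ψ : Ω' →+* Ω) :
    Additive Ω'ˣ →ₗ[ℤ] Additive Ωˣ :=
  (MonoidHom.toAdditive (Units.map (ψ : Ω' →* Ω))).toIntLinearMap

theorem el_un {Ω' Ω : Type} [Field Ω'] [Field Ω] (ψ : Ω' →+* Ω) (x : Additive Ω'ˣ) :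
    el (un ψ x) = ψ (el x) := rfl

theorem aeval_nat {M N : Type} [AddCommGroup M] [AddCommGroup N] (S : Module.End ℤ M)
    (T : Module.End ℤ N) (F : M →ₗ[ℤ] N) (h : ∀ x, T (F x) = F (S x)) (f : ℤ[X]) (x : M) :
    aeval T f (F x) = F (aeval S f x) := by
  have hp : ∀ (n : ℕ) (x : M), (T ^ n) (F x) = F ((S ^ n) x) := by
    intro n
    induction n with
    | zero => intro x; rfl
    | succ n ih =>
      intro x
      rw [pow_succ', Module.End.mul_apply, ih, h, pow_succ', Module.End.mul_apply]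
  induction f using Polynomial.induction_on' with
  | add p q hp' hq' =>
    rw [map_add, map_add, LinearMap.add_apply, LinearMap.add_apply, map_add, hp', hq']
  | monomial n a =>
    rw [aeval_monomial, aeval_monomial, Module.End.mul_apply, Module.End.mul_apply, hp,
      Module.algebraMap_end_apply, Module.algebraMap_end_apply, map_smul]

end ITPwN

theorem pr_PwN : StPwN := by
  intro Ω' Ω _ _ s' s ψ r h x' x hx f
  have h1 : x = ITPwN.un ψ x' := ITPwN.el_inj (by rw [hx, ITPwN.el_un])
  have h2 : ∀ y, (su s ^ r) (ITPwN.un ψ y) = ITPwN.un ψ (su s' y) := by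
    intro y
    apply ITPwN.el_inj
    rw [ITPwN.el_su_pow, ITPwN.el_un, ITPwN.el_un, ITPwN.el_su, h]
  have h3 := ITPwN.aeval_nat (su s') (su s ^ r) (ITPwN.un ψ) h2 f x'
  unfold pw
  rw [expand_aeval, h1, h3, ITPwN.el_un]

end Pool.Agent.TorR
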