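import Pool.Agent.Work.MP_88348f_ag.TA.Stmts

set_option autoImplicit false

open Polynomial
open scoped TensorProduct

namespace Pool.Agent.TorR

theorem pr_PwZ (h1 : StPw) : StPwZ := by
  intro Ω _ s n x f hx hf
  obtain ⟨q, rfl⟩ := hf
  obtain ⟨hX, hmul, -, hsub, -, hone, -, -, -, -, -, -, -⟩ := h1 Ω s x x
  have e1 : pw s (X ^ n) x = x := by
    obtain ⟨-, -, -, -, -, -, -, -, -, -, -, -, hinj⟩ := h1 Ω s (pw s (X ^ n) x) x
    exact hinj (by rw [hX, hx])
  rw [mul_comm, hmul, hsub, e1, hone, sub_self, map_zero]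

end Pool.Agent.TorR
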