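import Pool.Agent.Work.MP_88348f_ag.TA.Stmts

set_option autoImplicit false

/-!
# Item R: restriction of scalars
-/

open Polynomial

namespace Pool.Agent.TorR

namespace ITR

/-- reindexing of a free system -/
theorem free_comp {L Ω : Type} [Field L] [Field Ω] [Algebra L Ω] (s : Ω ≃+* Ω) {ι κ : Type}
    (t : ι → Ω) (h : Free (L := L) s t) (e : κ ≃ ι) : Free (L := L) s (fun i => t (e i)) where
  fix := fun i => h.fix (e i)
  ind := h.ind.comp e e.injective
  gen := by
    have h1 : Set.range (fun i => t (e i)) = Set.range t := e.surjective.range_comp t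
    rw [h1]
    exact h.gen

end ITR

open ITR

theorem pr_R (h1 : StUp) (h2 : StOrd) (h3 : StCyc) : StR := by
  intro m m' r hm hall hr hrm L _ σ hσ
  obtain ⟨σr, hσr, hor⟩ := h2 L σ m r hσ
  obtain ⟨Ω, iΩ, iA, s, T, W, Z, hsemi, hfree, hW, hZ, hgen⟩ :=
    h1 L σ σr m r m' hσ hσr (hall L σr hor)
  have hφ : Nat.totient (m * r) = Nat.totient m * r := by
    rw [mul_comm m r, Nat.totient_mul_of_prime_of_dvd hr hrm, mul_comm]
  have e : Fin (Nat.totient (m * r) + r * m') ≃ Fin (Nat.totient m + m') × Fin r :=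
    Fintype.equivOfCardEq (by
      rw [Fintype.card_prod, Fintype.card_fin, Fintype.card_fin, Fintype.card_fin, hφ]
      ring)
  have e' : Fin (r * m') ≃ Fin m' × Fin r :=
    Fintype.equivOfCardEq (by
      rw [Fintype.card_prod, Fintype.card_fin, Fintype.card_fin, Fintype.card_fin]
      ring)
  refine ⟨Ω, iΩ, iA, s, fun i => T (e i), W, fun i => Z (e' i), hsemi, free_comp s T hfree e, ?_,
    fun i => hZ (e' i), ?_⟩
  · rw [(h3 m r hm hr).2 hrm]
    exact hW
  · have h4 : Set.range (fun i => Z (e' i)) = Set.range Z := e'.surjective.range_comp Z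
    rw [h4]
    exact hgen

end Pool.Agent.TorR
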