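import Mathlib
import Pool.Agent.Work.MP_88348f_ag.TA.Stmts

set_option autoImplicit false

/-!
# MP_88348f_ag, block TA, item Reg: the regular field
-/

open Polynomial
open scoped TensorProduct

namespace Pool.Agent.TorR

namespace ITReg

variable {L : Type} [Field L]

/-- `σ` on the coefficients and the cyclic permutation of the variables -/
noncomputable def e0 (σ : L ≃+* L) (m : ℕ) :
    MvPolynomial (Fin (m + 1)) L ≃+* MvPolynomial (Fin (m + 1)) L :=
  (MvPolynomial.mapEquiv (Fin (m + 1)) σ).trans
    (MvPolynomial.renameEquiv L (finRotate (m + 1))).toRingEquiv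

theorem e0_C (σ : L ≃+* L) (m : ℕ) (a : L) :
    e0 σ m (MvPolynomial.C a) = MvPolynomial.C (σ a) := by
  simp [e0]

theorem e0_X (σ : L ≃+* L) (m : ℕ) (i : Fin (m + 1)) :
    e0 σ m (MvPolynomial.X i) = MvPolynomial.X (finRotate (m + 1) i) := by
  simp [e0]

/-- the automorphism of the field of rational functions -/
noncomputable def s0 (σ : L ≃+* L) (m : ℕ) :
    FractionRing (MvPolynomial (Fin (m + 1)) L) ≃+* FractionRing (MvPolynomial (Fin (m + 1)) L) :=
  IsFractionRing.ringEquivOfRingEquiv (e0 σ m)

theorem s0_alg (σ : L ≃+* L) (m : ℕ) (p : MvPolynomial (Fin (m + 1)) L) :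
    s0 σ m (algebraMap _ _ p) = algebraMap _ _ (e0 σ m p) := by
  simp [s0]

theorem s0_iter (σ : L ≃+* L) (m j : ℕ) (p : MvPolynomial (Fin (m + 1)) L) :
    (s0 σ m)^[j] (algebraMap _ _ p) = algebraMap _ _ ((e0 σ m)^[j] p) := by
  induction j generalizing p with
  | zero => rfl
  | succ j ih => rw [Function.iterate_succ_apply, Function.iterate_succ_apply, s0_alg, ih]

theorem e0_iter_C (σ : L ≃+* L) (m j : ℕ) (a : L) :
    (e0 σ m)^[j] (MvPolynomial.C a) = MvPolynomial.C (σ^[j] a) := by
  induction j generalizing a with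
  | zero => rfl
  | succ j ih => rw [Function.iterate_succ_apply, Function.iterate_succ_apply, e0_C, ih]

theorem e0_iter_X (σ : L ≃+* L) (m j : ℕ) (i : Fin (m + 1)) :
    (e0 σ m)^[j] (MvPolynomial.X i) = MvPolynomial.X (i + Fin.ofNat (m + 1) j) := by
  induction j generalizing i with
  | zero => simp
  | succ j ih =>
    rw [Function.iterate_succ_apply, e0_X, ih, finRotate_apply]
    congr 1
    apply Fin.ext
    simp only [Fin.val_add, Fin.ofNat_eq_cast, Fin.val_natCast, Fin.val_one', Nat.add_mod_mod,
      Nat.mod_add_mod]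
    rw [add_assoc, add_comm 1 j]

theorem iter_div {Ω : Type} [Field Ω] (s : Ω ≃+* Ω) (j : ℕ) (x y : Ω) :
    s^[j] (x / y) = s^[j] x / s^[j] y := by
  induction j generalizing x y with
  | zero => rfl
  | succ j ih => rw [Function.iterate_succ_apply, map_div₀, ih]; rfl

end ITReg

open ITReg in
/-- Item Reg. -/
theorem pr_Reg : StReg := by
  intro L _ σ n hσ
  obtain ⟨hn, hper, -⟩ := hσ
  obtain ⟨m, rfl⟩ := Nat.exists_eq_succ_of_ne_zero hn.ne'
  have hX0 : algebraMap (MvPolynomial (Fin (m + 1)) L)
      (FractionRing (MvPolynomial (Fin (m + 1)) L)) (MvPolynomial.X 0) ≠ 0 := by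
    rw [Ne, FaithfulSMul.algebraMap_eq_zero_iff]
    exact MvPolynomial.X_ne_zero 0
  refine ⟨FractionRing (MvPolynomial (Fin (m + 1)) L), inferInstance, inferInstance, s0 σ m,
    Additive.ofMul (Units.mk0 _ hX0), ?_, ?_, ?_, ?_⟩
  · intro a
    rw [IsScalarTower.algebraMap_apply L (MvPolynomial (Fin (m + 1)) L), s0_alg,
      MvPolynomial.algebraMap_eq, e0_C,
      IsScalarTower.algebraMap_apply L (MvPolynomial (Fin (m + 1)) L), MvPolynomial.algebraMap_eq]
  · have h1 : ∀ p : MvPolynomial (Fin (m + 1)) L, (e0 σ m)^[m + 1] p = p := by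
      intro p
      induction p using MvPolynomial.induction_on with
      | C a => rw [e0_iter_C, hper]
      | add p q hp hq => rw [iterate_map_add, hp, hq]
      | mul_X p i hp =>
        rw [iterate_map_mul, hp, e0_iter_X]
        congr 2
        apply Fin.ext
        simp
    intro a
    obtain ⟨p, q, -, rfl⟩ := IsFractionRing.div_surjective (A := MvPolynomial (Fin (m + 1)) L) a
    rw [iter_div, s0_iter, s0_iter, h1, h1]
  · have h1 : (fun j : Fin (m + 1) => (s0 σ m)^[(j : ℕ)]
        (el (Additive.ofMul (Units.mk0 _ hX0)))) =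
        fun j => algebraMap (MvPolynomial (Fin (m + 1)) L)
          (FractionRing (MvPolynomial (Fin (m + 1)) L)) (MvPolynomial.X j) := by
      funext j
      show (s0 σ m)^[(j : ℕ)] (algebraMap _ _ (MvPolynomial.X 0)) = _
      rw [s0_iter, e0_iter_X]
      congr 2
      apply Fin.ext
      simp
    have h2 := (MvPolynomial.algebraicIndependent_X (Fin (m + 1)) L).map'
      (f := IsScalarTower.toAlgHom L (MvPolynomial (Fin (m + 1)) L)
        (FractionRing (MvPolynomial (Fin (m + 1)) L)))
      (IsFractionRing.injective _ _)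
    rw [h1]
    exact h2
  · have h1 : ∀ j : Fin (m + 1), algebraMap (MvPolynomial (Fin (m + 1)) L)
          (FractionRing (MvPolynomial (Fin (m + 1)) L)) (MvPolynomial.X j) ∈
          Cj (s0 σ m) (el (Additive.ofMul (Units.mk0 _ hX0))) := by
      intro j
      refine ⟨j, ?_⟩
      show (s0 σ m)^[(j : ℕ)] (algebraMap _ _ (MvPolynomial.X 0)) = _
      rw [s0_iter, e0_iter_X]
      congr 2
      apply Fin.ext
      simp
    have h2 : ∀ p : MvPolynomial (Fin (m + 1)) L, algebraMap (MvPolynomial (Fin (m + 1)) L)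
          (FractionRing (MvPolynomial (Fin (m + 1)) L)) p ∈
          IntermediateField.adjoin L (Cj (s0 σ m) (el (Additive.ofMul (Units.mk0 _ hX0)))) := by
      intro p
      induction p using MvPolynomial.induction_on with
      | C a =>
        rw [← MvPolynomial.algebraMap_eq, ← IsScalarTower.algebraMap_apply]
        exact IntermediateField.algebraMap_mem _ a
      | add p q hp hq =>
        rw [map_add]
        exact add_mem hp hq
      | mul_X p i hp =>
        rw [map_mul]
        exact mul_mem hp (IntermediateField.subset_adjoin _ _ (h1 i))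
    rw [eq_top_iff]
    intro a _
    obtain ⟨p, q, -, rfl⟩ := IsFractionRing.div_surjective (A := MvPolynomial (Fin (m + 1)) L) a
    exact div_mem (h2 p) (h2 q)

end Pool.Agent.TorR
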