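import Pool.Agent.Work.MP_88348f_ag.TA.Stmts

set_option autoImplicit false

/-!
# Item Rel: the two relations
-/

open Polynomial
open scoped TensorProduct

namespace Pool.Agent.TorR

theorem pr_Rel (h1 : StPw) (h2 : StCyc) : StRel := by
  intro Ω _ s m r hm hr hrm W y hW hy hWy
  obtain ⟨⟨g, hg⟩, ⟨a, b, hab⟩, -⟩ := (h2 m r hm hr).1 hrm
  have hmul : ∀ (z : Additive Ωˣ) (f g : ℤ[X]), pw s (f * g) z = pw s f (pw s g z) :=
    fun z => (h1 Ω s z z).2.1
  have hadd : ∀ (z : Additive Ωˣ) (f g : ℤ[X]), pw s (f + g) z = pw s f z + pw s g z :=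
    fun z => (h1 Ω s z z).2.2.1
  constructor
  · rw [hab, hadd, hmul, hmul, map_sub (pw s (X ^ m - 1)), hWy, sub_self, map_zero,
      map_sub (pw s (expand ℤ r (cyclotomic m ℤ))), hW, hy, sub_self, map_zero, add_zero]
  · rw [← hmul, hg, hmul, hW, map_zero]

end Pool.Agent.TorR
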