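import Pool.Agent.Work.MP_88348f_ag.TA.Stmts

set_option autoImplicit false

/-!
# MP_88348f_ag, block TA, item Res: restriction to the subfield generated by the conjugates.
-/

open Polynomial
open scoped TensorProduct

namespace Pool.Agent.TorR

namespace ITRes

/-- the subfield generated by the conjugates is stable -/
theorem stab {L Ω : Type} [Field L] [Field Ω] [Algebra L Ω] (σ : L ≃+* L) (s : Ω ≃+* Ω)
    (hs : Semi σ s) (x : Ω) :
    ∀ a ∈ IntermediateField.adjoin L (Cj s x), s a ∈ IntermediateField.adjoin L (Cj s x) := by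
  intro a ha
  induction ha using IntermediateField.adjoin_induction with
  | mem y hy =>
    obtain ⟨j, rfl⟩ := hy
    apply IntermediateField.subset_adjoin
    exact ⟨j + 1, by simp only [Function.iterate_succ_apply']⟩
  | algebraMap c =>
    rw [hs c]
    exact IntermediateField.algebraMap_mem _ _
  | add y z _ _ hy hz => rw [map_add]; exact add_mem hy hz
  | inv y _ hy => rw [map_inv₀]; exact inv_mem hy
  | mul y z _ _ hy hz => rw [map_mul]; exact mul_mem hy hz

theorem stabIter {L Ω : Type} [Field L] [Field Ω] [Algebra L Ω] (σ : L ≃+* L) (s : Ω ≃+* Ω)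
    (hs : Semi σ s) (x : Ω) (j : ℕ) :
    ∀ a ∈ IntermediateField.adjoin L (Cj s x), s^[j] a ∈ IntermediateField.adjoin L (Cj s x) := by
  induction j with
  | zero => intro a ha; exact ha
  | succ j ih =>
    intro a ha
    rw [Function.iterate_succ_apply']
    exact stab σ s hs x _ (ih a ha)

theorem stabSymm {L Ω : Type} [Field L] [Field Ω] [Algebra L Ω] (σ : L ≃+* L) (s : Ω ≃+* Ω)
    (hs : Semi σ s) (x : Ω) (n : ℕ) (hn : 0 < n) (hp : ∀ a : Ω, s^[n] a = a) :
    ∀ a ∈ IntermediateField.adjoin L (Cj s x), s.symm a ∈ IntermediateField.adjoin L (Cj s x) := by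
  intro a ha
  have h : s.symm a = s^[n - 1] a := by
    rw [RingEquiv.symm_apply_eq, ← Function.iterate_succ_apply' (f := ⇑s)]
    have h2 : (n - 1).succ = n := by omega
    rw [h2, hp]
  rw [h]
  exact stabIter σ s hs x _ a ha

/-- the restriction of `s` -/
noncomputable def res {L Ω : Type} [Field L] [Field Ω] [Algebra L Ω] (s : Ω ≃+* Ω)
    (E : IntermediateField L Ω) (h1 : ∀ a ∈ E, s a ∈ E) (h2 : ∀ a ∈ E, s.symm a ∈ E) :
    E ≃+* E where
  toFun a := ⟨s a, h1 a a.2⟩
  invFun a := ⟨s.symm a, h2 a a.2⟩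
  left_inv a := by apply Subtype.ext; simp
  right_inv a := by apply Subtype.ext; simp
  map_mul' a b := by apply Subtype.ext; simp
  map_add' a b := by apply Subtype.ext; simp

theorem res_val {L Ω : Type} [Field L] [Field Ω] [Algebra L Ω] (s : Ω ≃+* Ω)
    (E : IntermediateField L Ω) (h1 : ∀ a ∈ E, s a ∈ E) (h2 : ∀ a ∈ E, s.symm a ∈ E) (a : E) :
    ((res s E h1 h2 a : E) : Ω) = s a := rfl

theorem res_iter {L Ω : Type} [Field L] [Field Ω] [Algebra L Ω] (s : Ω ≃+* Ω)
    (E : IntermediateField L Ω) (h1 : ∀ a ∈ E, s a ∈ E) (h2 : ∀ a ∈ E, s.symm a ∈ E) (j : ℕ)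
    (a : E) : (((res s E h1 h2)^[j] a : E) : Ω) = s^[j] a := by
  induction j with
  | zero => rfl
  | succ j ih => rw [Function.iterate_succ_apply', Function.iterate_succ_apply', res_val, ih]

theorem top_of {L Ω : Type} [Field L] [Field Ω] [Algebra L Ω] (E : IntermediateField L Ω)
    (S : Set E) (T : Set Ω) (hT : IntermediateField.adjoin L T = E)
    (h : (fun a : E => (a : Ω)) '' S = T) : IntermediateField.adjoin L S = ⊤ := by
  apply IntermediateField.map_injective E.val
  rw [IntermediateField.adjoin_map]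
  have h3 : (⇑E.val '' S) = T := h
  rw [h3, hT]
  ext a
  constructor
  · intro ha
    exact ⟨⟨a, ha⟩, trivial, rfl⟩
  · rintro ⟨b, _, rfl⟩
    exact b.2

end ITRes

open ITRes in
theorem pr_Res (h1 : StPw) (h2 : StPwN) : StRes := by
  intro L Ω _ _ _ σ s n t x hs hn hp ht hind hgen hx
  set E : IntermediateField L Ω := IntermediateField.adjoin L (Cj s (el x)) with hE
  have hst : ∀ a ∈ E, s a ∈ E := stab σ s hs (el x)
  have hsy : ∀ a ∈ E, s.symm a ∈ E := stabSymm σ s hs (el x) n hn hp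
  have hxE : el x ∈ E := IntermediateField.subset_adjoin _ _ ⟨0, rfl⟩
  have htE : ∀ i, t i ∈ E := by
    intro i
    rw [← hgen]
    exact IntermediateField.subset_adjoin _ _ ⟨i, rfl⟩
  have hx0 : el x ≠ 0 := (h1 Ω s x x).2.2.2.2.2.2.2.2.2.2.2.1
  have hx0' : (⟨el x, hxE⟩ : E) ≠ 0 := by
    intro h
    exact hx0 (congrArg Subtype.val h)
  let s' : E ≃+* E := res s E hst hsy
  let x' : Additive Eˣ := Additive.ofMul (Units.mk0 (⟨el x, hxE⟩ : E) hx0')
  let t' : Fin (Nat.totient n + 0) → E := fun i => ⟨t i, htE i⟩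
  have hx' : el x = ((algebraMap E Ω : E →+* Ω)) (el x') := rfl
  refine ⟨E, inferInstance, inferInstance, s', t', x', Fin.elim0, ?_, ⟨?_, ?_, ?_⟩, ?_, ?_, ?_⟩
  · intro a
    apply Subtype.ext
    exact hs a
  · intro i
    apply Subtype.ext
    exact ht i
  · exact AlgebraicIndependent.of_comp E.val hind
  · apply top_of E _ (Set.range t) hgen
    ext a
    constructor
    · rintro ⟨_, ⟨i, rfl⟩, rfl⟩
      exact ⟨i, rfl⟩
    · rintro ⟨i, rfl⟩
      exact ⟨t' i, ⟨i, rfl⟩, rfl⟩
  · have h3 := h2 E Ω s' s (algebraMap E Ω : E →+* Ω) 1 (fun a => rfl) x' x hx' (cyclotomic n ℤ)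
    rw [expand_one, hx] at h3
    have h4 : el (0 : Additive Ωˣ) = 1 := (h1 Ω s x x).2.2.2.2.2.2.2.2.2.1
    have h5 : el (0 : Additive Eˣ) = 1 := (h1 E s' x' x').2.2.2.2.2.2.2.2.2.1
    apply (h1 E s' (pw s' (cyclotomic n ℤ) x') 0).2.2.2.2.2.2.2.2.2.2.2.2
    rw [h5]
    rw [h4] at h3
    apply (algebraMap E Ω : E →+* Ω).injective
    rw [← h3, map_one]
  · intro i; exact i.elim0
  · apply top_of E _ (Cj s (el x)) hE.symm
    ext a
    constructor
    · rintro ⟨b, hb | ⟨i, _⟩, rfl⟩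
      · obtain ⟨j, rfl⟩ := hb
        exact ⟨j, (res_iter s E hst hsy j (el x')).symm⟩
      · exact i.elim0
    · rintro ⟨j, rfl⟩
      exact ⟨s'^[j] (el x'), Or.inl ⟨j, rfl⟩, res_iter s E hst hsy j (el x')⟩

end Pool.Agent.TorR
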