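import Pool.Agent.Work.MP_88348f_ag.TA.Stmts

set_option autoImplicit false

/-!
# MP_88348f_ag, block TA, item Sec: the section
-/

open Polynomial
open scoped TensorProduct

namespace Pool.Agent.TorR

namespace ITSec

/-- telescoping identity -/
theorem tele (m r : ℕ) : (X ^ m - 1 : ℤ[X]) * ∑ i ∈ Finset.range r, C (i : ℤ) * X ^ (m * i) =
    C (r : ℤ) * X ^ (m * r) - X ^ m * ∑ i ∈ Finset.range r, X ^ (m * i) := by
  induction r with
  | zero => simp
  | succ r ih =>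
    rw [Finset.sum_range_succ, Finset.sum_range_succ, mul_add, ih]
    have h1 : (X : ℤ[X]) ^ (m * (r + 1)) = X ^ (m * r) * X ^ m := by
      rw [← pow_add]
      congr 1
    rw [h1]
    push_cast
    simp only [map_add, map_one, map_natCast]
    ring

theorem geo (m r : ℕ) : (X ^ m - 1 : ℤ[X]) * ∑ i ∈ Finset.range r, X ^ (m * i) =
    X ^ (m * r) - 1 := by
  have h := Commute.geom_sum₂_mul (Commute.one_right ((X : ℤ[X]) ^ m)) r
  have h2 : ∑ i ∈ Finset.range r, ((X : ℤ[X]) ^ m) ^ i * 1 ^ (r - 1 - i) =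
      ∑ i ∈ Finset.range r, X ^ (m * i) := by
    refine Finset.sum_congr rfl fun i _ => ?_
    rw [one_pow, mul_one, ← pow_mul]
  rw [h2] at h
  rw [mul_comm, h, one_pow, ← pow_mul]

theorem sum_iter {Ω : Type} [Field Ω] (s : Ω ≃+* Ω) (j : ℕ) {ι : Type} (A : Finset ι)
    (f : ι → Ω) : s^[j] (∑ i ∈ A, f i) = ∑ i ∈ A, s^[j] (f i) := by
  induction j generalizing f with
  | zero => rfl
  | succ j ih =>
    rw [Function.iterate_succ_apply, map_sum, ih]
    rfl

theorem prod_iter {Ω : Type} [Field Ω] (s : Ω ≃+* Ω) (j : ℕ) {ι : Type} (A : Finset ι)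
    (f : ι → Ω) : s^[j] (∏ i ∈ A, f i) = ∏ i ∈ A, s^[j] (f i) := by
  induction j generalizing f with
  | zero => rfl
  | succ j ih =>
    rw [Function.iterate_succ_apply, map_prod, ih]
    rfl

theorem zpow_iter {Ω : Type} [Field Ω] (s : Ω ≃+* Ω) (j : ℕ) (x : Ω) (a : ℤ) :
    s^[j] (x ^ a) = (s^[j] x) ^ a := by
  induction j generalizing x with
  | zero => rfl
  | succ j ih =>
    rw [Function.iterate_succ_apply, map_zpow₀, ih]
    rfl

theorem semi_iter {L Ω : Type} [Field L] [Field Ω] [Algebra L Ω] {σ : L ≃+* L} {s : Ω ≃+* Ω}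
    (hs : Semi σ s) (j : ℕ) (a : L) : s^[j] (algebraMap L Ω a) = algebraMap L Ω (σ^[j] a) := by
  induction j generalizing a with
  | zero => rfl
  | succ j ih => rw [Function.iterate_succ_apply, hs, ih]; rfl

end ITSec

open ITSec

theorem pr_Sec (h1 : StPw) (h2 : StPwE) (h3 : StPwZ) (h4 : StCyc) (h5 : StH90) : StSec := by
  intro L Ω _ _ _ σ s m r hs ho hr hrm hper W hW
  have hr0 : 0 < r := hr.pos
  have hm : 0 < m := Nat.pos_of_mul_pos_right ho.1
  have pX : ∀ (x : Additive Ωˣ) (j : ℕ), el (pw s (X ^ j) x) = s^[j] (el x) := fun x =>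
    (h1 Ω s x x).1
  have pmul : ∀ (x : Additive Ωˣ) (f g : ℤ[X]), pw s (f * g) x = pw s f (pw s g x) := fun x =>
    (h1 Ω s x x).2.1
  have psub : ∀ (x : Additive Ωˣ) (f g : ℤ[X]), pw s (f - g) x = pw s f x - pw s g x := fun x =>
    (h1 Ω s x x).2.2.2.1
  have pC : ∀ (x : Additive Ωˣ) (a : ℤ), pw s (C a) x = a • x := fun x =>
    (h1 Ω s x x).2.2.2.2.1
  have pone : ∀ x : Additive Ωˣ, pw s 1 x = x := fun x => (h1 Ω s x x).2.2.2.2.2.1
  have psum : ∀ (x : Additive Ωˣ) (ι : Type) (S : Finset ι) (f : ι → ℤ[X]),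
      pw s (∑ i ∈ S, f i) x = ∑ i ∈ S, pw s (f i) x := fun x => (h1 Ω s x x).2.2.2.2.2.2.1
  have eadd : ∀ x y : Additive Ωˣ, el (x + y) = el x * el y := fun x y =>
    (h1 Ω s x y).2.2.2.2.2.2.2.1
  have eneg : ∀ x : Additive Ωˣ, el (-x) = (el x)⁻¹ := fun x =>
    (h1 Ω s x x).2.2.2.2.2.2.2.2.1
  have ezero : el (0 : Additive Ωˣ) = 1 := (h1 Ω s 0 0).2.2.2.2.2.2.2.2.2.1
  have esmul : ∀ (x : Additive Ωˣ) (a : ℤ), el (a • x) = el x ^ a := fun x =>
    (h1 Ω s x x).2.2.2.2.2.2.2.2.2.2.1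
  have ene : ∀ x : Additive Ωˣ, el x ≠ 0 := fun x => (h1 Ω s x x).2.2.2.2.2.2.2.2.2.2.2.1
  have einj : ∀ x y : Additive Ωˣ, el x = el y → x = y := fun x y =>
    (h1 Ω s x y).2.2.2.2.2.2.2.2.2.2.2.2
  have pcomm : ∀ (x : Additive Ωˣ) (f g : ℤ[X]), pw s f (pw s g x) = pw s g (pw s f x) := by
    intro x f g
    rw [← pmul, mul_comm, pmul]
  have esum : ∀ (n : ℕ) (f : ℕ → Additive Ωˣ),
      el (∑ i ∈ Finset.range n, f i) = ∏ i ∈ Finset.range n, el (f i) := by
    intro n f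
    induction n with
    | zero => rw [Finset.sum_range_zero, Finset.prod_range_zero, ezero]
    | succ n ih => rw [Finset.sum_range_succ, Finset.prod_range_succ, eadd, ih]
  set w : Additive Ωˣ := pw s (X ^ m - 1) W with hw
  set Φ : ℤ[X] := expand ℤ r (cyclotomic m ℤ) with hΦ
  have hΦw : pw s Φ w = 0 := by rw [hw, pcomm, hW, map_zero]
  have hXmr : ∀ x : Additive Ωˣ, pw s (X ^ (m * r)) x = x := by
    intro x
    apply einj
    rw [pX, hper]
  have hNw : pw s (∑ i ∈ Finset.range r, X ^ (m * i)) w = 0 := by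
    rw [hw, pcomm, ← pmul, geo, psub, hXmr, pone, sub_self]
  -- Hilbert 90
  set τ : Ω ≃+* Ω := s ^ m with hτ
  have hτi : ∀ (j : ℕ) (a : Ω), τ^[j] a = s^[m * j] a := by
    intro j a
    have e1 : (τ : Ω → Ω) = s^[m] := RingAut.coe_pow s m
    rw [e1, ← Function.iterate_mul]
  have hcF : ∀ j, 0 < j → j < r → ∃ c ∈ (algebraMap L Ω).fieldRange, τ^[j] c ≠ c := by
    intro j hj hjr
    obtain ⟨a, ha⟩ := ho.2.2 (m * j) (Nat.mul_pos hm hj) (Nat.mul_lt_mul_of_pos_left hjr hm)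
    refine ⟨algebraMap L Ω a, ⟨a, rfl⟩, fun h => ha ?_⟩
    rw [hτi, semi_iter hs] at h
    exact (algebraMap L Ω).injective h
  have hprod : ∏ j ∈ Finset.range r, τ^[j] (el w) = 1 := by
    rw [← ezero, ← hNw, psum, esum]
    refine Finset.prod_congr rfl fun j _ => ?_
    rw [pX, hτi]
  obtain ⟨c, ⟨c', hc'⟩, hS0, hS1⟩ := h5 Ω τ r (algebraMap L Ω).fieldRange hr0
    (fun a => by rw [hτi, hper]) hcF (el w) (ene w) hprod
  set S₀ : Ω := ∑ i ∈ Finset.range r, (∏ j ∈ Finset.range i, τ^[j] (el w)) * τ^[i] c with hS₀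
  set S : Additive Ωˣ := Additive.ofMul (Units.mk0 S₀ hS0) with hS
  have heS : el S = S₀ := rfl
  have hSw : pw s (X ^ m - 1) S = -w := by
    have e1 : w + pw s (X ^ m) S = S := by
      apply einj
      rw [eadd, pX, heS]
      have e2 : s^[m] S₀ = τ S₀ := by
        have := hτi 1 S₀
        rw [mul_one] at this
        exact this.symm
      rw [e2, hS1]
    rw [psub, pone]
    have e3 : pw s (X ^ m) S = S - w := eq_sub_of_add_eq' e1
    have e4 : pw s (X ^ m) S - S = -w := by rw [e3]; abel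
    exact e4
  obtain ⟨-, -, P, ⟨q₁, hq₁⟩, q₂, hq₂⟩ := (h4 m r hm hr).1 hrm
  set y' : Additive Ωˣ := pw s P (-S) with hy'
  have hy1 : pw s (X ^ m - 1) y' = (m : ℤ) • w := by
    have e1 : pw s (X ^ m - 1) y' = pw s P w := by
      rw [hy', pcomm, map_neg, hSw, neg_neg]
    have e2 : P = C (m : ℤ) + Φ * q₂ := by rw [← hq₂]; ring
    have e3 : pw s P w = (m : ℤ) • w + pw s (Φ * q₂) w := by
      have := (h1 Ω s w w).2.2.1 (C (m : ℤ)) (Φ * q₂)
      rw [← e2, pC] at this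
      exact this
    rw [e1, e3, pmul, pcomm, hΦw, map_zero, add_zero]
  have hy2 : pw s Φ y' = 0 := by
    rw [hy', ← pmul]
    exact h3 Ω s (m * r) (-S) (Φ * P) (hper _) ⟨q₁, hq₁⟩
  set Z : ℤ[X] := ∑ i ∈ Finset.range r, C (i : ℤ) * X ^ (m * i) with hZ
  have hz1 : pw s (X ^ m - 1) (pw s Z w) = (r : ℤ) • w := by
    rw [← pmul, hZ, tele, psub, pmul, pmul, hNw, map_zero, sub_zero, hXmr, pC]
  have hz2 : pw s Φ (pw s Z w) = 0 := by rw [pcomm, hΦw, map_zero]
  have hcop : IsCoprime (r : ℤ) (m : ℤ) :=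
    Nat.isCoprime_iff_coprime.2 ((Nat.Prime.coprime_iff_not_dvd hr).2 hrm)
  obtain ⟨a, b, hab⟩ := hcop
  refine ⟨a • pw s Z w + b • y', ?_, ?_, ?_⟩
  · rw [map_add, map_zsmul, map_zsmul, hz1, hy1, smul_smul, smul_smul, ← add_zsmul, hab, one_zsmul]
  · rw [map_add, map_zsmul, map_zsmul, hz2, hy2, smul_zero, smul_zero, add_zero]
  · intro E hE j
    have hSE : ∀ j, s^[j] (el (-S)) ∈ E := by
      intro j
      have e0 : s^[j] (el (-S)) = (s^[j] (el S)) ^ (-1 : ℤ) := by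
        rw [eneg, ← zpow_neg_one, zpow_iter]
      rw [e0]
      refine zpow_mem ?_ _
      rw [heS, hS₀, sum_iter]
      refine E.sum_mem fun i _ => ?_
      have e1 : s^[j] ((∏ l ∈ Finset.range i, τ^[l] (el w)) * τ^[i] c) =
          (∏ l ∈ Finset.range i, s^[j] (τ^[l] (el w))) * s^[j] (τ^[i] c) := by
        rw [iterate_map_mul, prod_iter]
      rw [e1]
      refine E.mul_mem (E.prod_mem fun l _ => ?_) ?_
      · rw [hτi, ← Function.iterate_add_apply]
        exact hE _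
      · rw [hτi, ← Function.iterate_add_apply, ← hc', semi_iter hs]
        exact E.algebraMap_mem _
    have hzE := h2 L Ω s E w hE Z
    have hyE := h2 L Ω s E (-S) hSE P
    rw [eadd, esmul, esmul, iterate_map_mul, zpow_iter, zpow_iter]
    exact E.mul_mem (zpow_mem (hzE j) a) (zpow_mem (hyE j) b)

end Pool.Agent.TorR
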