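import Pool.Agent.Work.MP_88348f_ag.TA.Stmts

set_option autoImplicit false

/-! Item Sqf: products of distinct primes. -/

namespace Pool.Agent.TorR

theorem ITSqf_dvd (r : ℕ) (hr : r.Prime) (l : List ℕ) (hl : ∀ p ∈ l, p.Prime) (h : r ∉ l) :
    ¬ r ∣ l.prod := by
  intro hd
  obtain ⟨a, ha, hra⟩ := (Prime.dvd_prod_iff hr.prime).1 hd
  have h1 : r = a := (Nat.prime_dvd_prime_iff_eq hr (hl a ha)).1 hra
  exact h (h1 ▸ ha)

theorem ITSqf_pos (l : List ℕ) (hl : ∀ p ∈ l, p.Prime) : 0 < l.prod :=
  List.prod_pos fun p hp => (hl p hp).pos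

theorem pr_Sqf (h1 : StOne) (h2 : StPri) (h3 : StKly) (h4 : StInd) : StSqf := by
  intro l
  induction l with
  | nil =>
    intro _ _
    exact h1
  | cons r l ih =>
    intro hl hn
    have hr : r.Prime := hl r (List.mem_cons_self)
    have hl' : ∀ p ∈ l, p.Prime := fun p hp => hl p (List.mem_cons_of_mem _ hp)
    obtain ⟨hrl, hn'⟩ := List.nodup_cons.1 hn
    match l, ih, hl', hrl, hn' with
    | [], _, _, _, _ =>
      have h5 := h2 r hr
      rw [List.prod_singleton]
      exact h5
    | [b], _, hl', hrl, _ =>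
      have hb : b.Prime := hl' b (List.mem_cons_self)
      have hne : r ≠ b := fun h => hrl (by rw [h]; exact List.mem_cons_self)
      have h5 := h3 r b hr hb hne
      rw [List.prod_cons, List.prod_singleton]
      exact h5
    | b :: c :: l', ih, hl', hrl, hn' =>
      have h5 := ih hl' hn'
      have h6 := h4 _ _ r (ITSqf_pos _ hl') h5 hr (ITSqf_dvd r hr _ hl' hrl)
      rw [List.prod_cons, Nat.mul_comm r]
      exact h6

end Pool.Agent.TorR
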