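import Pool.Agent.Work.MP_88348f_ag.TA.Stmts

set_option autoImplicit false

/-!
# Item Thm: the theorem
-/

open Polynomial
open scoped TensorProduct

namespace Pool.Agent.TorR

theorem pr_Thm (h1 : StAll) (h2 : StFin) : StThm := by
  intro k L _ _ _ _ _ _
  exact h2 k L _ (h1 _ Module.finrank_pos)

end Pool.Agent.TorR
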