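import Pool.Agent.Work.MP_88348f_ag.TA.Stmts

set_option autoImplicit false

/-!
# MP_88348f_ag, block TA, item Up: from `σ^[r]` to `σ`
-/

open Polynomial
open scoped TensorProduct

namespace Pool.Agent.TorR

namespace ITUp

theorem el_inj {Ω : Type} [Field Ω] {x y : Additive Ωˣ} (h : el x = el y) : x = y := by
  have h1 : Additive.toMul x = Additive.toMul y := Units.ext h
  exact Additive.toMul.injective h1

/-- the subfield generated by sets which are stable under `s` is stable under `s` -/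
theorem stable {L Ω : Type} [Field L] [Field Ω] [Algebra L Ω] {σ : L ≃+* L} {s : Ω ≃+* Ω}
    (h : Semi σ s) (A : Set Ω) (hA : ∀ a ∈ A, s a ∈ IntermediateField.adjoin L A) (a : Ω)
    (ha : a ∈ IntermediateField.adjoin L A) : s a ∈ IntermediateField.adjoin L A := by
  let S : Subfield Ω := (IntermediateField.adjoin L A).toSubfield.comap (s : Ω →+* Ω)
  have hS : ∀ x, x ∈ S ↔ s x ∈ IntermediateField.adjoin L A := fun x => Iff.rfl
  let T : IntermediateField L Ω := S.toIntermediateField (fun x => by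
    rw [hS, h x]
    exact (IntermediateField.adjoin L A).algebraMap_mem (σ x))
  have hT : IntermediateField.adjoin L A ≤ T := by
    rw [IntermediateField.adjoin_le_iff]
    intro x hx
    exact (hS x).2 (hA x hx)
  exact (hS a).1 (hT ha)

theorem stable_iter {Ω : Type} {s : Ω → Ω} {P : Ω → Prop} (h : ∀ a, P a → P (s a)) (c : ℕ)
    (a : Ω) (ha : P a) : P (s^[c] a) := by
  induction c generalizing a with
  | zero => exact ha
  | succ c ih =>
    rw [Function.iterate_succ_apply]
    exact ih _ (h a ha)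

theorem iter_mul {Ω' Ω : Type} {s' : Ω' → Ω'} {s : Ω → Ω} {ψ : Ω' → Ω} {r : ℕ}
    (h : ∀ a, s^[r] (ψ a) = ψ (s' a)) (j : ℕ) (a : Ω') : ψ (s'^[j] a) = s^[r * j] (ψ a) := by
  induction j generalizing a with
  | zero => rfl
  | succ j ih =>
    rw [Function.iterate_succ_apply, ih, ← h, Nat.mul_succ, Function.iterate_add_apply]

end ITUp

theorem pr_Up (h1 : StBs) (h2 : StNN) (h3 : StCo) (h4 : StCo2) (h5 : StPwN) : StUp := by
  intro L _ σ σr m r m' hO hσr hR
  obtain ⟨Ω', _, _, s', t', x', y', hs', hF', hx', hy', hg'⟩ := hR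
  obtain ⟨e, he, hdet⟩ := h1 L σ m r hO
  have hr : 0 < r := Nat.pos_of_mul_pos_left hO.1
  have hs'' : ∀ a, s' (algebraMap L Ω' a) = algebraMap L Ω' (σ^[r] a) := fun a => by
    rw [hs' a, hσr]
  obtain ⟨Ω, _, _, s, T, ψ, hs, hF, hψ, ht⟩ :=
    h2 L σ r e Ω' s' (Nat.totient m + m') t' hr he hdet hs'' hF'
  let W : Additive Ωˣ := Additive.ofMul (Units.map (ψ : Ω' →* Ω) (Additive.toMul x'))
  have hW : el W = ψ (el x') := rfl
  have hfix : ∀ i, s^[r] (ψ (y' i)) = ψ (y' i) := fun i => by rw [hψ, hy']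
  choose z hz1 hz2 hz3 using fun i => h3 L Ω σ s r e hs hr he hdet (ψ (y' i)) (hfix i)
  have hpw : pw s (expand ℤ r (cyclotomic m ℤ)) W = 0 := by
    apply ITUp.el_inj
    have h6 := h5 Ω' Ω s' s (ψ : Ω' →+* Ω) r hψ x' W hW (cyclotomic m ℤ)
    rw [h6, hx']
    exact map_one ψ
  refine ⟨Ω, _, _, s, T, W, fun p => z p.1 p.2, hs, hF, hpw, fun p => hz1 p.1 p.2, ?_⟩
  set A : Set Ω := Cj s (el W) ∪ Set.range (fun p : Fin m' × Fin r => z p.1 p.2) with hA
  have hA1 : ∀ j, s^[j] (el W) ∈ IntermediateField.adjoin L A := fun j =>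
    IntermediateField.subset_adjoin L A (Or.inl ⟨j, rfl⟩)
  have hA2 : ∀ i j, z i j ∈ IntermediateField.adjoin L A := fun i j =>
    IntermediateField.subset_adjoin L A (Or.inr ⟨(i, j), rfl⟩)
  have hst : ∀ a, a ∈ IntermediateField.adjoin L A → s a ∈ IntermediateField.adjoin L A := by
    apply ITUp.stable hs A
    rintro a (⟨j, rfl⟩ | ⟨p, rfl⟩)
    · have h7 := hA1 (j + 1)
      rw [Function.iterate_succ_apply'] at h7
      exact h7
    · have h7 : s (z p.1 p.2) = z p.1 p.2 := hz1 p.1 p.2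
      show s (z p.1 p.2) ∈ _
      rw [h7]
      exact hA2 p.1 p.2
  have hψE : ∀ a, ψ a ∈ IntermediateField.adjoin L A := by
    have h8 : IntermediateField.adjoin L (Cj s' (el x') ∪ Set.range y') ≤
        (IntermediateField.adjoin L A).comap ψ := by
      rw [IntermediateField.adjoin_le_iff]
      rintro a (⟨j, rfl⟩ | ⟨i, rfl⟩)
      · show ψ (s'^[j] (el x')) ∈ IntermediateField.adjoin L A
        rw [ITUp.iter_mul (s := s) (ψ := ψ) hψ j, ← hW]
        exact hA1 _
      · show ψ (y' i) ∈ IntermediateField.adjoin L A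
        rw [hz2 i]
        exact sum_mem fun j _ => mul_mem ((IntermediateField.adjoin L A).algebraMap_mem _)
          (hA2 i j)
    rw [hg'] at h8
    intro a
    exact h8 IntermediateField.mem_top
  have hT : ∀ p, T p ∈ IntermediateField.adjoin L A := by
    rintro ⟨i, j⟩
    refine h4 L Ω σ s r e hs hdet (fun j => T (i, j)) (fun j => hF.fix (i, j))
      (IntermediateField.adjoin L A) (fun c => ?_) j
    rw [← ht i]
    exact ITUp.stable_iter (P := fun a => a ∈ IntermediateField.adjoin L A) hst c _ (hψE _)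
  rw [eq_top_iff, ← hF.gen, IntermediateField.adjoin_le_iff]
  rintro _ ⟨p, rfl⟩
  exact hT p

end Pool.Agent.TorR
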